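import Pool.Agent.IW.PS

/-!
IW, almost sure exponents, upper half (helper57): the maximal distance from the start of the uniform walk with exactly `l`
letters has a tail of every power, every `l`.
-/

set_option autoImplicit false

namespace HexObs

namespace TIP

open Finset TS SDN NTW NTA HexObs.SIM

open scoped ENNReal unitInterval

namespace NQ

lemma pn_le_one {n : ℕ} (hn : 1 ≤ n) (B : Set (List Bool)) : TOG.Pn n B ≤ 1 := by
  refine pn_le hn zero_le_one ?_
  rw [ENNReal.ofReal_one, one_mul]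
  exact gf_mono fun t ht => ht.1

/-- the distance from the start is at most twice the number of letters -/
lemma norm_le (t : List Bool) (i : ℕ) : ‖NTF.JJ (vx oo up t i)‖ ≤ 2 * i := by
  obtain ⟨dir, h⟩ := NTF.exists_dir (norm_nonneg _) (le_refl ‖NTF.JJ (vx oo up t i)‖)
  refine h.trans ?_
  rw [← Int.cast_abs]
  exact_mod_cast EN.lvl_lip dir t i

/-- **the tail of the maximal distance from the start, every power** -/
theorem asUp : ∀ Q : ℕ, ∃ C : ℝ, 0 < C ∧ ∀ (l : ℕ) (lam : ℝ), 1 ≤ l → 1 ≤ lam →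
    TOG.Pn l {t | ∃ i, i ≤ l ∧ lam * (l : ℝ) ^ (3 / 4 : ℝ) ≤ ‖NTF.JJ (vx oo up t i)‖} ≤ C / lam ^ Q := by
  intro Q
  obtain ⟨K, k0, hK, htail⟩ := EN.tail_x EN.espw_M EN.allX_M Q
  obtain ⟨cb, κ, k1, hcb, hκ, hbig⟩ := EN.factsX_M.big
  obtain ⟨a, A, ha, hA, hpow⟩ := scale_pow
  obtain ⟨n0, hn0⟩ := ex_scale (max k0 k1)
  obtain ⟨C, hC⟩ : ∃ C : ℝ, C = K * 2 ^ Q / (a ^ Q * cb) + 1 / a ^ Q + (2 * n0 + 1) ^ Q := ⟨_, rfl⟩
  have hC1 : 0 < K * 2 ^ Q / (a ^ Q * cb) := by positivity
  have hC2 : 0 < 1 / a ^ Q := by positivity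
  have hC3 : (0 : ℝ) < (2 * n0 + 1) ^ Q := by positivity
  have hC0 : 0 < C := by rw [hC]; positivity
  refine ⟨C, hC0, fun l lam hl hlam => ?_⟩
  have hlam0 : 0 < lam := by linarith
  have hlQ : 0 < lam ^ Q := by positivity
  have hl1 : (1 : ℝ) ≤ l := by exact_mod_cast hl
  have hl2 : (1 : ℝ) ≤ (l : ℝ) ^ (3 / 4 : ℝ) := Real.one_le_rpow hl1 (by norm_num)
  rcases lt_or_ge l n0 with hs | hs
  · -- short walks
    rcases le_or_gt lam (2 * n0 + 1) with h | h
    · refine (pn_le_one hl _).trans ?_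
      rw [le_div_iff₀ hlQ, one_mul]
      calc lam ^ Q ≤ (2 * n0 + 1) ^ Q := pow_le_pow_left₀ hlam0.le h Q
        _ ≤ C := by rw [hC]; linarith
    · refine pn_le hl (by positivity) ?_
      have he : {t | t ∈ SawN l ∧ t ∈ {t | ∃ i, i ≤ l ∧ lam * (l : ℝ) ^ (3 / 4 : ℝ) ≤ ‖NTF.JJ (vx oo up t i)‖}} = ∅ := by
        ext t
        refine ⟨?_, fun h => h.elim⟩
        rintro ⟨-, i, hi, h1⟩
        exfalso
        have h2 := norm_le t i
        have h3 : (i : ℝ) ≤ n0 := by exact_mod_cast (hi.trans hs.le)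
        have h4 : lam * 1 ≤ lam * (l : ℝ) ^ (3 / 4 : ℝ) := mul_le_mul_of_nonneg_left hl2 hlam0.le
        linarith
      rw [he]
      have e3 : gf (∅ : Set (List Bool)) = 0 := by unfold gf; exact tsum_empty
      rw [e3]
      exact bot_le
  · obtain ⟨k, hk, h1, h2⟩ := hn0 l hs
    rcases lt_or_ge (lam * a) 1 with h | h
    · refine (pn_le_one hl _).trans ?_
      rw [le_div_iff₀ hlQ, one_mul]
      have h3 : lam ^ Q * a ^ Q ≤ 1 := by
        rw [← mul_pow]
        exact pow_le_one₀ (by positivity) h.le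
      calc lam ^ Q ≤ 1 / a ^ Q := by rw [le_div_iff₀ (by positivity)]; exact h3
        _ ≤ C := by rw [hC]; linarith
    · obtain ⟨i, hi1, hi2⟩ := exists_nat_pow_near h (one_lt_two (α := ℝ))
      have h3 := htail k l i ((le_max_left _ _).trans hk) h1 h2
      have h4 := hbig k l ((le_max_right _ _).trans hk) h1 h2
      have h5 : ENNReal.ofReal cb * nuX (fun k => PW.mZ (2 ^ k)) k ≤ gf (SawN l) := h4.trans (gf_mono fun t ht => ht.1)
      refine pn_le hl (by positivity) ?_
      calc gf {t | t ∈ SawN l ∧ t ∈ {t | ∃ i, i ≤ l ∧ lam * (l : ℝ) ^ (3 / 4 : ℝ) ≤ ‖NTF.JJ (vx oo up t i)‖}}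
          ≤ gf {t | t ∈ SawN l ∧ ∃ (dir : Bool) (j : ℕ), j ≤ l ∧
              (2 : ℝ) ^ i * 2 ^ k ≤ |((lvl dir (vx oo up t j) : ℤ) : ℝ)|} := by
            refine gf_mono ?_
            rintro t ⟨ht, j, h6, h7⟩
            have h8 : (2 : ℝ) ^ i * 2 ^ k ≤ ‖NTF.JJ (vx oo up t j)‖ := by
              refine le_trans ?_ h7
              calc (2 : ℝ) ^ i * 2 ^ k ≤ lam * a * 2 ^ k := mul_le_mul_of_nonneg_right hi1 (by positivity)
                _ = lam * (a * 2 ^ k) := by ring
                _ ≤ _ := mul_le_mul_of_nonneg_left (hpow k l h1 h2).1 hlam0.le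
            obtain ⟨dir, h9⟩ := NTF.exists_dir (by positivity) h8
            exact ⟨ht, dir, j, h6, h9⟩
        _ ≤ ENNReal.ofReal (K / 2 ^ (Q * i)) * nuX (fun k => PW.mZ (2 ^ k)) k := h3
        _ ≤ ENNReal.ofReal (C / lam ^ Q * cb) * nuX (fun k => PW.mZ (2 ^ k)) k := by
            refine mul_le_mul_left (ENNReal.ofReal_le_ofReal ?_) _
            have h6 : (lam * a) ^ Q ≤ 2 ^ Q * 2 ^ (Q * i) := by
              rw [mul_comm Q i, pow_mul, ← mul_pow]
              refine pow_le_pow_left₀ (by positivity) ?_ Q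
              rw [← pow_succ']
              exact hi2.le
            have h7 : K / 2 ^ (Q * i) ≤ K * 2 ^ Q / (lam * a) ^ Q := by
              rw [div_le_div_iff₀ (by positivity) (by positivity)]
              calc K * (lam * a) ^ Q ≤ K * (2 ^ Q * 2 ^ (Q * i)) := mul_le_mul_of_nonneg_left h6 hK.le
                _ = _ := by ring
            refine h7.trans ?_
            have h8 : K * 2 ^ Q / (lam * a) ^ Q = K * 2 ^ Q / (a ^ Q * cb) / lam ^ Q * cb := by
              rw [mul_pow]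
              field_simp
            rw [h8]
            refine mul_le_mul_of_nonneg_right ?_ hcb.le
            refine div_le_div_of_nonneg_right ?_ hlQ.le
            rw [hC]
            linarith
        _ = ENNReal.ofReal (C / lam ^ Q) * (ENNReal.ofReal cb * nuX (fun k => PW.mZ (2 ^ k)) k) := by
            rw [ENNReal.ofReal_mul (by positivity), mul_assoc]
        _ ≤ ENNReal.ofReal (C / lam ^ Q) * gf (SawN l) := mul_le_mul_right h5 _

end NQ

end TIP

end HexObs
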