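import Pool.Agent.TIP.StrN

/-!
IW: two facts on the uniform walk with exactly n letters, every n: the walk is not fast at its start (from the modulus of
continuity), and after a positive part of the time it does not come back near its start (from the lower modulus and from
the statement on near double points).
-/

set_option autoImplicit false

namespace HexObs

namespace TIP

open Finset TS SDN NTW NTA HexObs.SIM

open scoped ENNReal unitInterval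

open Pool.Agent.NTS.Res

open NTF (JJ)

namespace NQ

/-- the scale of a number of letters -/
lemma ex_scale (k0 : ℕ) : ∃ n0 : ℕ, ∀ n : ℕ, n0 ≤ n → ∃ k : ℕ, k0 ≤ k ∧ PW.mZ (2 ^ k) ≤ n ∧ (n : ℝ) < PW.mZ (2 ^ (k + 1)) := by
  classical
  obtain ⟨c, hc, hlo⟩ := mlowZ
  obtain ⟨n0, hn0⟩ := exists_nat_ge (PW.mZ (2 ^ k0))
  refine ⟨n0, fun n hn => ?_⟩
  have hex : ∃ k : ℕ, k0 ≤ k ∧ (n : ℝ) < PW.mZ (2 ^ (k + 1)) := by
    obtain ⟨j, hj⟩ := pow_unbounded_of_one_lt ((n : ℝ) / c) (one_lt_two (α := ℝ))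
    refine ⟨k0 + j, by omega, ?_⟩
    rw [div_lt_iff₀ hc] at hj
    have h1 := hlo (k0 + j + 1)
    have h2 : (2 : ℝ) ^ j ≤ (2 : ℝ) ^ (4 / 3 * ((k0 + j + 1 : ℕ) : ℝ)) := by
      rw [← Real.rpow_natCast]
      refine Real.rpow_le_rpow_of_exponent_le (by norm_num) ?_
      push_cast
      have h3 : (0 : ℝ) ≤ k0 := Nat.cast_nonneg _
      have h4 : (0 : ℝ) ≤ j := Nat.cast_nonneg _
      linarith
    calc (n : ℝ) < 2 ^ j * c := hj
      _ ≤ c * (2 : ℝ) ^ (4 / 3 * ((k0 + j + 1 : ℕ) : ℝ)) := by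
          rw [mul_comm]
          exact mul_le_mul_of_nonneg_left h2 hc.le
      _ ≤ _ := h1
  obtain ⟨k, hk⟩ : ∃ k, k = Nat.find hex := ⟨_, rfl⟩
  have h1 := Nat.find_spec hex
  rw [← hk] at h1
  refine ⟨k, h1.1, ?_, h1.2⟩
  rcases Nat.eq_or_lt_of_le h1.1 with h2 | h2
  · rw [← h2]
    exact hn0.trans (by exact_mod_cast hn)
  · have h3 := Nat.find_min hex (m := k - 1) (by omega)
    rw [show k - 1 + 1 = k by omega] at h3
    by_contra hc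
    exact h3 ⟨by omega, not_le.1 hc⟩

/-- the number of letters against the scale -/
lemma scale_pow : ∃ a A : ℝ, 0 < a ∧ 0 < A ∧ ∀ k n : ℕ, PW.mZ (2 ^ k) ≤ n → (n : ℝ) < PW.mZ (2 ^ (k + 1)) →
    a * 2 ^ k ≤ (n : ℝ) ^ (3 / 4 : ℝ) ∧ (n : ℝ) ^ (3 / 4 : ℝ) ≤ A * 2 ^ k := by
  obtain ⟨C, hC⟩ := mupZ
  obtain ⟨c, hc, hc'⟩ := mlowZ
  have hC0 : 0 < C := by
    have h1 := hC 0
    have h2 : (0 : ℝ) < NTSF.MZ 0 := PW.mZ_pos Nat.one_le_two_pow
    rw [Nat.cast_zero, mul_zero, Real.rpow_zero, mul_one] at h1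
    linarith
  refine ⟨c ^ (3 / 4 : ℝ), C ^ (3 / 4 : ℝ) * 2, by positivity, by positivity, fun k n h1 h2 => ⟨?_, ?_⟩⟩
  · have h3 : c * (2 : ℝ) ^ (4 / 3 * (k : ℝ)) ≤ n := (hc' k).trans h1
    calc c ^ (3 / 4 : ℝ) * 2 ^ k = (c * (2 : ℝ) ^ (4 / 3 * (k : ℝ))) ^ (3 / 4 : ℝ) := by
          rw [Real.mul_rpow hc.le (by positivity), ← Real.rpow_mul (by norm_num),
            show (4 / 3 * (k : ℝ)) * (3 / 4 : ℝ) = (k : ℝ) by ring, Real.rpow_natCast]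
      _ ≤ (n : ℝ) ^ (3 / 4 : ℝ) := Real.rpow_le_rpow (by positivity) h3 (by norm_num)
  · have h3 : (n : ℝ) ≤ C * (2 : ℝ) ^ (4 / 3 * ((k + 1 : ℕ) : ℝ)) := h2.le.trans (hC (k + 1))
    calc (n : ℝ) ^ (3 / 4 : ℝ) ≤ (C * (2 : ℝ) ^ (4 / 3 * ((k + 1 : ℕ) : ℝ))) ^ (3 / 4 : ℝ) :=
          Real.rpow_le_rpow (Nat.cast_nonneg _) h3 (by norm_num)
      _ = C ^ (3 / 4 : ℝ) * 2 * 2 ^ k := by
          rw [Real.mul_rpow hC0.le (by positivity), ← Real.rpow_mul (by norm_num),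
            show (4 / 3 * ((k + 1 : ℕ) : ℝ)) * (3 / 4 : ℝ) = ((k + 1 : ℕ) : ℝ) by ring, Real.rpow_natCast, pow_succ]
          ring

/-- **the walk is not fast at its start** -/
theorem pf {r e : ℝ} (hr : 0 < r) (he : 0 < e) : ∃ θ : ℝ, 0 < θ ∧ ∃ n0 : ℕ, ∀ n : ℕ, n0 ≤ n →
    TOG.Pn n {t | ∃ i : ℕ, (i : ℝ) ≤ θ * n ∧ i ≤ n ∧ r * (n : ℝ) ^ (3 / 4 : ℝ) ≤ ‖JJ (vx oo up t i)‖} ≤ e := by
  obtain ⟨cb, κ, k1, hcb, hκ, hbig⟩ := EN.factsX_M.big
  obtain ⟨a, A, ha, hA, hpow⟩ := scale_pow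
  obtain ⟨ρ, k2, hρ, hmod⟩ := EN.factsX_M.modu (r * a) (e * cb) (by positivity) (by positivity)
  obtain ⟨C1, hC1, hst⟩ := SIM.m_step mlowZ mupZ
  obtain ⟨n0, hn0⟩ := ex_scale (max k1 k2)
  refine ⟨ρ / C1, by positivity, max n0 1, fun n hn => ?_⟩
  obtain ⟨k, hk, h1, h2⟩ := hn0 n ((le_max_left _ _).trans hn)
  have hn1 : 1 ≤ n := (le_max_right _ _).trans hn
  refine pn_le hn1 he.le ?_
  have h3 := hmod k n ((le_max_right _ _).trans hk) h1 h2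
  have h4 := hbig k n ((le_max_left _ _).trans hk) h1 h2
  have h5 : ENNReal.ofReal cb * nuX (fun k => PW.mZ (2 ^ k)) k ≤ gf (SawN n) := h4.trans (gf_mono fun t ht => ht.1)
  calc gf {t | t ∈ SawN n ∧ t ∈ {t | ∃ i : ℕ, (i : ℝ) ≤ ρ / C1 * n ∧ i ≤ n ∧ r * (n : ℝ) ^ (3 / 4 : ℝ) ≤ ‖JJ (vx oo up t i)‖}}
      ≤ gf {t | t ∈ SawN n ∧ ∃ (dir : Bool) (i j : ℕ), i ≤ j ∧ j ≤ n ∧ (j : ℝ) - i ≤ ρ * PW.mZ (2 ^ k) ∧
          r * a * 2 ^ k ≤ |((lvl dir (vx oo up t j) - lvl dir (vx oo up t i) : ℤ) : ℝ)|} := by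
        refine gf_mono ?_
        rintro t ⟨ht, i, h6, h7, h8⟩
        have h9 : r * a * 2 ^ k ≤ ‖JJ (vx oo up t i)‖ := by
          refine le_trans ?_ h8
          rw [mul_assoc]
          exact mul_le_mul_of_nonneg_left (hpow k n h1 h2).1 hr.le
        obtain ⟨dir, h10⟩ := NTF.exists_dir (by positivity) h9
        refine ⟨ht, dir, 0, i, Nat.zero_le _, h7, ?_, ?_⟩
        · rw [Nat.cast_zero, sub_zero]
          refine h6.trans ?_
          rw [div_mul_eq_mul_div, div_le_iff₀ (by linarith)]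
          have h11 : (n : ℝ) ≤ C1 * PW.mZ (2 ^ k) := h2.le.trans (hst k)
          calc ρ * n ≤ ρ * (C1 * PW.mZ (2 ^ k)) := mul_le_mul_of_nonneg_left h11 hρ.le
            _ = ρ * PW.mZ (2 ^ k) * C1 := by ring
        · have e0 : vx oo up t 0 = oo := rfl
          have e1 : lvl dir oo = 0 := by cases dir <;> decide
          rw [e0, e1, sub_zero]
          exact h10
    _ ≤ ENNReal.ofReal (e * cb) * nuX (fun k => PW.mZ (2 ^ k)) k := h3
    _ = ENNReal.ofReal e * (ENNReal.ofReal cb * nuX (fun k => PW.mZ (2 ^ k)) k) := by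
        rw [ENNReal.ofReal_mul he.le, mul_assoc]
    _ ≤ ENNReal.ofReal e * gf (SawN n) := mul_le_mul_right h5 _

/-- **no return near the start** -/
theorem ps {θ e : ℝ} (hθ : 0 < θ) (he : 0 < e) : ∃ c : ℝ, 0 < c ∧ ∃ n0 : ℕ, ∀ n : ℕ, n0 ≤ n →
    TOG.Pn n {t | ∃ j : ℕ, θ * n ≤ j ∧ j ≤ n ∧ ‖JJ (vx oo up t j)‖ ≤ c * (n : ℝ) ^ (3 / 4 : ℝ)} ≤ e := by
  obtain ⟨cb, κ, k1, hcb, hκ, hbig⟩ := EN.factsX_M.big
  obtain ⟨a, A, ha, hA, hpow⟩ := scale_pow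
  obtain ⟨cs, Cs, hcs, hsize⟩ := (NTSF.conclE_false NTSF.finE).1
  have hcsC : cs ≤ Cs := by
    have h1 := hsize 1 le_rfl
    rw [Nat.cast_one, Real.one_rpow, mul_one, mul_one] at h1
    exact h1.1.trans h1.2
  have hCs : 0 < Cs := by linarith
  have hL : EN.LowModX (fun k => PW.mZ (2 ^ k)) 1 := EN.lowModX_of mlowZ mupZ EN.extM EN.espw_M (by norm_num)
  obtain ⟨c1, hc1, hL⟩ := hL (e / 2 * cb) (by positivity)
  obtain ⟨k2, hL⟩ := hL (θ / 2) (by positivity)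
  -- the excursion
  obtain ⟨η, hη⟩ : ∃ η : ℝ, η = c1 * θ / (16 * A * Cs) := ⟨_, rfl⟩
  have hη0 : 0 < η := by rw [hη]; positivity
  obtain ⟨δ, n1, hδ, hlaw⟩ := lawSim_H humpX_M η (e / 2) hη0 (half_pos he)
  obtain ⟨n2, hn2⟩ := ex_scale (max k1 k2)
  obtain ⟨n3, hn3⟩ := exists_nat_ge (2 / θ)
  refine ⟨δ * cs / 2, by positivity, max (max n1 n2) (max n3 1), fun n hn => ?_⟩
  have b1 : n1 ≤ n := ((le_max_left _ _).trans (le_max_left _ _)).trans hn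
  have b2 : n2 ≤ n := ((le_max_right _ _).trans (le_max_left _ _)).trans hn
  have b3 : n3 ≤ n := ((le_max_left _ _).trans (le_max_right _ _)).trans hn
  have hn1 : 1 ≤ n := ((le_max_right _ _).trans (le_max_right _ _)).trans hn
  have hn0 : (0 : ℝ) < n := by exact_mod_cast hn1
  have hsz := NTSF.size_pos hn1
  obtain ⟨k, hk, h1, h2⟩ := hn2 n b2
  obtain ⟨p1, p2⟩ := hpow k n h1 h2
  obtain ⟨s1, s2⟩ := hsize n hn1
  have h2n : 2 ≤ θ * n := by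
    have h3 : 2 / θ ≤ n := hn3.trans (by exact_mod_cast b3)
    rwa [div_le_iff₀ hθ, mul_comm] at h3
  obtain ⟨B, hB⟩ : ∃ B : Set (List Bool), B = {t | ∃ i j : ℕ, i < j ∧ j ≤ n ∧ θ / 2 * n ≤ (j : ℝ) - i ∧
    ∀ (dir : Bool) (x : ℕ), i ≤ x → x ≤ j →
      |((lvl dir (vx oo up t x) - lvl dir (vx oo up t i) : ℤ) : ℝ)| ≤ c1 * 2 ^ k * (((j : ℝ) - i) / n) ^ (1 : ℝ)} := ⟨_, rfl⟩
  have hPB : TOG.Pn n B ≤ e / 2 := by
    refine pn_le hn1 (half_pos he).le ?_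
    have h3 := hL k n ((le_max_right _ _).trans hk) h1 h2
    have h4 := hbig k n ((le_max_left _ _).trans hk) h1 h2
    have h5 : ENNReal.ofReal cb * nuX (fun k => PW.mZ (2 ^ k)) k ≤ gf (SawN n) := h4.trans (gf_mono fun t ht => ht.1)
    rw [hB]
    refine h3.trans ?_
    rw [ENNReal.ofReal_mul (half_pos he).le, mul_assoc]
    exact mul_le_mul_right h5 _
  have hPP := pn_law hn1 (half_pos he).le (hlaw n b1)
  have hcov : ∀ t ∈ SawN n, t ∈ {t | ∃ j : ℕ, θ * n ≤ j ∧ j ≤ n ∧ ‖JJ (vx oo up t j)‖ ≤ δ * cs / 2 * (n : ℝ) ^ (3 / 4 : ℝ)} →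
      t ∈ B ∪ {t | Pool.Agent.NTS.Res.curve (NTF.sw n t) ∈ Pinch η δ} := by
    rintro t ht ⟨j, j1, j2, j3⟩
    by_cases hBt : t ∈ B
    · exact Or.inl hBt
    refine Or.inr ?_
    rw [hB] at hBt
    obtain ⟨q, hq⟩ : ∃ q : ℕ, q = ⌈θ / 2 * n⌉₊ := ⟨_, rfl⟩
    have q1 : θ / 2 * n ≤ q := by rw [hq]; exact Nat.le_ceil _
    have q2 : (q : ℝ) < θ / 2 * n + 1 := by rw [hq]; exact Nat.ceil_lt_add_one (by positivity)
    have q3 : q ≤ j := by
      have : (q : ℝ) < j + 1 := by linarith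
      have h3 : q < j + 1 := by exact_mod_cast this
      omega
    have q4 : 0 < q := by
      have h3 : (0 : ℝ) < q := lt_of_lt_of_le (by positivity) q1
      exact_mod_cast h3
    obtain ⟨x, hx1, hx2⟩ : ∃ x : ℕ, x ≤ q ∧ η * size n < ‖JJ (vx oo up t x)‖ := by
      by_contra hcon
      push Not at hcon
      refine hBt ⟨0, q, q4, by omega, by rw [Nat.cast_zero, sub_zero]; exact q1, fun dir x _ hxq => ?_⟩
      have e0 : vx oo up t 0 = oo := rfl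
      have e1 : lvl dir oo = 0 := by cases dir <;> decide
      rw [e0, e1, sub_zero, Nat.cast_zero, sub_zero, Real.rpow_one]
      refine (NTSF.lvl_le_norm dir _).trans ?_
      have e2 := hcon x hxq
      have e3 : θ / 2 ≤ (q : ℝ) / n := by
        rw [le_div_iff₀ hn0]
        exact q1
      calc 2 * ‖JJ (vx oo up t x)‖ ≤ 2 * (η * size n) := by linarith
        _ ≤ 2 * (η * (Cs * (A * 2 ^ k))) := by
            have : size n ≤ Cs * (A * 2 ^ k) := s2.trans (mul_le_mul_of_nonneg_left p2 hCs.le)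
            gcongr
        _ = c1 * 2 ^ k * (θ / 8) := by
            rw [hη]
            field_simp
            ring
        _ ≤ c1 * 2 ^ k * (θ / 2) := by
            have : θ / 8 ≤ θ / 2 := by linarith
            gcongr
        _ ≤ c1 * 2 ^ k * ((q : ℝ) / n) := by gcongr
    have hxj : x ≤ j := hx1.trans q3
    have hmem : ∀ a : ℕ, a ≤ n → ((a : ℝ) / n) ∈ Set.Icc (0 : ℝ) 1 := fun a ha =>
      ⟨by positivity, by rw [div_le_one hn0]; exact_mod_cast ha⟩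
    have hxn : x ≤ n := hxj.trans j2
    refine ⟨⟨((0 : ℕ) : ℝ) / n, hmem 0 (Nat.zero_le _)⟩, ⟨(x : ℝ) / n, hmem x hxn⟩, ⟨(j : ℝ) / n, hmem j j2⟩, ?_, ?_, ?_, ?_⟩
    · show ((0 : ℕ) : ℝ) / n ≤ (x : ℝ) / n
      rw [Nat.cast_zero, zero_div]
      positivity
    · show (x : ℝ) / n ≤ (j : ℝ) / n
      have : (x : ℝ) ≤ j := by exact_mod_cast hxj
      gcongr
    · rw [NTSF.curve_grid hn1 _ hxn _ rfl, NTSF.curve_grid hn1 _ (Nat.zero_le n) _ rfl, NTSF.pos_sw n t x hxn,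
        NTSF.pos_sw n t 0 (Nat.zero_le _), dist_eq_norm, ← sub_div, ← NTF.JJ_sub, norm_div, Complex.norm_real,
        Real.norm_of_nonneg hsz.le, lt_div_iff₀ hsz]
      have e0 : vx oo up t x - vx oo up t 0 = vx oo up t x := by
        have : vx oo up t 0 = oo := rfl
        rw [this]
        exact sub_zero _
      rw [e0]
      exact hx2
    · rw [NTSF.curve_grid hn1 _ j2 _ rfl, NTSF.curve_grid hn1 _ (Nat.zero_le n) _ rfl, NTSF.pos_sw n t j j2,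
        NTSF.pos_sw n t 0 (Nat.zero_le _), dist_eq_norm, ← sub_div, ← NTF.JJ_sub, norm_div, Complex.norm_real,
        Real.norm_of_nonneg hsz.le, div_lt_iff₀ hsz]
      have e0 : vx oo up t j - vx oo up t 0 = vx oo up t j := by
        have : vx oo up t 0 = oo := rfl
        rw [this]
        exact sub_zero _
      rw [e0]
      have hn34 : (0 : ℝ) < (n : ℝ) ^ (3 / 4 : ℝ) := Real.rpow_pos_of_pos hn0 _
      calc ‖JJ (vx oo up t j)‖ ≤ δ * cs / 2 * (n : ℝ) ^ (3 / 4 : ℝ) := j3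
        _ < δ * (cs * (n : ℝ) ^ (3 / 4 : ℝ)) := by
            have : 0 < δ * (cs * (n : ℝ) ^ (3 / 4 : ℝ)) := by positivity
            nlinarith
        _ ≤ δ * size n := mul_le_mul_of_nonneg_left s1 hδ.le
  have h3 : TOG.Pn n {t | ∃ j : ℕ, θ * n ≤ j ∧ j ≤ n ∧ ‖JJ (vx oo up t j)‖ ≤ δ * cs / 2 * (n : ℝ) ^ (3 / 4 : ℝ)} ≤
      TOG.Pn n (B ∪ {t | Pool.Agent.NTS.Res.curve (NTF.sw n t) ∈ Pinch η δ}) := by
    unfold TOG.Pn
    refine div_le_div_of_nonneg_right ?_ (Nat.cast_nonneg _)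
    have hf : ∀ C : Set (List Bool), {t | t ∈ SawN n ∧ t ∈ C}.Finite := fun C =>
      (List.finite_length_eq Bool n).subset fun t ht => ht.1.1
    have h4 : {t | t ∈ SawN n ∧ t ∈ {t | ∃ j : ℕ, θ * n ≤ j ∧ j ≤ n ∧ ‖JJ (vx oo up t j)‖ ≤ δ * cs / 2 * (n : ℝ) ^ (3 / 4 : ℝ)}} ⊆
        {t | t ∈ SawN n ∧ t ∈ B ∪ {t | Pool.Agent.NTS.Res.curve (NTF.sw n t) ∈ Pinch η δ}} :=
      fun t ht => ⟨ht.1, hcov t ht.1 ht.2⟩
    exact_mod_cast Set.ncard_le_ncard h4 (hf _)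
  exact h3.trans ((pn_union hn1 _ _).trans (by linarith))

end NQ

end TIP

end HexObs
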