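import Pool.Agent.IW.Bad
import Pool.Agent.IW.PS

/-!
IW: **the transfer**: an event of the first k steps that is rare for the uniform n-step walks with n of the order k is rare
for the n-step walks with every large n.
-/

set_option autoImplicit false

namespace HexObs

namespace TIP

open Finset TS SDN NTA NTW Nf

open scoped ENNReal

open NTF (JJ)

namespace NQ

/-- the mass of a class of words of the box from the proportions (helper69: mass_gen) -/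
def MassG : Prop := ∀ (J : ℕ) (e : ℝ), 0 < e → ∃ (e1 L e2 : ℝ) (b0 : ℕ), 0 < e1 ∧ 0 < L ∧ 0 < e2 ∧ ∀ b, b0 ≤ b →
  ∀ S : Set (List Bool), S ⊆ WL (b + J) → (∀ n : ℕ, e1 * (2 : ℝ) ^ (4 / 3 * (b : ℝ)) ≤ n →
    (n : ℝ) ≤ L * (2 : ℝ) ^ (4 / 3 * (b : ℝ)) → TOG.Pn n S ≤ e2) → gf S ≤ ENNReal.ofReal (e * Ub b) * Xb b ^ 2

/-- the class of the bad ends is small -/
theorem q_small (hM : MassG) {η e : ℝ} (m : ℕ) (hη : 0 < η) (he : 0 < e) : ∃ (e1 L e2 : ℝ) (b0 : ℕ), 0 < e1 ∧ 0 < L ∧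
    0 < e2 ∧ ∀ (b k : ℕ) (ρ : ℝ) (E : Set (List Bool)), b0 ≤ b → 0 < k → 0 ≤ ρ → 2 * (ρ + 1) < 2 ^ b →
      (∀ n : ℕ, e1 * (2 : ℝ) ^ (4 / 3 * (b : ℝ)) ≤ n → (n : ℝ) ≤ L * (2 : ℝ) ^ (4 / 3 * (b : ℝ)) →
        TOG.Pn n (BadE k ρ E) ≤ e2) →
      gf {Y | Y ∈ SA ∧ rev Y ∈ GT b η ∧ In (2 ^ (b + m)) Y ∧ Y ∈ {Y | (rev Y).drop 1 ∈ BadE k ρ E}} ≤
        ENNReal.ofReal (e * Ub b) * Xb b := by
  obtain ⟨C, lam, j0, hC, hlam, hT⟩ := tip_bad η hη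
  obtain ⟨D, hD, hup⟩ := EnsW.ref_up
  have hC0 : 0 < C := by linarith
  have hD0 : 0 < D := by linarith
  obtain ⟨j, hj1, hj⟩ : ∃ j : ℕ, 1 ≤ j ∧ C * D ^ (m + 3) * (lam ^ j)⁻¹ ≤ e / 8 := by
    have h1 : Filter.Tendsto (fun j : ℕ => C * D ^ (m + 3) * (lam⁻¹) ^ j) Filter.atTop (nhds (C * D ^ (m + 3) * 0)) :=
      (tendsto_pow_atTop_nhds_zero_of_lt_one (by positivity) (inv_lt_one_of_one_lt₀ hlam)).const_mul _
    rw [mul_zero] at h1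
    obtain ⟨j, hj⟩ := Filter.eventually_atTop.1 (h1.eventually (ge_mem_nhds (show 0 < e / 8 by positivity)))
    refine ⟨max j 1, le_max_right _ _, ?_⟩
    rw [← inv_pow]
    exact hj _ (le_max_left _ _)
  obtain ⟨e1, L, e2, b1, he1, hL, he2, hM⟩ := hM (m + 9) (e / (32 * C ^ j)) (by positivity)
  refine ⟨e1, L, e2, max b1 (j + j0), he1, hL, he2, fun b k ρ E hb hk hρ0 hρ hP => ?_⟩
  have hb1 : b1 ≤ b := (le_max_left _ _).trans hb
  have hb2 : j + j0 ≤ b := (le_max_right _ _).trans hb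
  have hU := Ub_pos b
  have h1 := rev_le (b := b) (D := 2 ^ (b + m)) (K := b + (m + 3)) (η := η)
    (Q := {Y | (rev Y).drop 1 ∈ BadE k ρ E}) (Q' := Bd k ρ E) (by
      have e : (2 : ℕ) ^ (b + (m + 3)) = 8 * 2 ^ (b + m) := by rw [show b + (m + 3) = b + m + 3 by ring, pow_add]; ring
      have : 1 ≤ 2 ^ (b + m) := Nat.one_le_two_pow
      omega) (fun Y h _ _ => Or.inr h) (fun Y h _ => Or.inl h)
  have h2 := hT b j (b + (m + 3)) k ρ E hj1 hb2 (by omega) hk hρ0 hρ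
  have h3 := bd_mass (b + (m + 3) + 3) k ρ E
  have h4 : gf (WL (b + (m + 3) + 3 + 3) ∩ BadE k ρ E) ≤ ENNReal.ofReal (e / (32 * C ^ j) * Ub b) * Xb b ^ 2 := by
    refine hM b hb1 _ ?_ fun n n1 n2 => ?_
    · intro t ht
      rw [show b + (m + 9) = b + (m + 3) + 3 + 3 by ring]
      exact ht.1
    · exact (Pn_mono fun t _ ht => ht.2).trans (hP n n1 n2)
  have h5 : gf ((WL (b + (m + 3)) ∩ Bd k ρ E) ∩ GT b η) * Xb b ≤ ENNReal.ofReal (e / 4 * Ub b) * Xb b * Xb b := by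
    refine h2.trans ?_
    have h6 : ENNReal.ofReal (C * (lam ^ j)⁻¹ * Ub (b + (m + 3))) * Xb (b + (m + 3)) ^ 2 ≤
        ENNReal.ofReal (e / 8 * Ub b) * Xb b ^ 2 := by
      rw [ENNReal.ofReal_mul (by positivity), mul_assoc]
      refine (mul_le_mul_right (hup b (m + 3)) _).trans ?_
      rw [← mul_assoc, ← mul_assoc, ← ENNReal.ofReal_mul (by positivity), ← ENNReal.ofReal_mul (by positivity)]
      refine mul_le_mul_left (ENNReal.ofReal_le_ofReal ?_) _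
      refine mul_le_mul_of_nonneg_right ?_ hU.le
      calc C * (lam ^ j)⁻¹ * D ^ (m + 3) = C * D ^ (m + 3) * (lam ^ j)⁻¹ := by ring
        _ ≤ e / 8 := hj
    have h7 : ENNReal.ofReal (C ^ j) * gf (WL (b + (m + 3) + 3) ∩ Bd k ρ E) ≤ ENNReal.ofReal (e / 8 * Ub b) * Xb b ^ 2 := by
      refine (mul_le_mul_right (h3.trans (mul_le_mul_right h4 _)) _).trans (le_of_eq ?_)
      rw [← mul_assoc, ← mul_assoc, show (4 : ℝ≥0∞) = ENNReal.ofReal 4 by simp, ← ENNReal.ofReal_mul (by positivity),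
        ← ENNReal.ofReal_mul (by positivity)]
      congr 2
      have : C ^ j ≠ 0 := by positivity
      field_simp
      norm_num
    refine (add_le_add h6 h7).trans (le_of_eq ?_)
    rw [← add_mul, ← ENNReal.ofReal_add (by positivity) (by positivity), sq, ← mul_assoc]
    congr 3
    ring
  have h8 := (ENNReal.mul_le_mul_iff_left (Xb_ne_zero b) (Xb_ne_top b)).1 h5
  have h9 : {L | L ∈ WL (b + (m + 3)) ∧ L ∈ GT b η ∧ L ∈ Bd k ρ E} ⊆ (WL (b + (m + 3)) ∩ Bd k ρ E) ∩ GT b η :=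
    fun L hL => ⟨⟨hL.1, hL.2.2⟩, hL.2.1⟩
  calc gf {Y | Y ∈ SA ∧ rev Y ∈ GT b η ∧ In (2 ^ (b + m)) Y ∧ Y ∈ {Y | (rev Y).drop 1 ∈ BadE k ρ E}}
      ≤ 4 * gf {L | L ∈ WL (b + (m + 3)) ∧ L ∈ GT b η ∧ L ∈ Bd k ρ E} := h1
    _ ≤ 4 * gf ((WL (b + (m + 3)) ∩ Bd k ρ E) ∩ GT b η) :=
        mul_le_mul_right (gf_mono h9) _
    _ ≤ 4 * (ENNReal.ofReal (e / 4 * Ub b) * Xb b) := mul_le_mul_right h8 _
    _ = _ := by
        rw [← mul_assoc, show (4 : ℝ≥0∞) = ENNReal.ofReal 4 by simp, ← ENNReal.ofReal_mul (by norm_num)]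
        congr 2
        ring

/-- the scale of a time -/
lemma ex_b {δ : ℝ} (hδ : 0 < δ) (b0 : ℕ) : ∃ k0 : ℕ, ∀ k : ℕ, k0 ≤ k → ∃ b : ℕ, b0 ≤ b ∧
    δ * (2 : ℝ) ^ (4 / 3 * (b : ℝ)) ≤ k ∧ (k : ℝ) ≤ 4 * δ * (2 : ℝ) ^ (4 / 3 * (b : ℝ)) := by
  classical
  obtain ⟨k0, hk0⟩ := exists_nat_ge (δ * (2 : ℝ) ^ (4 / 3 * (b0 : ℝ)))
  have hstep : ∀ b : ℕ, (2 : ℝ) ^ (4 / 3 * ((b + 1 : ℕ) : ℝ)) ≤ 4 * (2 : ℝ) ^ (4 / 3 * (b : ℝ)) := by
    intro b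
    have e1 : (4 / 3 * ((b + 1 : ℕ) : ℝ)) = 4 / 3 + 4 / 3 * (b : ℝ) := by push_cast; ring
    rw [e1, Real.rpow_add (by norm_num)]
    refine mul_le_mul_of_nonneg_right ?_ (by positivity)
    calc (2 : ℝ) ^ (4 / 3 : ℝ) ≤ (2 : ℝ) ^ (2 : ℝ) := Real.rpow_le_rpow_of_exponent_le (by norm_num) (by norm_num)
      _ = 4 := by norm_num
  refine ⟨k0, fun k hk => ?_⟩
  have hex : ∃ b : ℕ, b0 ≤ b ∧ (k : ℝ) < δ * (2 : ℝ) ^ (4 / 3 * ((b + 1 : ℕ) : ℝ)) := by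
    obtain ⟨j, hj⟩ := pow_unbounded_of_one_lt ((k : ℝ) / δ) (one_lt_two (α := ℝ))
    refine ⟨b0 + j, by omega, ?_⟩
    rw [div_lt_iff₀ hδ] at hj
    have h2 : (2 : ℝ) ^ j ≤ (2 : ℝ) ^ (4 / 3 * ((b0 + j + 1 : ℕ) : ℝ)) := by
      rw [← Real.rpow_natCast]
      refine Real.rpow_le_rpow_of_exponent_le (by norm_num) ?_
      push_cast
      have h3 : (0 : ℝ) ≤ b0 := Nat.cast_nonneg _
      have h4 : (0 : ℝ) ≤ j := Nat.cast_nonneg _
      linarith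
    calc (k : ℝ) < 2 ^ j * δ := hj
      _ ≤ δ * (2 : ℝ) ^ (4 / 3 * ((b0 + j + 1 : ℕ) : ℝ)) := by
          rw [mul_comm]
          exact mul_le_mul_of_nonneg_left h2 hδ.le
  obtain ⟨b, hb⟩ : ∃ b, b = Nat.find hex := ⟨_, rfl⟩
  have h1 := Nat.find_spec hex
  rw [← hb] at h1
  refine ⟨b, h1.1, ?_, ?_⟩
  · rcases Nat.eq_or_lt_of_le h1.1 with h2 | h2
    · rw [← h2]
      exact hk0.trans (by exact_mod_cast hk)
    · have h3 := Nat.find_min hex (m := b - 1) (by omega)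
      rw [show b - 1 + 1 = b by omega] at h3
      by_contra hc
      exact h3 ⟨by omega, not_le.1 hc⟩
  · refine h1.2.le.trans ?_
    have := mul_le_mul_of_nonneg_left (hstep b) hδ.le
    linarith

/-- **the transfer** -/
theorem transfer_of (hM : MassG) (hN : NEndQ) {ε : ℝ} (hε : 0 < ε) : ∃ (M1 M2 ε' C : ℝ) (k0 : ℕ), 1 ≤ M1 ∧ M1 ≤ M2 ∧
    0 < ε' ∧ 0 < C ∧ 1 ≤ k0 ∧ ∀ k : ℕ, k0 ≤ k → ∀ E : Set (List Bool),
      (∀ n : ℕ, M1 * k ≤ n → (n : ℝ) ≤ M2 * k → TOG.Pn n {t | t.take k ∈ E} ≤ ε') →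
      ∃ n0 : ℕ, ∀ n : ℕ, n0 ≤ n →
        TOG.Pn n {t | (∃ i, i ≤ k ∧ C * (k : ℝ) ^ (3 / 4 : ℝ) < ‖JJ (vx oo up t i)‖) ∨ t.take k ∈ E} ≤ ε := by
  obtain ⟨η, e, m, b1, hη, he, hN⟩ := hN ε hε
  obtain ⟨e1, L, e2, b2, he1, hL, he2, hq⟩ := q_small hM m hη he
  obtain ⟨θ0, hθ0, n1, hpf⟩ := pf (r := (L ^ (3 / 4 : ℝ))⁻¹ / 8) (e := e2 / 2) (by positivity) (half_pos he2)
  obtain ⟨θ, hθd⟩ : ∃ θ : ℝ, θ = min θ0 (min 1 (1 / (4 * L))) := ⟨_, rfl⟩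
  have hθ : 0 < θ := by
    rw [hθd]
    exact lt_min hθ0 (lt_min one_pos (by positivity))
  have hθ1 : θ ≤ θ0 := by rw [hθd]; exact min_le_left _ _
  have hθ2 : θ ≤ 1 := by rw [hθd]; exact (min_le_right _ _).trans (min_le_left _ _)
  obtain ⟨δ, hδd⟩ : ∃ δ : ℝ, δ = θ * e1 / 4 := ⟨_, rfl⟩
  have hδ : 0 < δ := by rw [hδd]; positivity
  -- a scale from which on the number of letters is large
  obtain ⟨b3, hb3⟩ : ∃ b3 : ℕ, ∀ b : ℕ, b3 ≤ b → (n1 : ℝ) + 1 ≤ e1 * (2 : ℝ) ^ (4 / 3 * (b : ℝ)) := by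
    obtain ⟨j, hj⟩ := pow_unbounded_of_one_lt (((n1 : ℝ) + 1) / e1) (one_lt_two (α := ℝ))
    refine ⟨j, fun b hb => ?_⟩
    rw [div_lt_iff₀ he1] at hj
    have h2 : (2 : ℝ) ^ j ≤ (2 : ℝ) ^ (4 / 3 * (b : ℝ)) := by
      rw [← Real.rpow_natCast]
      refine Real.rpow_le_rpow_of_exponent_le (by norm_num) ?_
      have h3 : (j : ℝ) ≤ b := by exact_mod_cast hb
      have h4 : (0 : ℝ) ≤ b := Nat.cast_nonneg _
      linarith
    nlinarith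
  obtain ⟨k0, hk0⟩ := ex_b hδ (max (max b1 b2) (max b3 3))
  refine ⟨1 / θ, max (1 / θ) (L / δ), e2 / 2, 1 / (4 * δ ^ (3 / 4 : ℝ)), max k0 1, ?_, le_max_left _ _, half_pos he2,
    by positivity, le_max_right _ _, fun k hk E hE => ?_⟩
  · rw [le_div_iff₀ hθ]
    linarith
  have hk1 : 1 ≤ k := (le_max_right _ _).trans hk
  have hkpos : (0 : ℝ) < k := by exact_mod_cast hk1
  obtain ⟨b, hb, hkb1, hkb2⟩ := hk0 k ((le_max_left _ _).trans hk)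
  have g1 : b1 ≤ b := ((le_max_left _ _).trans (le_max_left _ _)).trans hb
  have g2 : b2 ≤ b := ((le_max_right _ _).trans (le_max_left _ _)).trans hb
  have g3 : b3 ≤ b := ((le_max_left _ _).trans (le_max_right _ _)).trans hb
  have g4 : 3 ≤ b := ((le_max_right _ _).trans (le_max_right _ _)).trans hb
  obtain ⟨s, hs⟩ : ∃ s : ℝ, s = (2 : ℝ) ^ (4 / 3 * (b : ℝ)) := ⟨_, rfl⟩
  have hs0 : 0 < s := by rw [hs]; positivity
  have hs34 : s ^ (3 / 4 : ℝ) = 2 ^ b := by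
    rw [hs, ← Real.rpow_mul (by norm_num), show (4 / 3 * (b : ℝ)) * (3 / 4 : ℝ) = (b : ℝ) by ring, Real.rpow_natCast]
  rw [← hs] at hkb1 hkb2
  have h2b : (8 : ℝ) ≤ 2 ^ b := by
    calc (8 : ℝ) = 2 ^ 3 := by norm_num
      _ ≤ 2 ^ b := pow_le_pow_right₀ (by norm_num) g4
  -- the mass of the bad ends
  have hQ := hq b k (2 ^ b / 4) E g2 hk1 (by positivity) (by linarith) (fun n a1 a2 => ?_)
  · obtain ⟨n0, hn0⟩ := hN b g1
    refine ⟨max n0 (max k 1), fun n hn => ?_⟩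
    have hn1 : 0 < n := by
      have : 1 ≤ n := ((le_max_right _ _).trans (le_max_right _ _)).trans hn
      omega
    have hkn : k ≤ n := ((le_max_left _ _).trans (le_max_right _ _)).trans hn
    have h1 := hn0 n ((le_max_left _ _).trans hn) _ hQ
    rw [← Pool.Agent.IW.Pn_rvw hn1]
    refine (Pn_mono fun t ht hbad => ?_).trans h1
    intro hdec
    have h2 := dec_good hη (by linarith) hdec
    have hl : (Pool.Agent.IW.rvw t).length = n := (Pool.Agent.IW.rvw_mem hn1 ht).1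
    refine h2 ?_
    rcases hbad with ⟨i, i1, i2⟩ | hbad
    · refine Or.inl ⟨i, i1, by omega, lt_of_le_of_lt ?_ i2⟩
      -- the radius
      have h3 : (δ * s) ^ (3 / 4 : ℝ) ≤ (k : ℝ) ^ (3 / 4 : ℝ) := Real.rpow_le_rpow (by positivity) hkb1 (by norm_num)
      rw [Real.mul_rpow hδ.le hs0.le, hs34] at h3
      have h4 : 0 < δ ^ (3 / 4 : ℝ) := by positivity
      calc (2 : ℝ) ^ b / 4 = 1 / (4 * δ ^ (3 / 4 : ℝ)) * (δ ^ (3 / 4 : ℝ) * 2 ^ b) := by field_simp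
        _ ≤ 1 / (4 * δ ^ (3 / 4 : ℝ)) * (k : ℝ) ^ (3 / 4 : ℝ) := mul_le_mul_of_nonneg_left h3 (by positivity)
    · exact Or.inr ⟨by omega, hbad⟩
  · -- the proportion of the bad words
    rw [← hs] at a1 a2
    have hn1 : n1 ≤ n := by
      have h1 := hb3 b g3
      rw [← hs] at h1
      have h2 : (n1 : ℝ) < n := by linarith
      exact_mod_cast h2.le
    have hn0 : (0 : ℝ) < n := lt_of_lt_of_le (by positivity) a1
    have hkθ : (k : ℝ) ≤ θ * n := by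
      calc (k : ℝ) ≤ 4 * δ * s := hkb2
        _ = θ * (e1 * s) := by rw [hδd]; ring
        _ ≤ θ * n := mul_le_mul_of_nonneg_left a1 hθ.le
    have hkn : k ≤ n := by
      have : (k : ℝ) ≤ n := hkθ.trans (by nlinarith)
      exact_mod_cast this
    have hE1 := hE n (by
      rw [div_mul_eq_mul_div, one_mul, div_le_iff₀ hθ]
      linarith) (by
      refine a2.trans ?_
      have h1 : L * s ≤ L / δ * k := by
        rw [div_mul_eq_mul_div, le_div_iff₀ hδ]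
        nlinarith
      exact h1.trans (mul_le_mul_of_nonneg_right (le_max_right _ _) hkpos.le))
    have hF := hpf n hn1
    have hcov : TOG.Pn n (BadE k (2 ^ b / 4) E) ≤ TOG.Pn n ({t | ∃ i : ℕ, (i : ℝ) ≤ θ0 * n ∧ i ≤ n ∧
        (L ^ (3 / 4 : ℝ))⁻¹ / 8 * (n : ℝ) ^ (3 / 4 : ℝ) ≤ ‖JJ (vx oo up t i)‖} ∪ {t | t.take k ∈ E}) := by
      refine Pn_mono fun t ht hbad => ?_
      rcases hbad with ⟨i, i1, i2, i3⟩ | ⟨-, hbad⟩
      · refine Or.inl ⟨i, ?_, by omega, ?_⟩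
        · have h1 : (i : ℝ) ≤ k := by exact_mod_cast i1
          have h2 : θ * n ≤ θ0 * n := mul_le_mul_of_nonneg_right hθ1 hn0.le
          linarith
        · have h1 : (n : ℝ) ^ (3 / 4 : ℝ) ≤ L ^ (3 / 4 : ℝ) * 2 ^ b := by
            have := Real.rpow_le_rpow hn0.le a2 (show (0 : ℝ) ≤ 3 / 4 by norm_num)
            rwa [Real.mul_rpow hL.le hs0.le, hs34] at this
          have hL0 : 0 < L ^ (3 / 4 : ℝ) := by positivity
          have h2 : (L ^ (3 / 4 : ℝ))⁻¹ / 8 * (n : ℝ) ^ (3 / 4 : ℝ) ≤ 2 ^ b / 8 := by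
            calc (L ^ (3 / 4 : ℝ))⁻¹ / 8 * (n : ℝ) ^ (3 / 4 : ℝ) ≤ (L ^ (3 / 4 : ℝ))⁻¹ / 8 * (L ^ (3 / 4 : ℝ) * 2 ^ b) :=
                  mul_le_mul_of_nonneg_left h1 (by positivity)
              _ = 2 ^ b / 8 := by field_simp
          have h3 : (0 : ℝ) < 2 ^ b := by positivity
          linarith
      · exact Or.inr hbad
    exact hcov.trans ((Pn_union n _ _).trans (by linarith))

end NQ

end TIP

end HexObs
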