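import Pool.Agent.IW.Rev

/-!
IW: the final statement (existence of the infinite self-avoiding walk on the hexagonal lattice, ratio limit) from the
word level: `TipLim` (or `TipEnd`), `TipFree`, `TOG.Ratio2`.
-/

set_option autoImplicit false

open MeasureTheory Filter Topology
open scoped Classical

namespace Pool.Agent.IW

open Res

theorem final (h : TipLim) (hF : TipFree) (hR : HexObs.TOG.Ratio2) :
    (∃ P : Measure (ℕ → Fin 3), IsProbabilityMeasure P ∧ (∀ᵐ w ∂P, Function.Injective (ipos w)) ∧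
      ∀ (η : ℕ → Fin 3) (m : ℕ), Tendsto (fun n => begins n m η) atTop (𝓝 (P.real {w | ∀ i, i < m → w i = η i}))) ∧
    Tendsto (fun n => ((saw (n + 1)).card : ℝ) / ((saw n).card : ℝ)) atTop (𝓝 (Real.sqrt (2 + Real.sqrt 2))) :=
  ⟨exists_law (fun n => NTSF.saw_nonempty n) (begins_lim h), ratio_lim hF hR⟩

theorem final_end (h : TipEnd) (hF : TipFree) (hR : HexObs.TOG.Ratio2) :
    (∃ P : Measure (ℕ → Fin 3), IsProbabilityMeasure P ∧ (∀ᵐ w ∂P, Function.Injective (ipos w)) ∧
      ∀ (η : ℕ → Fin 3) (m : ℕ), Tendsto (fun n => begins n m η) atTop (𝓝 (P.real {w | ∀ i, i < m → w i = η i}))) ∧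
    Tendsto (fun n => ((saw (n + 1)).card : ℝ) / ((saw n).card : ℝ)) atTop (𝓝 (Real.sqrt (2 + Real.sqrt 2))) :=
  final (tipLim_of h) hF hR

end Pool.Agent.IW
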