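import Pool.Agent.IW.Win
import Pool.Agent.TIP.TipOf

/-!
IW: the number of the walks against mu ^ k is at most a power of k (helper11).
-/

set_option autoImplicit false

namespace HexObs

namespace TIP

open Finset TS SDN NTW NTA

open scoped ENNReal

namespace NQ

/-- the number of the words against mu ^ n -/
theorem cS_poly : ∃ (C : ℝ) (a : ℕ), 0 < C ∧ ∀ n : ℕ, 1 ≤ n → (cS n : ℝ) * xc ^ n ≤ C * (n : ℝ) ^ a := by
  obtain ⟨C0, k0, hC0, hall⟩ := EN.factsX_M.all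
  obtain ⟨D, hD, hX⟩ := Xb_pow
  obtain ⟨a1, A1, ha1, hA1, hpow⟩ := scale_pow
  obtain ⟨n0, hn0⟩ := ex_scale k0
  obtain ⟨a, ha⟩ := pow_unbounded_of_one_lt (2 * D ^ 2) (one_lt_two (α := ℝ))
  obtain ⟨X, hXd⟩ : ∃ X : ℝ, X = (Xb 0).toReal := ⟨_, rfl⟩
  have hX0 : Xb 0 = ENNReal.ofReal X := by rw [hXd, ENNReal.ofReal_toReal (Xb_ne_top 0)]
  have hXn : 0 ≤ X := by rw [hXd]; exact ENNReal.toReal_nonneg
  have hm0 : 0 < PW.mZ (2 ^ 0) := PW.mZ_pos Nat.one_le_two_pow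
  have hU0 := Ub_pos 0
  obtain ⟨M, hMd⟩ : ∃ M : ℝ, M = C0 * (Ub 0 / PW.mZ (2 ^ 0)) * X ^ 2 := ⟨_, rfl⟩
  have hM0 : 0 ≤ M := by rw [hMd]; positivity
  -- the small numbers
  obtain ⟨S, hS⟩ : ∃ S : ℝ, S = ∑ j ∈ range n0, (cS j : ℝ) * xc ^ j := ⟨_, rfl⟩
  have hSn : 0 ≤ S := by
    rw [hS]
    exact sum_nonneg fun j _ => mul_nonneg (Nat.cast_nonneg _) (pow_nonneg xc_pos.le _)
  refine ⟨M * (1 / a1) ^ a + S + 1, a, by positivity, fun n hn => ?_⟩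
  have hn1 : (1 : ℝ) ≤ n := by exact_mod_cast hn
  have hna : (1 : ℝ) ≤ (n : ℝ) ^ a := one_le_pow₀ hn1
  rcases lt_or_ge n n0 with h | h
  · have h1 : (cS n : ℝ) * xc ^ n ≤ S := by
      rw [hS]
      exact single_le_sum (f := fun j => (cS j : ℝ) * xc ^ j)
        (fun j _ => mul_nonneg (Nat.cast_nonneg _) (pow_nonneg xc_pos.le _)) (mem_range.2 h)
    have h2 : 0 ≤ M * (1 / a1) ^ a := by positivity
    nlinarith
  · obtain ⟨k, hk, s1, s2⟩ := hn0 n h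
    obtain ⟨hp, -⟩ := hpow k n s1 s2
    have h1 := hall k n hk s1 s2
    rw [NTF.gf_card (n := n) (B := SawN n) (fun t ht => ht.1)] at h1
    have h2 : nuX (fun k => PW.mZ (2 ^ k)) k ≤ ENNReal.ofReal ((Ub 0 / PW.mZ (2 ^ 0)) * X ^ 2 * (2 * D ^ 2) ^ k) := by
      unfold nuX
      have h3 : Ub k / PW.mZ (2 ^ k) ≤ Ub 0 / PW.mZ (2 ^ 0) * 2 ^ k := by
        have h4 := Ub_steps 0 k
        rw [zero_add] at h4
        have h5 : PW.mZ (2 ^ 0) ≤ PW.mZ (2 ^ k) := PW.mZ_mono (Nat.pow_le_pow_right (by norm_num) (Nat.zero_le k))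
        calc Ub k / PW.mZ (2 ^ k) ≤ (2 ^ k * Ub 0) / PW.mZ (2 ^ 0) := by gcongr
          _ = Ub 0 / PW.mZ (2 ^ 0) * 2 ^ k := by ring
      have h6 : Xb k ≤ ENNReal.ofReal (D ^ k * X) := by
        have h7 := hX 0 k
        rw [zero_add, hX0, ← ENNReal.ofReal_mul (by positivity)] at h7
        exact h7
      have h8 : Xb k ^ 2 ≤ ENNReal.ofReal ((D ^ k * X) ^ 2) := by
        rw [ENNReal.ofReal_pow (by positivity)]
        exact pow_le_pow_left' h6 2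
      calc ENNReal.ofReal (Ub k / PW.mZ (2 ^ k)) * Xb k ^ 2
          ≤ ENNReal.ofReal (Ub 0 / PW.mZ (2 ^ 0) * 2 ^ k) * ENNReal.ofReal ((D ^ k * X) ^ 2) :=
            mul_le_mul' (ENNReal.ofReal_le_ofReal h3) h8
        _ = ENNReal.ofReal (Ub 0 / PW.mZ (2 ^ 0) * 2 ^ k * (D ^ k * X) ^ 2) := (ENNReal.ofReal_mul (by positivity)).symm
        _ = _ := by
            congr 1
            rw [mul_pow, mul_pow, ← pow_mul, ← pow_mul, mul_comm k 2]
            ring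
    have h3 : ENNReal.ofReal ((cS n : ℝ) * xc ^ n) ≤ ENNReal.ofReal (M * (2 * D ^ 2) ^ k) := by
      have e1 : ENNReal.ofReal ((cS n : ℝ) * xc ^ n) = ((SawN n).ncard : ℝ≥0∞) * ENNReal.ofReal (xc ^ n) := by
        rw [ENNReal.ofReal_mul (Nat.cast_nonneg _), ENNReal.ofReal_natCast]
        rfl
      rw [e1]
      refine (h1.trans (mul_le_mul_right h2 _)).trans (le_of_eq ?_)
      rw [← ENNReal.ofReal_mul hC0.le]
      congr 1
      rw [hMd]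
      ring
    have h4 := (ENNReal.ofReal_le_ofReal_iff (by positivity)).1 h3
    have h5 : (2 * D ^ 2) ^ k ≤ (1 / a1) ^ a * (n : ℝ) ^ a := by
      have h6 : (2 : ℝ) ^ k ≤ 1 / a1 * n := by
        have h7 : (n : ℝ) ^ (3 / 4 : ℝ) ≤ n := by
          calc (n : ℝ) ^ (3 / 4 : ℝ) ≤ (n : ℝ) ^ (1 : ℝ) := Real.rpow_le_rpow_of_exponent_le hn1 (by norm_num)
            _ = n := Real.rpow_one _
        rw [one_div, inv_mul_eq_div, le_div_iff₀ ha1, mul_comm]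
        exact hp.trans h7
      calc (2 * D ^ 2) ^ k ≤ (2 ^ a) ^ k := pow_le_pow_left₀ (by positivity) ha.le k
        _ = ((2 : ℝ) ^ k) ^ a := by rw [← pow_mul, ← pow_mul, mul_comm]
        _ ≤ (1 / a1 * n) ^ a := pow_le_pow_left₀ (by positivity) h6 a
        _ = _ := mul_pow _ _ _
    have h6 := mul_le_mul_of_nonneg_left h5 hM0
    have h7 : 0 ≤ (S + 1) * (n : ℝ) ^ a := by positivity
    calc (cS n : ℝ) * xc ^ n ≤ M * (2 * D ^ 2) ^ k := h4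
      _ ≤ M * ((1 / a1) ^ a * (n : ℝ) ^ a) := h6
      _ ≤ M * ((1 / a1) ^ a * (n : ℝ) ^ a) + (S + 1) * (n : ℝ) ^ a := le_add_of_nonneg_right h7
      _ = _ := by ring

end NQ

end TIP

end HexObs

namespace Pool.Agent.IW

open Res

open HexObs (cS xc)

/-- **the number of the walks against mu ^ k** -/
theorem Zk_poly : ∃ (C : ℝ) (a : ℕ), 0 < C ∧ ∀ k : ℕ, Zk k ≤ C * ((k : ℝ) + 1) ^ a := by
  obtain ⟨C, a, hC, h⟩ := HexObs.TIP.NQ.cS_poly
  refine ⟨3 / 2 * C + Zk 0, a, by have := Zk_pos 0; positivity, fun k => ?_⟩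
  have h1 : (1 : ℝ) ≤ ((k : ℝ) + 1) ^ a := one_le_pow₀ (by have : (0 : ℝ) ≤ k := Nat.cast_nonneg _; linarith)
  rcases Nat.eq_zero_or_pos k with hk | hk
  · rw [hk] at h1 ⊢
    have h2 := Zk_pos 0
    have h3 : 0 ≤ 3 / 2 * C := by positivity
    calc Zk 0 = Zk 0 * 1 := (mul_one _).symm
      _ ≤ (3 / 2 * C + Zk 0) * (((0 : ℕ) : ℝ) + 1) ^ a := mul_le_mul (by linarith) h1 zero_le_one (by linarith)
  · have h2 := card_saw_eq hk
    have h3 : Zk k = 3 / 2 * ((cS k : ℝ) * xc ^ k) := by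
      unfold Zk
      rw [← xc_eq, one_div, inv_inv]
      have : ((saw k).card : ℝ) = 3 / 2 * (cS k : ℝ) := by linarith
      rw [this]
      ring
    rw [h3]
    have h4 := h k hk
    have h5 : (k : ℝ) ^ a ≤ ((k : ℝ) + 1) ^ a := pow_le_pow_left₀ (Nat.cast_nonneg _) (by linarith) a
    have h6 := Zk_pos 0
    have h7 : C * (k : ℝ) ^ a ≤ C * ((k : ℝ) + 1) ^ a := mul_le_mul_of_nonneg_left h5 hC.le
    nlinarith

end Pool.Agent.IW
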