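import Pool.Agent.TIP.NgA
import Pool.Agent.TIP.NfM
import Pool.Agent.TIP.EnsW
import Pool.Agent.NTA.TbM

/-!
IW: the Boltzmann mass of a class of walks of the box from its probabilities at exact lengths of the scale of the box
(helper69, literal of helper11).

* `MassG.cum`: the walks with less than `m k` letters have the mass at most `D U_k X_k²`;
* **`mass_gen_of`**: if a class of walks of the box `2 ^ (b + J)` is unlikely at all lengths between `e1 2 ^ (4 b / 3)` and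
  `L 2 ^ (4 b / 3)`, its mass is at most `e U_b X_b²`.
-/

set_option autoImplicit false

namespace HexObs

namespace TIP

open Finset TS SDN HexObs.SIM NTA NTW

open scoped ENNReal

namespace MassG

lemma gfE : gf (∅ : Set (List Bool)) = 0 := by
  unfold gf
  simp

lemma mZ_pos' (k : ℕ) : 0 < PW.mZ (2 ^ k) := mlow_M.pos k

lemma mZ_mono' {i k : ℕ} (h : i ≤ k) : PW.mZ (2 ^ i) ≤ PW.mZ (2 ^ k) :=
  PW.mZ_mono (Nat.pow_le_pow_right (by norm_num) h)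

/-- the walks with m i ≤ |t| < m (i + 1) -/
lemma layer : ∃ (D : ℝ) (k0 : ℕ), 0 < D ∧ ∀ i, k0 ≤ i →
    gf {t | t ∈ SA ∧ PW.mZ (2 ^ i) ≤ t.length ∧ (t.length : ℝ) < PW.mZ (2 ^ (i + 1))} ≤
      ENNReal.ofReal (D * Ub i) * Xb i ^ 2 := by
  obtain ⟨C, k0, hC, hall⟩ := EN.factsX_M.all
  obtain ⟨Cu, hCu, hup⟩ := mup_M
  have h00 := mZ_pos' 0
  refine ⟨C * (Cu + 1 / PW.mZ (2 ^ 0)), k0, by positivity, fun i hi => ?_⟩
  have hm := mZ_pos' i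
  have hU := Ub_pos i
  obtain ⟨N, hN⟩ : ∃ N, N = ⌈PW.mZ (2 ^ (i + 1))⌉₊ := ⟨_, rfl⟩
  rw [NTF.gf_lengths]
  have h1 : ∀ n : ℕ, gf {t | t ∈ {t | t ∈ SA ∧ PW.mZ (2 ^ i) ≤ t.length ∧ (t.length : ℝ) < PW.mZ (2 ^ (i + 1))} ∧
      t.length = n} ≤ if n ∈ range N then ENNReal.ofReal C * nuX (fun k => PW.mZ (2 ^ k)) i else 0 := by
    intro n
    by_cases hn : PW.mZ (2 ^ i) ≤ n ∧ (n : ℝ) < PW.mZ (2 ^ (i + 1))
    · have h2 : n < N := by
        rw [hN]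
        exact Nat.lt_ceil.2 hn.2
      rw [if_pos (mem_range.2 h2)]
      refine (gf_mono ?_).trans (hall i n hi hn.1 hn.2)
      rintro t ⟨ht, hl⟩
      exact ⟨hl, ht.1⟩
    · have h2 : {t | t ∈ {t | t ∈ SA ∧ PW.mZ (2 ^ i) ≤ t.length ∧ (t.length : ℝ) < PW.mZ (2 ^ (i + 1))} ∧
          t.length = n} = (∅ : Set (List Bool)) := by
        ext t
        simp only [Set.mem_ofPred_eq, Set.mem_empty_iff_false, iff_false]
        rintro ⟨ht, hl⟩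
        rw [hl] at ht
        exact hn ht.2
      rw [h2, gfE]
      exact zero_le
  refine (ENNReal.tsum_le_tsum h1).trans ?_
  rw [tsum_eq_sum (s := range N) (fun n hn => if_neg hn), sum_congr rfl (fun n hn => if_pos hn), sum_const, card_range,
    nsmul_eq_mul]
  unfold nuX
  have h3 : (N : ℝ) ≤ (Cu + 1 / PW.mZ (2 ^ 0)) * PW.mZ (2 ^ i) := by
    have h4 : (N : ℝ) ≤ PW.mZ (2 ^ (i + 1)) + 1 := by
      rw [hN]
      exact (Nat.ceil_lt_add_one (mZ_pos' _).le).le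
    have h5 := hup i
    have h6 : (1 : ℝ) ≤ 1 / PW.mZ (2 ^ 0) * PW.mZ (2 ^ i) := by
      rw [one_div, inv_mul_eq_div, one_le_div h00]
      exact mZ_mono' (Nat.zero_le i)
    nlinarith
  have h7 : (N : ℝ≥0∞) * (ENNReal.ofReal C * ENNReal.ofReal (Ub i / PW.mZ (2 ^ i))) ≤
      ENNReal.ofReal (C * (Cu + 1 / PW.mZ (2 ^ 0)) * Ub i) := by
    rw [← ENNReal.ofReal_natCast, ← ENNReal.ofReal_mul hC.le, ← ENNReal.ofReal_mul (Nat.cast_nonneg N)]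
    refine ENNReal.ofReal_le_ofReal ?_
    have h8 : (N : ℝ) * (C * (Ub i / PW.mZ (2 ^ i))) = N / PW.mZ (2 ^ i) * (C * Ub i) := by
      field_simp
    rw [h8]
    have h9 : (N : ℝ) / PW.mZ (2 ^ i) ≤ Cu + 1 / PW.mZ (2 ^ 0) := by
      rw [div_le_iff₀ hm]
      exact h3
    calc (N : ℝ) / PW.mZ (2 ^ i) * (C * Ub i) ≤ (Cu + 1 / PW.mZ (2 ^ 0)) * (C * Ub i) :=
          mul_le_mul_of_nonneg_right h9 (by positivity)
      _ = _ := by ring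
  calc (N : ℝ≥0∞) * (ENNReal.ofReal C * (ENNReal.ofReal (Ub i / PW.mZ (2 ^ i)) * Xb i ^ 2))
      = (N : ℝ≥0∞) * (ENNReal.ofReal C * ENNReal.ofReal (Ub i / PW.mZ (2 ^ i))) * Xb i ^ 2 := by ring
    _ ≤ _ := mul_le_mul' h7 le_rfl

/-- the sum of the Ub -/
lemma sum_Ub : ∃ D : ℝ, 0 < D ∧ ∀ k j : ℕ, ∑ i ∈ range j, Ub (k + i) ≤ D * Ub (k + j) := by
  have hk := kap0_pos
  obtain ⟨q, hq⟩ : ∃ q : ℝ, q = (2 : ℝ) ^ (-kap0) := ⟨_, rfl⟩
  have hq0 : 0 < q := by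
    rw [hq]
    positivity
  have hq1 : q < 1 := by
    rw [hq]
    exact Real.rpow_lt_one_of_one_lt_of_neg (by norm_num) (by linarith)
  refine ⟨2 / (1 - q), by
    have : 0 < 1 - q := by linarith
    positivity, fun k j => ?_⟩
  have h1 : ∀ i ∈ range j, Ub (k + i) ≤ 2 * q ^ (j - i) * Ub (k + j) := by
    intro i hi
    rw [mem_range] at hi
    have h2 := GB.Ub_ratio_down (show k + i ≤ k + j by omega)
    rw [div_le_iff₀ (Ub_pos _)] at h2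
    have h3 : (2 : ℝ) ^ (-(kap0 * (((k + j : ℕ) : ℝ) - ((k + i : ℕ) : ℝ)))) = q ^ (j - i) := by
      rw [hq, ← Real.rpow_natCast, ← Real.rpow_mul (by norm_num), Nat.cast_sub hi.le]
      congr 1
      push_cast
      ring
    rwa [h3] at h2
  refine (sum_le_sum h1).trans ?_
  rw [← sum_mul, ← mul_sum]
  have h4 : ∑ i ∈ range j, q ^ (j - i) ≤ 1 / (1 - q) := by
    have h5 : ∑ i ∈ range j, q ^ (j - i) = ∑ i ∈ range j, q ^ (i + 1) := by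
      rw [← sum_range_reflect]
      refine sum_congr rfl fun i hi => ?_
      rw [mem_range] at hi
      congr 1
      omega
    rw [h5]
    have h6 : ∑ i ∈ range j, q ^ (i + 1) ≤ ∑ i ∈ range j, q ^ i := sum_le_sum fun i _ =>
      pow_le_pow_of_le_one hq0.le hq1.le (Nat.le_succ i)
    refine h6.trans ?_
    rw [one_div]
    have h7 := geom_sum_mul_neg q j
    have h8 : 0 < 1 - q := by linarith
    rw [← one_div, le_div_iff₀ h8, h7]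
    have := pow_pos hq0 j
    linarith
  have hU := Ub_pos (k + j)
  calc 2 * (∑ i ∈ range j, q ^ (j - i)) * Ub (k + j) ≤ 2 * (1 / (1 - q)) * Ub (k + j) := by gcongr
    _ = _ := by ring

/-- short walks have a finite mass -/
lemma short_fin (x : ℝ) : gf {t | t ∈ SA ∧ (t.length : ℝ) < x} ≠ ⊤ := by
  obtain ⟨N, hN⟩ : ∃ N, N = ⌈x⌉₊ := ⟨_, rfl⟩
  rw [NTF.gf_lengths]
  have h1 : ∀ n : ℕ, gf {t | t ∈ {t | t ∈ SA ∧ (t.length : ℝ) < x} ∧ t.length = n} ≤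
      if n ∈ range N then gf (SawN n) else 0 := by
    intro n
    by_cases hn : n < N
    · rw [if_pos (mem_range.2 hn)]
      refine gf_mono ?_
      rintro t ⟨ht, hl⟩
      exact ⟨hl, ht.1⟩
    · have h2 : {t | t ∈ {t | t ∈ SA ∧ (t.length : ℝ) < x} ∧ t.length = n} = (∅ : Set (List Bool)) := by
        ext t
        simp only [Set.mem_ofPred_eq, Set.mem_empty_iff_false, iff_false]
        rintro ⟨ht, hl⟩
        rw [hl] at ht
        rw [hN] at hn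
        exact hn (Nat.lt_ceil.2 ht.2)
      rw [h2, gfE]
      exact zero_le
  refine ne_top_of_le_ne_top ?_ (ENNReal.tsum_le_tsum h1)
  rw [tsum_eq_sum (s := range N) (fun n hn => if_neg hn)]
  refine (ENNReal.sum_lt_top.2 fun n hn => ?_).ne
  rw [if_pos hn]
  exact lt_top_iff_ne_top.2 (NgA.saw_ne n).2

/-- **the walks with less than m k letters** -/
lemma cum : ∃ D : ℝ, 0 < D ∧ ∀ k : ℕ, gf {t | t ∈ SA ∧ (t.length : ℝ) < PW.mZ (2 ^ k)} ≤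
    ENNReal.ofReal (D * Ub k) * Xb k ^ 2 := by
  obtain ⟨D1, k0, hD1, hlay⟩ := layer
  obtain ⟨D2, hD2, hsum⟩ := sum_Ub
  obtain ⟨G0, hG0⟩ : ∃ G0, G0 = gf {t | t ∈ SA ∧ (t.length : ℝ) < PW.mZ (2 ^ k0)} := ⟨_, rfl⟩
  have hG0f : G0 ≠ ⊤ := by
    rw [hG0]
    exact short_fin _
  have hX0 : Xb 0 ^ 2 ≠ 0 := pow_ne_zero 2 (Xb_ne_zero 0)
  have hX1 : Xb 0 ^ 2 ≠ ⊤ := ENNReal.pow_ne_top (Xb_ne_top 0)
  have hU0 := Ub_pos 0
  obtain ⟨g, hg, hgG⟩ : ∃ g : ℝ, 0 ≤ g ∧ G0 ≤ ENNReal.ofReal (g * Ub 0) * Xb 0 ^ 2 := by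
    refine ⟨(G0 / (ENNReal.ofReal (Ub 0) * Xb 0 ^ 2)).toReal, ENNReal.toReal_nonneg, ?_⟩
    have h1 : ENNReal.ofReal (Ub 0) * Xb 0 ^ 2 ≠ 0 := mul_ne_zero (by
      rw [Ne, ENNReal.ofReal_eq_zero, not_le]
      exact hU0) hX0
    have h2 : ENNReal.ofReal (Ub 0) * Xb 0 ^ 2 ≠ ⊤ := ENNReal.mul_ne_top ENNReal.ofReal_ne_top hX1
    rw [ENNReal.ofReal_mul ENNReal.toReal_nonneg, ENNReal.ofReal_toReal (ENNReal.div_ne_top hG0f h1), mul_assoc,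
      ENNReal.div_mul_cancel h1 h2]
  have hbase : ∀ k, G0 ≤ ENNReal.ofReal (g * Ub k) * Xb k ^ 2 := fun k => hgG.trans (mul_le_mul'
    (ENNReal.ofReal_le_ofReal (mul_le_mul_of_nonneg_left (Ub_mono (Nat.zero_le k)) hg))
    (pow_le_pow_left' (Xb_mono (Nat.zero_le k)) 2))
  refine ⟨g + D1 * D2, by positivity, fun k => ?_⟩
  rcases le_or_gt k k0 with hk | hk
  · have h1 : gf {t | t ∈ SA ∧ (t.length : ℝ) < PW.mZ (2 ^ k)} ≤ G0 := by
      rw [hG0]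
      refine gf_mono ?_
      rintro t ⟨h1, h2⟩
      exact ⟨h1, h2.trans_le (mZ_mono' hk)⟩
    refine h1.trans ((hbase k).trans (mul_le_mul' (ENNReal.ofReal_le_ofReal ?_) le_rfl))
    have hU := Ub_pos k
    have : 0 ≤ D1 * D2 * Ub k := by positivity
    nlinarith
  obtain ⟨j, rfl⟩ : ∃ j, k = k0 + j := ⟨k - k0, by omega⟩
  have hind : ∀ j, gf {t | t ∈ SA ∧ (t.length : ℝ) < PW.mZ (2 ^ (k0 + j))} ≤
      G0 + ∑ i ∈ range j, ENNReal.ofReal (D1 * Ub (k0 + i)) * Xb (k0 + i) ^ 2 := by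
    intro j
    induction j with
    | zero =>
      rw [sum_range_zero, add_zero, add_zero, hG0]
    | succ j ih =>
      have hsub : {t | t ∈ SA ∧ (t.length : ℝ) < PW.mZ (2 ^ (k0 + (j + 1)))} ⊆
          {t | t ∈ SA ∧ (t.length : ℝ) < PW.mZ (2 ^ (k0 + j))} ∪
          {t | t ∈ SA ∧ PW.mZ (2 ^ (k0 + j)) ≤ t.length ∧ (t.length : ℝ) < PW.mZ (2 ^ (k0 + j + 1))} := by
        rintro t ⟨h1, h2⟩
        rcases lt_or_ge (t.length : ℝ) (PW.mZ (2 ^ (k0 + j))) with h3 | h3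
        · exact Or.inl ⟨h1, h3⟩
        · exact Or.inr ⟨h1, h3, h2⟩
      have h4 := add_le_add ih (hlay (k0 + j) (by omega))
      refine ((gf_mono hsub).trans ((gf_union_le _ _).trans h4)).trans (le_of_eq ?_)
      rw [sum_range_succ, add_assoc]
  refine (hind j).trans ?_
  have h2 : ∑ i ∈ range j, ENNReal.ofReal (D1 * Ub (k0 + i)) * Xb (k0 + i) ^ 2 ≤
      ENNReal.ofReal (D1 * D2 * Ub (k0 + j)) * Xb (k0 + j) ^ 2 := by
    have h3 : ∑ i ∈ range j, ENNReal.ofReal (D1 * Ub (k0 + i)) * Xb (k0 + i) ^ 2 ≤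
        (∑ i ∈ range j, ENNReal.ofReal (D1 * Ub (k0 + i))) * Xb (k0 + j) ^ 2 := by
      rw [sum_mul]
      refine sum_le_sum fun i hi => mul_le_mul' le_rfl (pow_le_pow_left' (Xb_mono ?_) 2)
      rw [mem_range] at hi
      omega
    refine h3.trans (mul_le_mul' ?_ le_rfl)
    rw [← ENNReal.ofReal_sum_of_nonneg fun i _ => by
      have := Ub_pos (k0 + i)
      positivity]
    refine ENNReal.ofReal_le_ofReal ?_
    rw [← mul_sum, mul_assoc]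
    exact mul_le_mul_of_nonneg_left (hsum k0 j) hD1.le
  have hU := Ub_pos (k0 + j)
  calc G0 + ∑ i ∈ range j, ENNReal.ofReal (D1 * Ub (k0 + i)) * Xb (k0 + i) ^ 2
      ≤ ENNReal.ofReal (g * Ub (k0 + j)) * Xb (k0 + j) ^ 2 + ENNReal.ofReal (D1 * D2 * Ub (k0 + j)) * Xb (k0 + j) ^ 2 :=
        add_le_add (hbase _) h2
    _ = _ := by
        rw [← add_mul, ← ENNReal.ofReal_add (by positivity) (by positivity)]
        congr 2
        ring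

end MassG

open MassG

/-- **the mass of a class of walks of the box from its probabilities at exact lengths** -/
theorem mass_gen_of (hlo : ∃ c : ℝ, 0 < c ∧ ∀ k : ℕ, c * (2 : ℝ) ^ (4 / 3 * (k : ℝ)) ≤ PW.mZ (2 ^ k))
    (hup : ∃ C : ℝ, ∀ k : ℕ, PW.mZ (2 ^ k) ≤ C * (2 : ℝ) ^ (4 / 3 * (k : ℝ))) (J : ℕ) {e : ℝ} (he : 0 < e) :
    ∃ (e1 L e2 : ℝ) (b0 : ℕ), 0 < e1 ∧ 0 < L ∧ 0 < e2 ∧ ∀ b, b0 ≤ b → ∀ S : Set (List Bool), S ⊆ WL (b + J) →
      (∀ n : ℕ, e1 * (2 : ℝ) ^ (4 / 3 * (b : ℝ)) ≤ n → (n : ℝ) ≤ L * (2 : ℝ) ^ (4 / 3 * (b : ℝ)) → TOG.Pn n S ≤ e2) →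
      gf S ≤ ENNReal.ofReal (e * Ub b) * Xb b ^ 2 := by
  obtain ⟨c4, hc4, hlo⟩ := hlo
  obtain ⟨C3, hup⟩ := hup
  obtain ⟨A1, hA1, hta⟩ := ta_M 1
  obtain ⟨C2, hC2, href⟩ := EnsW.ref_up
  obtain ⟨D, hD, hcum⟩ := cum
  have hC3 : 0 < C3 := by
    have h1 := hup 0
    have h2 := mZ_pos' 0
    rw [Nat.cast_zero, mul_zero, Real.rpow_zero, mul_one] at h1
    linarith
  have hrp : ∀ x y : ℝ, (2 : ℝ) ^ (4 / 3 * (x + y)) = (2 : ℝ) ^ (4 / 3 * x) * (2 : ℝ) ^ (4 / 3 * y) := fun x y => by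
    rw [mul_add, Real.rpow_add (by norm_num)]
  have hpos : ∀ x : ℝ, (0 : ℝ) < (2 : ℝ) ^ (4 / 3 * x) := fun x => by positivity
  -- long words
  obtain ⟨l0, hl0⟩ : ∃ l0 : ℝ, l0 = max 1 (A1 * C2 ^ J * 3 / e) := ⟨_, rfl⟩
  have hl1 : 1 ≤ l0 := by
    rw [hl0]
    exact le_max_left _ _
  have hl2 : A1 / l0 * C2 ^ J ≤ e / 3 := by
    have h1 : A1 * C2 ^ J * 3 / e ≤ l0 := by
      rw [hl0]
      exact le_max_right _ _
    rw [div_le_iff₀ he] at h1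
    rw [div_mul_eq_mul_div, div_le_iff₀ (by linarith)]
    linarith
  obtain ⟨L, hL⟩ : ∃ L : ℝ, L = l0 * C3 * (2 : ℝ) ^ (4 / 3 * (J : ℝ)) := ⟨_, rfl⟩
  have hL0 : 0 < L := by
    rw [hL]
    have := hpos J
    positivity
  -- short words
  obtain ⟨j, hj⟩ := Nf.ex_Ub hD.le (show 0 < e / 3 by linarith)
  obtain ⟨e1, he1⟩ : ∃ e1 : ℝ, e1 = c4 * (2 : ℝ) ^ (4 / 3 * (-(j : ℝ))) := ⟨_, rfl⟩
  have he10 : 0 < e1 := by
    rw [he1]
    have := hpos (-(j : ℝ))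
    positivity
  -- the middle
  obtain ⟨j', hj'⟩ : ∃ j' : ℕ, L < c4 * (2 : ℝ) ^ (4 / 3 * (j' : ℝ)) := by
    obtain ⟨j', h⟩ := pow_unbounded_of_one_lt (L / c4) (show (1 : ℝ) < 2 by norm_num)
    refine ⟨j', ?_⟩
    rw [div_lt_iff₀ hc4] at h
    have h1 : (2 : ℝ) ^ j' ≤ (2 : ℝ) ^ (4 / 3 * (j' : ℝ)) := by
      rw [← Real.rpow_natCast]
      refine Real.rpow_le_rpow_of_exponent_le (by norm_num) ?_
      have : (0 : ℝ) ≤ j' := Nat.cast_nonneg _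
      linarith
    nlinarith
  obtain ⟨e2, he2⟩ : ∃ e2 : ℝ, e2 = e / 3 / (D * C2 ^ j') := ⟨_, rfl⟩
  have hC2j : (0 : ℝ) < C2 ^ j' := by positivity
  have he20 : 0 < e2 := by
    rw [he2]
    positivity
  refine ⟨e1, L, e2, j, he10, hL0, he20, fun b hb S hS hP => ?_⟩
  have hUb := Ub_pos b
  have hsub : S ⊆ ({t | t ∈ WL (b + J) ∧ l0 * PW.mZ (2 ^ (b + J)) ≤ (t.length : ℝ)} ∪
      {t | t ∈ SA ∧ (t.length : ℝ) < PW.mZ (2 ^ (b - j))}) ∪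
      {t | t ∈ S ∧ e1 * (2 : ℝ) ^ (4 / 3 * (b : ℝ)) ≤ t.length ∧ (t.length : ℝ) ≤ L * (2 : ℝ) ^ (4 / 3 * (b : ℝ))} := by
    intro t ht
    rcases le_or_gt (t.length : ℝ) (L * (2 : ℝ) ^ (4 / 3 * (b : ℝ))) with h1 | h1
    · rcases le_or_gt (e1 * (2 : ℝ) ^ (4 / 3 * (b : ℝ))) (t.length : ℝ) with h2 | h2
      · exact Or.inr ⟨ht, h2, h1⟩
      · refine Or.inl (Or.inr ⟨(hS ht).1, h2.trans_le ?_⟩)
        have h3 := hlo (b - j)
        have h4 : ((b - j : ℕ) : ℝ) = -(j : ℝ) + b := by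
          rw [Nat.cast_sub hb]
          ring
        rw [h4, hrp] at h3
        rw [he1]
        linarith
    · refine Or.inl (Or.inl ⟨hS ht, le_trans ?_ h1.le⟩)
      have h3 := hup (b + J)
      rw [Nat.cast_add, hrp] at h3
      have h4 := mul_le_mul_of_nonneg_left h3 (show 0 ≤ l0 by linarith)
      rw [hL]
      calc l0 * PW.mZ (2 ^ (b + J)) ≤ l0 * (C3 * ((2 : ℝ) ^ (4 / 3 * (b : ℝ)) * (2 : ℝ) ^ (4 / 3 * (J : ℝ)))) := h4
        _ = _ := by ring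
  have hlong : gf {t | t ∈ WL (b + J) ∧ l0 * PW.mZ (2 ^ (b + J)) ≤ (t.length : ℝ)} ≤
      ENNReal.ofReal (e / 3 * Ub b) * Xb b ^ 2 := by
    refine (hta (b + J) l0 hl1).trans ?_
    rw [pow_one, ENNReal.ofReal_mul (by positivity), mul_assoc]
    refine (mul_le_mul' le_rfl (href b J)).trans ?_
    rw [← mul_assoc, ← mul_assoc, ← ENNReal.ofReal_mul (by positivity), ← ENNReal.ofReal_mul (by positivity)]
    refine mul_le_mul' (ENNReal.ofReal_le_ofReal ?_) le_rfl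
    exact mul_le_mul_of_nonneg_right hl2 hUb.le
  have hshort : gf {t | t ∈ SA ∧ (t.length : ℝ) < PW.mZ (2 ^ (b - j))} ≤ ENNReal.ofReal (e / 3 * Ub b) * Xb b ^ 2 := by
    refine (hcum (b - j)).trans (mul_le_mul' (ENNReal.ofReal_le_ofReal ?_) (pow_le_pow_left' (Xb_mono (by omega)) 2))
    have h1 := hj b hb
    rw [mul_div_assoc', div_le_iff₀ hUb] at h1
    exact h1
  have hmid : gf {t | t ∈ S ∧ e1 * (2 : ℝ) ^ (4 / 3 * (b : ℝ)) ≤ t.length ∧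
      (t.length : ℝ) ≤ L * (2 : ℝ) ^ (4 / 3 * (b : ℝ))} ≤ ENNReal.ofReal (e / 3 * Ub b) * Xb b ^ 2 := by
    have h1 : gf {t | t ∈ S ∧ e1 * (2 : ℝ) ^ (4 / 3 * (b : ℝ)) ≤ t.length ∧
        (t.length : ℝ) ≤ L * (2 : ℝ) ^ (4 / 3 * (b : ℝ))} ≤
        ENNReal.ofReal e2 * gf {t | t ∈ SA ∧ (t.length : ℝ) < PW.mZ (2 ^ (b + j'))} := by
      rw [NTF.gf_lengths, NTF.gf_lengths {t | t ∈ SA ∧ (t.length : ℝ) < PW.mZ (2 ^ (b + j'))}, ← ENNReal.tsum_mul_left]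
      refine ENNReal.tsum_le_tsum fun n => ?_
      by_cases hn : e1 * (2 : ℝ) ^ (4 / 3 * (b : ℝ)) ≤ n ∧ (n : ℝ) ≤ L * (2 : ℝ) ^ (4 / 3 * (b : ℝ))
      · have h2 : gf {t | t ∈ {t | t ∈ S ∧ e1 * (2 : ℝ) ^ (4 / 3 * (b : ℝ)) ≤ t.length ∧
            (t.length : ℝ) ≤ L * (2 : ℝ) ^ (4 / 3 * (b : ℝ))} ∧ t.length = n} ≤ gf {t | t ∈ SawN n ∧ t ∈ S} := by
          refine gf_mono ?_
          rintro t ⟨ht, hl⟩
          exact ⟨⟨hl, (hS ht.1).1⟩, ht.1⟩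
        have h3 : gf (SawN n) ≤ gf {t | t ∈ {t | t ∈ SA ∧ (t.length : ℝ) < PW.mZ (2 ^ (b + j'))} ∧ t.length = n} := by
          refine gf_mono ?_
          rintro t ⟨hl, ht⟩
          refine ⟨⟨ht, ?_⟩, hl⟩
          rw [hl]
          have h4 := hlo (b + j')
          rw [Nat.cast_add, hrp] at h4
          have h5 := mul_lt_mul_of_pos_right hj' (hpos b)
          calc (n : ℝ) ≤ L * (2 : ℝ) ^ (4 / 3 * (b : ℝ)) := hn.2
            _ < c4 * (2 : ℝ) ^ (4 / 3 * (j' : ℝ)) * (2 : ℝ) ^ (4 / 3 * (b : ℝ)) := h5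
            _ = c4 * ((2 : ℝ) ^ (4 / 3 * (b : ℝ)) * (2 : ℝ) ^ (4 / 3 * (j' : ℝ))) := by ring
            _ ≤ _ := h4
        refine h2.trans ?_
        rw [← NgA.Pn_mul, mul_comm]
        exact mul_le_mul' (ENNReal.ofReal_le_ofReal (hP n hn.1 hn.2)) h3
      · have h2 : {t | t ∈ {t | t ∈ S ∧ e1 * (2 : ℝ) ^ (4 / 3 * (b : ℝ)) ≤ t.length ∧
            (t.length : ℝ) ≤ L * (2 : ℝ) ^ (4 / 3 * (b : ℝ))} ∧ t.length = n} = (∅ : Set (List Bool)) := by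
          ext t
          simp only [Set.mem_ofPred_eq, Set.mem_empty_iff_false, iff_false]
          rintro ⟨ht, hl⟩
          rw [hl] at ht
          exact hn ht.2
        rw [h2, gfE]
        exact zero_le
    refine h1.trans ?_
    refine (mul_le_mul' le_rfl (hcum (b + j'))).trans ?_
    rw [ENNReal.ofReal_mul hD.le, mul_assoc]
    refine (mul_le_mul' le_rfl (mul_le_mul' le_rfl (href b j'))).trans ?_
    rw [← mul_assoc, ← mul_assoc, ← mul_assoc, ← ENNReal.ofReal_mul he20.le, ← ENNReal.ofReal_mul (by positivity),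
      ← ENNReal.ofReal_mul (by positivity)]
    refine mul_le_mul' (ENNReal.ofReal_le_ofReal (le_of_eq ?_)) le_rfl
    rw [he2]
    field_simp
  refine (gf_mono hsub).trans ((gf_union_le _ _).trans ((add_le_add ((gf_union_le _ _).trans (add_le_add hlong hshort))
    hmid).trans (le_of_eq ?_)))
  rw [← add_mul, ← add_mul, ← ENNReal.ofReal_add (by positivity) (by positivity),
    ← ENNReal.ofReal_add (by positivity) (by positivity)]
  congr 2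
  ring

end TIP

end HexObs
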