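import Pool.Agent.IW.Trans
import Pool.Agent.IW.MassGA
import Pool.Agent.TIP.NEnd

/-!
IW: the transfer without hypotheses.
-/

set_option autoImplicit false

namespace HexObs

namespace TIP

namespace NQ

open NTF (JJ)

theorem massG : MassG := fun J _ he => mass_gen_of SIM.mlowZ SIM.mupZ J he

/-- near the tip there is an end outside of every class of small mass -/
theorem nEndQ : NEndQ := by
  obtain ⟨κ, hκ, C, -, hR⟩ := regZ_all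
  exact nEndQ_of hκ neW (lzLog hR) big_n (yBad hR) exN

/-- **the transfer** -/
theorem transfer {ε : ℝ} (hε : 0 < ε) : ∃ (M1 M2 ε' C : ℝ) (k0 : ℕ), 1 ≤ M1 ∧ M1 ≤ M2 ∧
    0 < ε' ∧ 0 < C ∧ 1 ≤ k0 ∧ ∀ k : ℕ, k0 ≤ k → ∀ E : Set (List Bool),
      (∀ n : ℕ, M1 * k ≤ n → (n : ℝ) ≤ M2 * k → TOG.Pn n {t | t.take k ∈ E} ≤ ε') →
      ∃ n0 : ℕ, ∀ n : ℕ, n0 ≤ n →
        TOG.Pn n {t | (∃ i, i ≤ k ∧ C * (k : ℝ) ^ (3 / 4 : ℝ) < ‖JJ (vx oo up t i)‖) ∨ t.take k ∈ E} ≤ ε :=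
  transfer_of massG nEndQ hε

end NQ

end TIP

end HexObs
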