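import Pool.Agent.IW.PS
import Pool.Agent.NTA.TbM

/-!
IW, almost sure exponents, lower half (helper86): it is unlikely, with every power, that the uniform walk with exactly `l`
letters stays inside of a small disc around its start for the whole time (a polynomial factor in `l` is allowed).
-/

set_option autoImplicit false

namespace HexObs

namespace TIP

open Finset TS SDN NTW NTA HexObs.SIM

open scoped ENNReal unitInterval

namespace NQ

lemma norm_one (t : List Bool) : ‖NTF.JJ (vx oo up t 1)‖ = 1 := by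
  have h1 : vx oo up t 1 = up := zero_add up
  have h2 := NTF.JJ_norm up
  rw [h1]
  have h3 : nrm up = 1 := by decide
  rw [h3, Int.cast_one] at h2
  have h4 : (0 : ℝ) ≤ ‖NTF.JJ up‖ := norm_nonneg _
  nlinarith

/-- a word which stays inside of a disc is a word of the box -/
lemma mem_WL {t : List Bool} (ht : t ∈ SA) {k : ℕ} {X : ℝ} (hX : 2 * X ≤ 2 ^ k)
    (h : ∀ i, i ≤ t.length → ‖NTF.JJ (vx oo up t i)‖ ≤ X) : t ∈ WL k := by
  refine ⟨ht, fun i hi dir => ?_⟩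
  have h1 : |row dir (vx oo up t i)| ≤ |lvl dir (vx oo up t i)| := Int.abs_ediv_le_abs _ _
  refine h1.trans ?_
  have h2 := NTSF.lvl_le_norm dir (vx oo up t i)
  have h3 := h i hi
  have h4 : |((lvl dir (vx oo up t i) : ℤ) : ℝ)| ≤ 2 ^ k := by linarith
  rw [← Int.cast_abs] at h4
  exact_mod_cast h4

/-- **the walk is not confined, every power** -/
theorem asLo : ∃ a : ℕ, ∀ Q : ℕ, ∃ C : ℝ, 0 < C ∧ ∀ (l : ℕ) (lam : ℝ), 1 ≤ l → 1 ≤ lam →
    TOG.Pn l {t | ∀ i, i ≤ l → lam * ‖NTF.JJ (vx oo up t i)‖ ≤ (l : ℝ) ^ (3 / 4 : ℝ)} ≤ C * (l : ℝ) ^ a / lam ^ Q := by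
  refine ⟨2, fun Q => ?_⟩
  obtain ⟨AQ, hAQ, hta⟩ := ta_M Q
  obtain ⟨cb, κ, k1, hcb, hκ, hbig⟩ := EN.factsX_M.big
  obtain ⟨a, A, ha, hA, hpow⟩ := scale_pow
  obtain ⟨cl, hcl, hlo⟩ := mlowZ
  obtain ⟨cu, hup⟩ := mupZ
  obtain ⟨n0, hn0⟩ := ex_scale k1
  have hcu : 0 < cu := by
    have h1 := hup 0
    have h2 : (0 : ℝ) < NTSF.MZ 0 := PW.mZ_pos Nat.one_le_two_pow
    rw [Nat.cast_zero, mul_zero, Real.rpow_zero, mul_one] at h1
    linarith
  obtain ⟨A', hA'⟩ : ∃ A' : ℝ, A' = 4 * A + 1 := ⟨_, rfl⟩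
  have hA1 : 1 ≤ A' := by linarith
  obtain ⟨c', hc'⟩ : ∃ c' : ℝ, c' = cl / (cu * A') := ⟨_, rfl⟩
  have hc0 : 0 < c' := by rw [hc']; positivity
  obtain ⟨C, hC⟩ : ∃ C : ℝ, C = 2 * AQ / (c' ^ Q * cb * a) + 1 / c' ^ Q + A' ^ Q + (n0 + 1) ^ Q := ⟨_, rfl⟩
  have q1 : 0 ≤ 2 * AQ / (c' ^ Q * cb * a) := by positivity
  have q2 : 0 ≤ 1 / c' ^ Q := by positivity
  have q3 : 0 ≤ A' ^ Q := by positivity
  have q4 : (0 : ℝ) < (n0 + 1) ^ Q := by positivity
  have hC0 : 0 < C := by rw [hC]; linarith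
  refine ⟨C, hC0, fun l lam hl hlam => ?_⟩
  have hlam0 : 0 < lam := by linarith
  have hlQ : 0 < lam ^ Q := by positivity
  have hl1 : (1 : ℝ) ≤ l := by exact_mod_cast hl
  have hl2 : (1 : ℝ) ≤ (l : ℝ) ^ 2 := one_le_pow₀ hl1
  have hl34 : (l : ℝ) ^ (3 / 4 : ℝ) ≤ l := by
    calc (l : ℝ) ^ (3 / 4 : ℝ) ≤ (l : ℝ) ^ (1 : ℝ) := Real.rpow_le_rpow_of_exponent_le hl1 (by norm_num)
      _ = l := Real.rpow_one _
  -- the trivial bound
  have triv : lam ^ Q ≤ C → TOG.Pn l {t | ∀ i, i ≤ l → lam * ‖NTF.JJ (vx oo up t i)‖ ≤ (l : ℝ) ^ (3 / 4 : ℝ)} ≤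
      C * (l : ℝ) ^ 2 / lam ^ Q := by
    intro h
    refine (pn_le (e := 1) hl zero_le_one ?_).trans ?_
    · rw [ENNReal.ofReal_one, one_mul]
      exact gf_mono fun t ht => ht.1
    · rw [le_div_iff₀ hlQ, one_mul]
      nlinarith
  -- the event is empty for large lam
  have empt : (l : ℝ) ^ (3 / 4 : ℝ) < lam → TOG.Pn l {t | ∀ i, i ≤ l → lam * ‖NTF.JJ (vx oo up t i)‖ ≤ (l : ℝ) ^ (3 / 4 : ℝ)} ≤
      C * (l : ℝ) ^ 2 / lam ^ Q := by
    intro h
    refine pn_le hl (by positivity) ?_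
    have he : {t | t ∈ SawN l ∧ t ∈ {t | ∀ i, i ≤ l → lam * ‖NTF.JJ (vx oo up t i)‖ ≤ (l : ℝ) ^ (3 / 4 : ℝ)}} = ∅ := by
      ext t
      refine ⟨?_, fun h => h.elim⟩
      rintro ⟨-, h1⟩
      have h2 := h1 1 hl
      rw [norm_one, mul_one] at h2
      linarith
    rw [he]
    have e3 : gf (∅ : Set (List Bool)) = 0 := by unfold gf; exact tsum_empty
    rw [e3]
    exact bot_le
  rcases lt_or_ge l n0 with hs | hs
  · -- short walks
    rcases le_or_gt lam n0 with h | h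
    · refine triv ?_
      calc lam ^ Q ≤ (n0 + 1) ^ Q := pow_le_pow_left₀ hlam0.le (by linarith) Q
        _ ≤ C := by rw [hC]; linarith
    · refine empt ?_
      have h1 : (l : ℝ) ≤ n0 := by exact_mod_cast hs.le
      linarith
  · obtain ⟨k, hk, h1, h2⟩ := hn0 l hs
    have hp := hpow k l h1 h2
    rcases lt_or_ge lam A' with h | h
    · refine triv ?_
      calc lam ^ Q ≤ A' ^ Q := pow_le_pow_left₀ hlam0.le h.le Q
        _ ≤ C := by rw [hC]; linarith
    rcases lt_or_ge (c' * lam) 1 with h3 | h3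
    · refine triv ?_
      have h4 : lam ^ Q * c' ^ Q ≤ 1 := by
        rw [← mul_pow]
        exact pow_le_one₀ (by positivity) (by linarith)
      calc lam ^ Q ≤ 1 / c' ^ Q := by rw [le_div_iff₀ (by positivity)]; exact h4
        _ ≤ C := by rw [hC]; linarith
    rcases lt_or_ge ((l : ℝ) ^ (3 / 4 : ℝ)) lam with h4 | h4
    · exact empt h4
    -- the scale of the disc
    have h5 : 1 ≤ A * 2 ^ k / lam := by
      rw [le_div_iff₀ hlam0, one_mul]
      exact h4.trans hp.2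
    obtain ⟨i, hi1, hi2⟩ := exists_nat_pow_near h5 (one_lt_two (α := ℝ))
    have hik : i + 2 ≤ k := by
      by_contra hcon
      have h6 : (2 : ℝ) ^ k ≤ 2 ^ (i + 1) := pow_le_pow_right₀ (by norm_num) (by omega)
      have h7 : (2 : ℝ) ^ i * lam ≤ A * 2 ^ k := by rwa [le_div_iff₀ hlam0] at hi1
      have h8 : (0 : ℝ) < 2 ^ i := by positivity
      have h9 : (2 : ℝ) ^ i * (4 * A + 1) ≤ 2 ^ i * lam := mul_le_mul_of_nonneg_left (by rw [← hA']; exact h) h8.le
      have h10 : A * 2 ^ k ≤ A * (2 ^ (i + 1)) := mul_le_mul_of_nonneg_left h6 hA.le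
      rw [pow_succ] at h10
      nlinarith
    have hlen : c' * lam * PW.mZ (2 ^ (i + 2)) ≤ l := by
      refine le_trans ?_ h1
      have h6 := hup (i + 2)
      have h7 := hlo k
      have h8 : lam / A' ≤ (2 : ℝ) ^ (4 / 3 * (k : ℝ)) / (2 : ℝ) ^ (4 / 3 * ((i + 2 : ℕ) : ℝ)) := by
        rw [← Real.rpow_sub (by norm_num)]
        have h9 : lam / A' ≤ (2 : ℝ) ^ (((k - (i + 2) : ℕ) : ℝ)) := by
          rw [Real.rpow_natCast, div_le_iff₀ (by positivity)]
          have h10 : (2 : ℝ) ^ i * lam ≤ A * 2 ^ k := by rwa [le_div_iff₀ hlam0] at hi1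
          have h11 : (2 : ℝ) ^ k = 2 ^ (k - (i + 2)) * (4 * 2 ^ i) := by
            rw [show (4 : ℝ) = 2 ^ 2 by norm_num, ← pow_add, ← pow_add]
            congr 1
            omega
          rw [h11] at h10
          have h12 : (0 : ℝ) < 2 ^ i := by positivity
          have h13 : lam ≤ A * (2 ^ (k - (i + 2)) * 4) := by
            refine le_of_mul_le_mul_left ?_ h12
            linarith
          have h14 : (0 : ℝ) < 2 ^ (k - (i + 2)) := by positivity
          rw [hA']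
          nlinarith
        refine h9.trans (Real.rpow_le_rpow_of_exponent_le (by norm_num) ?_)
        rw [Nat.cast_sub hik]
        have h10 : (((i + 2 : ℕ) : ℝ)) ≤ k := by exact_mod_cast hik
        linarith
      have h9 : (0 : ℝ) < (2 : ℝ) ^ (4 / 3 * ((i + 2 : ℕ) : ℝ)) := by positivity
      have h10 : (0 : ℝ) < (2 : ℝ) ^ (4 / 3 * (k : ℝ)) := by positivity
      calc c' * lam * PW.mZ (2 ^ (i + 2)) ≤ c' * lam * (cu * (2 : ℝ) ^ (4 / 3 * ((i + 2 : ℕ) : ℝ))) :=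
            mul_le_mul_of_nonneg_left h6 (by positivity)
        _ = cl * ((lam / A') * (2 : ℝ) ^ (4 / 3 * ((i + 2 : ℕ) : ℝ))) := by
            rw [hc']
            field_simp
        _ ≤ cl * (2 : ℝ) ^ (4 / 3 * (k : ℝ)) := by
            refine mul_le_mul_of_nonneg_left ?_ hcl.le
            rwa [le_div_iff₀ h9] at h8
        _ ≤ _ := h7
    have h6 := hta (i + 2) (c' * lam) h3
    have h7 := hbig k l hk h1 h2
    have h8 : ENNReal.ofReal cb * nuX (fun k => PW.mZ (2 ^ k)) k ≤ gf (SawN l) := h7.trans (gf_mono fun t ht => ht.1)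
    have hmk : 0 < PW.mZ (2 ^ k) := PW.mZ_pos Nat.one_le_two_pow
    have hUk : 1 ≤ Ub k := NTA.one_le_Ub k
    refine pn_le hl (by positivity) ?_
    calc gf {t | t ∈ SawN l ∧ t ∈ {t | ∀ i, i ≤ l → lam * ‖NTF.JJ (vx oo up t i)‖ ≤ (l : ℝ) ^ (3 / 4 : ℝ)}}
        ≤ gf {t | t ∈ WL (i + 2) ∧ c' * lam * (fun k => PW.mZ (2 ^ k)) (i + 2) ≤ (t.length : ℝ)} := by
          refine gf_mono ?_
          rintro t ⟨ht, h9⟩
          refine ⟨mem_WL (X := 2 ^ (i + 1)) ht.2 (by rw [pow_succ (2 : ℝ) (i + 1)]; linarith) fun j hj => ?_, ?_⟩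
          · rw [ht.1] at hj
            have h10 := h9 j hj
            have h11 : ‖NTF.JJ (vx oo up t j)‖ ≤ A * 2 ^ k / lam := by
              rw [le_div_iff₀ hlam0, mul_comm]
              exact h10.trans hp.2
            linarith
          · rw [ht.1]
            exact hlen
      _ ≤ ENNReal.ofReal (AQ / (c' * lam) ^ Q * Ub (i + 2)) * Xb (i + 2) ^ 2 := h6
      _ ≤ ENNReal.ofReal (C * (l : ℝ) ^ 2 / lam ^ Q * cb * (Ub k / PW.mZ (2 ^ k))) * Xb k ^ 2 := by
          refine mul_le_mul' (ENNReal.ofReal_le_ofReal ?_) (pow_le_pow_left' (Xb_mono hik) 2)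
          have h9 : Ub (i + 2) ≤ 2 * 2 ^ k := by
            refine (SDN.Ub_le (i + 2)).trans ?_
            rw [pow_succ (2 : ℝ) (i + 2), mul_comm]
            exact mul_le_mul_of_nonneg_left (pow_le_pow_right₀ (by norm_num) hik) (by norm_num)
          have h10 : (2 : ℝ) ^ k ≤ l / a := by
            rw [le_div_iff₀ ha, mul_comm]
            exact hp.1.trans hl34
          have h11 : 1 / (l : ℝ) ≤ Ub k / PW.mZ (2 ^ k) := by
            rw [div_le_div_iff₀ (by positivity) hmk]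
            nlinarith
          calc AQ / (c' * lam) ^ Q * Ub (i + 2) ≤ AQ / (c' * lam) ^ Q * (2 * (l / a)) := by
                refine mul_le_mul_of_nonneg_left (h9.trans (by linarith)) (by positivity)
            _ = 2 * AQ / (c' ^ Q * cb * a) * (l : ℝ) ^ 2 / lam ^ Q * cb * (1 / l) := by
                rw [mul_pow]
                field_simp
            _ ≤ C * (l : ℝ) ^ 2 / lam ^ Q * cb * (Ub k / PW.mZ (2 ^ k)) := by
                have h12 : 2 * AQ / (c' ^ Q * cb * a) ≤ C := by rw [hC]; linarith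
                gcongr
      _ = ENNReal.ofReal (C * (l : ℝ) ^ 2 / lam ^ Q) * (ENNReal.ofReal cb * nuX (fun k => PW.mZ (2 ^ k)) k) := by
          unfold nuX
          rw [mul_assoc (C * (l : ℝ) ^ 2 / lam ^ Q), ENNReal.ofReal_mul (by positivity), ENNReal.ofReal_mul hcb.le, mul_assoc,
            mul_assoc]
      _ ≤ ENNReal.ofReal (C * (l : ℝ) ^ 2 / lam ^ Q) * gf (SawN l) := mul_le_mul_right h8 _

end NQ

end TIP

end HexObs
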