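import Pool.Agent.IW.AsFin
import Pool.Agent.IW.AsLo

/-!
IW: the almost sure sizes of the pieces of the infinite walk, no hypothesis.
-/

set_option autoImplicit false

open MeasureTheory Filter Topology

namespace Pool.Agent.IW

open Res

/-- **almost surely every piece of s steps of the first k steps has the size s ^ (3 / 4) up to k ^ o(1)** -/
theorem as_size {P : Measure (ℕ → Fin 3)} [IsProbabilityMeasure P]
    (hP : ∀ (η : ℕ → Fin 3) (m : ℕ), Tendsto (fun n => begins n m η) atTop (𝓝 (P.real {w | ∀ i, i < m → w i = η i}))) :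
    ∀ᵐ w ∂P, ∀ δ : ℝ, 0 < δ → ∀ᶠ k : ℕ in atTop, ∀ i j : ℕ, i < j → j ≤ k →
      ‖ipos w j - ipos w i‖ ≤ (k : ℝ) ^ δ * ((j : ℝ) - i) ^ (3 / 4 : ℝ) ∧
      ∃ l : ℕ, i ≤ l ∧ l ≤ j ∧ (k : ℝ) ^ (-δ) * ((j : ℝ) - i) ^ (3 / 4 : ℝ) ≤ ‖ipos w l - ipos w i‖ :=
  as_size_of HexObs.TIP.NQ.asLo hP

end Pool.Agent.IW
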