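import Pool.Agent.IW.Word
import Pool.Agent.SDN.Frames
import Pool.Agent.PHW.Rotate

/-!
IW: reversal. The tip at the end of the word (`TipEnd`) or at its start (`TipLim`); number of the free continuations.
-/

set_option autoImplicit false

open MeasureTheory Filter Topology
open scoped Classical

namespace Pool.Agent.IW

open HexObs (SawN cS Saw oo up vx dx tf tip xc rev dirs)

open HexObs.TOG (Pn)

/-- the vertices of s and the tip are distinct: s is an n-step walk with n = s.length + 1 -/
def DS (s : List Bool) : Prop := ∀ i k, i < k → k ≤ s.length + 1 → vx oo up s i ≠ vx oo up s k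

lemma saw_DS {s : List Bool} {b : Bool} : s ++ [b] ∈ SawN (s.length + 1) ↔ DS s := by
  have hl : (s ++ [b]).length = s.length + 1 := by simp
  constructor
  · rintro ⟨-, h⟩ i k hik hk
    have := h.inj i k hik (by omega)
    rwa [HexObs.vx_append (by omega), HexObs.vx_append (by omega)] at this
  · intro h
    refine ⟨hl, ⟨fun _ _ _ => Set.mem_univ _, fun i k hik hk => ?_⟩⟩
    rw [hl] at hk
    rw [HexObs.vx_append (by omega), HexObs.vx_append (by omega)]
    exact h i k hik hk

lemma DS_rev {s : List Bool} (h : DS s) : DS (rev s) := by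
  intro i k hik hk
  rw [HexObs.rev_length] at hk
  have hd : -(dx up s s.length) ∈ dirs := HexObs.neg_mem_dirs (HexObs.dx_mem HexObs.SDN.up_dirs s s.length)
  obtain ⟨-, he⟩ := HexObs.SDN.frame_dir hd
  have key : ∀ j, j ≤ s.length + 1 → vx oo up s (s.length + 1 - j) =
      tip oo up s + HexObs.mulE (HexObs.rotTo up (-(dx up s s.length))) (vx oo up (rev s) j) := by
    intro j hj
    rw [← HexObs.vx_rev oo up s j hj, ← HexObs.SDN.vx_frameN, ← he]
  intro heq
  have h1 := key i (by omega)
  have h2 := key k (by omega)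
  rw [heq, ← h2] at h1
  exact h (s.length + 1 - k) (s.length + 1 - i) (by omega) (by omega) h1.symm

/-- the walk reversed; the last letter is kept -/
def rvw (t : List Bool) : List Bool := rev t.dropLast ++ t.getLast?.toList

lemma rvw_app (s : List Bool) (b : Bool) : rvw (s ++ [b]) = rev s ++ [b] := by
  unfold rvw
  rw [List.dropLast_concat, List.getLast?_concat]
  rfl

lemma split_last {t : List Bool} {n : ℕ} (hn : 0 < n) (ht : t.length = n) : ∃ s b, t = s ++ [b] ∧ s.length + 1 = n := by
  have h : t ≠ [] := by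
    rintro rfl
    simp only [List.length_nil] at ht
    omega
  refine ⟨t.dropLast, t.getLast h, (List.dropLast_append_getLast h).symm, ?_⟩
  rw [List.length_dropLast]
  omega

lemma rvw_mem {t : List Bool} {n : ℕ} (hn : 0 < n) (ht : t ∈ SawN n) : rvw t ∈ SawN n := by
  obtain ⟨s, b, rfl, hs⟩ := split_last hn ht.1
  rw [← hs] at ht
  rw [rvw_app]
  have h := DS_rev (saw_DS.1 ht)
  have h2 : (rev s).length + 1 = n := by rw [HexObs.rev_length]; exact hs
  rw [← h2]
  exact saw_DS.2 h

lemma rvw_rvw {t : List Bool} {n : ℕ} (hn : 0 < n) (ht : t.length = n) : rvw (rvw t) = t := by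
  obtain ⟨s, b, rfl, -⟩ := split_last hn ht
  rw [rvw_app, rvw_app, HexObs.rev_rev]

/-- the probability of the reversed event -/
lemma Pn_rvw {n : ℕ} (hn : 0 < n) (C : Set (List Bool)) : Pn n {t | rvw t ∈ C} = Pn n C := by
  unfold Pn
  congr 2
  refine Set.ncard_congr (fun t _ => rvw t) ?_ ?_ ?_
  · intro t ht
    exact ⟨rvw_mem hn ht.1, ht.2⟩
  · intro t t' ht ht' he
    rw [← rvw_rvw hn ht.1.1, ← rvw_rvw hn ht'.1.1]
    exact congrArg rvw he
  · intro t ht
    refine ⟨rvw t, ⟨rvw_mem hn ht.1, ?_⟩, rvw_rvw hn ht.1.1⟩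
    show rvw (rvw t) ∈ C
    rw [rvw_rvw hn ht.1.1]
    exact ht.2

lemma rev_pre {η s : List Bool} : η <+: s ↔ rev η <:+ rev s := by
  unfold rev
  rw [List.reverse_suffix]
  constructor
  · rintro ⟨u, rfl⟩
    exact ⟨u.map not, by rw [List.map_append]⟩
  · rintro ⟨u, hu⟩
    refine ⟨u.map not, ?_⟩
    have h2 := congrArg (List.map not) hu
    rwa [List.map_append, HexObs.map_not_not, HexObs.map_not_not] at h2

lemma suf_last {η s : List Bool} {b : Bool} : η ++ [b] <:+ s ++ [b] ↔ η <:+ s := by
  constructor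
  · rintro ⟨u, hu⟩
    refine ⟨u, ?_⟩
    rw [← List.append_assoc] at hu
    exact List.append_cancel_right hu
  · rintro ⟨u, rfl⟩
    exact ⟨u, by rw [List.append_assoc]⟩

/-- the beginning = the reversed end -/
lemma Pn_pre {n : ℕ} {η : List Bool} (hn : η.length < n) :
    Pn n {t | η <+: t} = Pn n {t | rev η ++ [true] <:+ t} + Pn n {t | rev η ++ [false] <:+ t} := by
  rw [← Pn_rvw (by omega) {t | η <+: t}]
  unfold Pn
  rw [← add_div]
  congr 1
  have hd : Disjoint {t | t ∈ SawN n ∧ t ∈ {t | rev η ++ [true] <:+ t}} {t | t ∈ SawN n ∧ t ∈ {t | rev η ++ [false] <:+ t}} := by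
    rw [Set.disjoint_left]
    rintro t ⟨-, h1⟩ ⟨-, h2⟩
    have h1 : rev η ++ [true] <:+ t := h1
    have h2 : rev η ++ [false] <:+ t := h2
    obtain ⟨u, hu⟩ := h1
    obtain ⟨v, hv⟩ := h2
    have := hu.trans hv.symm
    rw [← List.append_assoc, ← List.append_assoc] at this
    have h3 := congrArg List.getLast? this
    rw [List.getLast?_concat, List.getLast?_concat] at h3
    exact absurd h3 (by decide)
  have hf : ∀ C : Set (List Bool), {t | t ∈ SawN n ∧ t ∈ C}.Finite := fun C => (fin_SawN n).subset fun t ht => ht.1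
  have h := Set.ncard_union_eq hd (hf _) (hf _)
  rw [← Nat.cast_add, ← h]
  congr 2
  ext t
  simp only [Set.mem_setOf_eq, Set.mem_union]
  rw [← and_or_left]
  refine and_congr_right fun ht => ?_
  obtain ⟨s, b, rfl, hs⟩ := split_last (by omega) ht.1
  rw [rvw_app]
  have h1 : η <+: rev s ++ [b] ↔ rev η <:+ s := by
    have h2 : η <+: rev s ++ [b] ↔ η <+: rev s := by
      constructor
      · intro h
        exact List.prefix_of_prefix_length_le h (List.prefix_append _ _) (by rw [HexObs.rev_length]; omega)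
      · intro h
        exact h.trans (List.prefix_append _ _)
    rw [h2, rev_pre, HexObs.rev_rev]
  rw [h1]
  constructor
  · intro h
    cases b with
    | true => exact Or.inl (suf_last.2 h)
    | false => exact Or.inr (suf_last.2 h)
  · have key : ∀ c : Bool, rev η ++ [c] <:+ s ++ [b] → rev η <:+ s := by
      rintro c ⟨u, hu⟩
      rw [← List.append_assoc] at hu
      have h3 := congrArg List.getLast? hu
      rw [List.getLast?_concat, List.getLast?_concat] at h3
      have h4 : c = b := Option.some.inj h3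
      subst h4
      exact ⟨u, List.append_cancel_right hu⟩
    rintro (h | h)
    · exact key _ h
    · exact key _ h

/-- the laws of the end of the word converge -/
def TipEnd : Prop := ∀ η : List Bool, ∃ p : ℝ, Tendsto (fun n => Pn n {t | η <:+ t}) atTop (𝓝 p)

theorem tipLim_of (h : TipEnd) : TipLim := by
  intro η
  obtain ⟨p, hp⟩ := h (rev η ++ [true])
  obtain ⟨q, hq⟩ := h (rev η ++ [false])
  refine ⟨p + q, (hp.add hq).congr' ?_⟩
  filter_upwards [eventually_gt_atTop η.length] with n hn
  rw [Pn_pre hn]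

/-! ### Free continuations -/

/-- the vertex in front of the end of the word is free -/
def FrontFree (t : List Bool) : Prop := ∀ i, i ≤ t.length → vx oo up t i ≠ tip oo up t

/-- **continuations** -/
lemma cS_succ (n : ℕ) : cS (n + 1) = 2 * {t | t ∈ SawN n ∧ t ∈ {t | FrontFree t}}.ncard := by
  unfold cS
  have hf : {t | t ∈ SawN n ∧ t ∈ {t | FrontFree t}}.Finite := (fin_SawN n).subset fun t ht => ht.1
  obtain ⟨F, hF⟩ : ∃ F : Finset (List Bool), (F : Set (List Bool)) = {t | t ∈ SawN n ∧ t ∈ {t | FrontFree t}} :=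
    ⟨hf.toFinset, hf.coe_toFinset⟩
  have h1 : (fun p : List Bool × Bool => p.1 ++ [p.2]) '' ((F ×ˢ (Finset.univ : Finset Bool) : Finset (List Bool × Bool)) :
      Set (List Bool × Bool)) = SawN (n + 1) := by
    ext t
    simp only [Set.mem_image, Finset.mem_coe, Finset.mem_product, Finset.mem_univ, and_true]
    have hmem : ∀ s, s ∈ F ↔ s ∈ SawN n ∧ FrontFree s := by
      intro s
      rw [← Finset.mem_coe, hF]
      rfl
    constructor
    · rintro ⟨⟨s, b⟩, h, rfl⟩
      have h := (hmem s).1 h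
      refine ⟨?_, HexObs.saw_append_one.2 ⟨h.1.2, Set.mem_univ _, h.2⟩⟩
      rw [List.length_append, h.1.1]
      rfl
    · intro ht
      obtain ⟨s, b, rfl, hs⟩ := split_last (Nat.succ_pos n) ht.1
      refine ⟨(s, b), (hmem s).2 ?_, rfl⟩
      obtain ⟨h2, -, h3⟩ := HexObs.saw_append_one.1 ht.2
      exact ⟨⟨by omega, h2⟩, h3⟩
  have h2 : Set.InjOn (fun p : List Bool × Bool => p.1 ++ [p.2])
      ((F ×ˢ (Finset.univ : Finset Bool) : Finset (List Bool × Bool)) : Set (List Bool × Bool)) := by
    rintro ⟨s, b⟩ - ⟨s', b'⟩ - he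
    have he : s ++ [b] = s' ++ [b'] := he
    have h3 := congrArg List.getLast? he
    rw [List.getLast?_concat, List.getLast?_concat] at h3
    have h4 : b = b' := Option.some.inj h3
    subst h4
    exact Prod.ext (List.append_cancel_right he) rfl
  rw [← h1, h2.ncard_image, Set.ncard_coe_finset, Finset.card_product, ← hF, Set.ncard_coe_finset]
  simp only [Finset.card_univ, Fintype.card_bool]
  ring

/-- the vertex in front of the end is free: the probability converges -/
def TipFree : Prop := ∃ L : ℝ, Tendsto (fun n => Pn n {t | FrontFree t}) atTop (𝓝 L)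

lemma xc_eq : 1 / xc = Real.sqrt (2 + Real.sqrt 2) := by
  have h : (1 / xc) ^ 2 = 2 + Real.sqrt 2 := by
    rw [div_pow, one_pow, HexObs.xc_sq, one_div_one_div]
  have h0 : (0 : ℝ) ≤ 1 / xc := (div_pos one_pos HexObs.xc_pos).le
  rw [← h, Real.sqrt_sq h0]

/-- **the ratio limit** -/
theorem ratio_lim (hF : TipFree) (hR : HexObs.TOG.Ratio2) :
    Tendsto (fun n => ((Res.saw (n + 1)).card : ℝ) / ((Res.saw n).card : ℝ)) atTop (𝓝 (Real.sqrt (2 + Real.sqrt 2))) := by
  obtain ⟨L, hL⟩ := hF
  have h1 : Tendsto (fun n => (cS (n + 1) : ℝ) / cS n) atTop (𝓝 (2 * L)) := by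
    refine (hL.const_mul 2).congr fun n => ?_
    unfold Pn
    rw [cS_succ]
    push_cast
    ring
  have h2 : Tendsto (fun n => (cS (n + 2) : ℝ) / cS n) atTop (𝓝 (2 * L * (2 * L))) := by
    refine ((h1.comp (tendsto_add_atTop_nat 1)).mul h1).congr' ?_
    filter_upwards [eventually_gt_atTop 0] with n hn
    have h3 := cS_pos (n := n + 1) (by omega)
    show (cS (n + 1 + 1) : ℝ) / cS (n + 1) * ((cS (n + 1) : ℝ) / cS n) = _
    rw [div_mul_div_cancel₀ h3.ne']
  have h3 := tendsto_nhds_unique h2 hR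
  have hL0 : 0 ≤ 2 * L := ge_of_tendsto' h1 fun n => by positivity
  have h4 : 2 * L = Real.sqrt (2 + Real.sqrt 2) := by
    have hx := xc_eq
    have hx0 : 0 ≤ Real.sqrt (2 + Real.sqrt 2) := Real.sqrt_nonneg _
    have h5 : 2 * L * (2 * L) = Real.sqrt (2 + Real.sqrt 2) * Real.sqrt (2 + Real.sqrt 2) := by
      rw [h3, ← hx]
      ring
    nlinarith [mul_self_eq_mul_self_iff.1 h5, sq_nonneg (2 * L - Real.sqrt (2 + Real.sqrt 2))]
  rw [← h4]
  refine h1.congr' ?_
  filter_upwards [eventually_gt_atTop 0] with n hn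
  have e1 := card_saw_eq (n := n) hn
  have e2 := card_saw_eq (n := n + 1) (by omega)
  have e3 := cS_pos (n := n) hn
  have e4 : ((Res.saw n).card : ℝ) = 3 / 2 * (cS n : ℝ) := by linarith
  have e5 : ((Res.saw (n + 1)).card : ℝ) = 3 / 2 * (cS (n + 1) : ℝ) := by linarith
  rw [e4, e5]
  field_simp

end Pool.Agent.IW
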