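import Pool.Agent.IW.Meas
import Pool.Agent.NTS.Dict
import Pool.Agent.TOG.Defs

/-!
IW: the proportions `begins` from the words. The start of the word is the start of the walk.
-/

set_option autoImplicit false

open MeasureTheory Filter Topology
open scoped Classical

namespace Pool.Agent.IW

open Res

open HexObs (SawN cS Saw oo up vx dx tf tip xc)

open HexObs.TOG (Pn)

/-- the word starts with η: the laws of the beginning converge -/
def TipLim : Prop := ∀ η : List Bool, ∃ p : ℝ, Tendsto (fun n => Pn n {t | η <+: t}) atTop (𝓝 p)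

lemma saw_eq (n : ℕ) : saw n = Pool.Agent.NTS.Res.saw n := rfl

lemma fin_SawN (n : ℕ) : (SawN n).Finite := (List.finite_length_eq Bool n).subset fun _ ht => ht.1

/-- the cylinder event, finite walks -/
def cy (n m : ℕ) (η : ℕ → Fin 3) (s : Fin n → Fin 3) : Prop := ∀ i : Fin n, (i : ℕ) < m → s i = η i

lemma begins_rot (n m : ℕ) (η : ℕ → Fin 3) : begins n m (fun i => η i + 1) = begins n m η := by
  unfold begins
  congr 2
  refine (Finset.card_bij (fun s _ => NTSF.rot s) ?_ ?_ ?_).symm
  · intro s hs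
    rw [Finset.mem_filter] at hs ⊢
    refine ⟨?_, ?_⟩
    · have := hs.1
      rw [saw_eq] at this ⊢
      exact NTSF.rot_mem.2 this
    · intro i hi
      show s i + 1 = η i + 1
      rw [hs.2 i hi]
  · intro s _ s' _ h
    funext i
    have : s i + 1 = s' i + 1 := congrFun h i
    exact add_right_cancel this
  · intro s hs
    rw [Finset.mem_filter] at hs
    have e : NTSF.rot (fun i => s i - 1) = s := by
      funext i
      show s i - 1 + 1 = s i
      rw [sub_add_cancel]
    refine ⟨fun i => s i - 1, ?_, e⟩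
    rw [Finset.mem_filter]
    refine ⟨?_, ?_⟩
    · have := hs.1
      rw [saw_eq] at this ⊢
      rw [← NTSF.rot_mem, e]
      exact this
    · intro i hi
      show s i - 1 = η i
      rw [hs.2 i hi, add_sub_cancel_right]

lemma begins_add (n m : ℕ) (η : ℕ → Fin 3) (a : Fin 3) : begins n m (fun i => η i + a) = begins n m η := by
  have h1 := begins_rot n m η
  have h2 := begins_rot n m (fun i => η i + 1)
  have e2 : (fun i => η i + 1 + 1) = fun i => η i + 2 := by
    funext i
    rw [add_assoc]
    rfl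
  rw [h1] at h2
  have e3 : begins n m (fun i => η i + 2) = begins n m η := by
    rw [← e2]
    exact h2
  have h : ∀ a : Fin 3, a = 0 ∨ a = 1 ∨ a = 2 := by decide
  rcases h a with rfl | rfl | rfl
  · simp
  · exact h1
  · exact e3

lemma card_saw_eq {n : ℕ} (hn : 0 < n) : 2 * ((saw n).card : ℝ) = 3 * (cS n : ℝ) := by
  have := NTSF.card_saw hn (fun _ => True) (fun _ => Iff.rfl)
  rw [Finset.filter_true_of_mem (fun _ _ => trivial)] at this
  have h2 : {t | t ∈ SawN n ∧ True} = SawN n := by
    ext t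
    exact ⟨fun h => h.1, fun h => ⟨h, trivial⟩⟩
  rw [h2] at this
  unfold cS
  rw [saw_eq]
  exact_mod_cast this

lemma cS_pos {n : ℕ} (hn : 0 < n) : 0 < (cS n : ℝ) := by
  have h1 := card_saw_eq hn
  have h2 : 0 < ((saw n).card : ℝ) := by
    have := NTSF.saw_nonempty n
    rw [saw_eq]
    exact_mod_cast Finset.card_pos.2 this
  linarith

/-- the dictionary for the cylinders that start with the direction 0 -/
lemma begins_word {n m : ℕ} (hm : 0 < m) (hn : m ≤ n) (η : ℕ → Fin 3) (h0 : η 0 = 0) :
    begins n m η = 1 / 3 * Pn n {t | cy n m η (NTF.sw n t)} := by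
  have h1 := NTSF.card_words (n := n) (by omega) (cy n m η)
  have h2 : ((saw n).filter (fun s => ∀ i : Fin n, (i : ℕ) < m → s i = η i)).card =
      ((Pool.Agent.NTS.Res.saw n).filter fun s => cy n m η s ∧ s ⟨0, by omega⟩ = 0).card := by
    congr 1
    ext s
    simp only [Finset.mem_filter, saw_eq]
    refine and_congr_right fun _ => ⟨fun h => ⟨h, ?_⟩, fun h => h.1⟩
    rw [h ⟨0, by omega⟩ hm]
    exact h0
  have h3 := card_saw_eq (n := n) (by omega)
  have h4 := cS_pos (n := n) (by omega)
  unfold begins Pn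
  rw [h2]
  have h5 : ({t | t ∈ SawN n ∧ t ∈ {t | cy n m η (NTF.sw n t)}}.ncard : ℝ) =
      2 * (((Pool.Agent.NTS.Res.saw n).filter fun s => cy n m η s ∧ s ⟨0, by omega⟩ = 0).card : ℝ) := by
    have : {t | t ∈ SawN n ∧ t ∈ {t | cy n m η (NTF.sw n t)}} = {t | t ∈ SawN n ∧ cy n m η (NTF.sw n t)} := rfl
    rw [this, h1]
    push_cast
    ring
  rw [h5]
  have h6 : ((saw n).card : ℝ) = 3 / 2 * (cS n : ℝ) := by linarith
  rw [h6]
  field_simp

/-- dx depends on the letters in front only -/
lemma dx_take (t : List Bool) (k : ℕ) : ∀ i, i ≤ k → dx up (t.take k) i = dx up t i := by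
  intro i
  induction i with
  | zero => intro _; rfl
  | succ i ih =>
    intro hi
    rw [HexObs.dx_succ, HexObs.dx_succ, ih (by omega)]
    congr 1
    unfold tf
    rw [List.getD_eq_getElem?_getD, List.getD_eq_getElem?_getD, List.getElem?_take, if_pos (by omega)]

/-- the words of the cylinder -/
noncomputable def FF (m : ℕ) (η : ℕ → Fin 3) : Finset (List Bool) :=
  ((List.finite_length_eq Bool (m - 1)).toFinset).filter fun τ => ∀ i, i < m → NTF.aa (dx up τ i) = η i

lemma Pn_cyl {n m : ℕ} (hm : 0 < m) (hn : m ≤ n) (η : ℕ → Fin 3) :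
    Pn n {t | cy n m η (NTF.sw n t)} = ∑ τ ∈ FF m η, Pn n {t | τ <+: t} := by
  unfold Pn
  rw [← Finset.sum_div]
  congr 1
  obtain ⟨S, hS⟩ : ∃ S : Finset (List Bool), (S : Set (List Bool)) = {t | t ∈ SawN n ∧ t ∈ {t | cy n m η (NTF.sw n t)}} :=
    ⟨((fin_SawN n).subset (fun t ht => ht.1)).toFinset, Set.Finite.coe_toFinset _⟩
  rw [← hS, Set.ncard_coe_finset, Finset.card_eq_sum_card_fiberwise (f := fun t => t.take (m - 1)) (t := FF m η)]
  · push_cast
    refine Finset.sum_congr rfl fun τ hτ => ?_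
    congr 1
    rw [← Set.ncard_coe_finset]
    congr 1
    unfold FF at hτ
    rw [Finset.mem_filter, Set.Finite.mem_toFinset] at hτ
    obtain ⟨hl, hτ⟩ := hτ
    have hl : τ.length = m - 1 := hl
    ext t
    rw [Finset.coe_filter]
    have hmem : t ∈ S ↔ t ∈ SawN n ∧ cy n m η (NTF.sw n t) := by
      rw [← Finset.mem_coe, hS]
      rfl
    simp only [Set.mem_setOf_eq, hmem]
    constructor
    · rintro ⟨⟨h1, -⟩, h2⟩
      exact ⟨h1, h2 ▸ List.take_prefix _ _⟩
    · rintro ⟨h1, h2⟩
      have h3 : t.take (m - 1) = τ := by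
        rw [← hl]
        exact (List.prefix_iff_eq_take.1 h2).symm
      refine ⟨⟨h1, ?_⟩, h3⟩
      intro i hi
      show NTF.aa (dx up t i) = η i
      rw [← dx_take t (m - 1) i (by omega), h3]
      exact hτ i hi
  · intro t ht
    have ht : t ∈ SawN n ∧ cy n m η (NTF.sw n t) := by
      rw [hS] at ht
      exact ht
    obtain ⟨h1, h2⟩ := ht
    have hl : t.length = n := h1.1
    show t.take (m - 1) ∈ ((FF m η : Finset (List Bool)) : Set (List Bool))
    unfold FF
    rw [Finset.mem_coe, Finset.mem_filter, Set.Finite.mem_toFinset]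
    refine ⟨?_, ?_⟩
    · show (t.take (m - 1)).length = m - 1
      rw [List.length_take]
      omega
    · intro i hi
      rw [dx_take t (m - 1) i (by omega)]
      exact h2 ⟨i, by omega⟩ hi

/-- **the proportions converge** -/
theorem begins_lim (h : TipLim) (η : ℕ → Fin 3) (m : ℕ) : ∃ p : ℝ, Tendsto (fun n => begins n m η) atTop (𝓝 p) := by
  rcases Nat.eq_zero_or_pos m with rfl | hm
  · refine ⟨1, tendsto_const_nhds.congr fun n => ?_⟩
    unfold begins
    rw [Finset.filter_true_of_mem (fun s _ i hi => absurd hi (Nat.not_lt_zero _))]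
    refine (div_self ?_).symm
    have := Finset.card_pos.2 (NTSF.saw_nonempty n)
    rw [saw_eq]
    exact_mod_cast this.ne'
  · choose p hp using h
    refine ⟨1 / 3 * ∑ τ ∈ FF m (fun i => η i + -(η 0)), p τ, ?_⟩
    have h1 : Tendsto (fun n => 1 / 3 * ∑ τ ∈ FF m (fun i => η i + -(η 0)), Pn n {t | τ <+: t}) atTop
        (𝓝 (1 / 3 * ∑ τ ∈ FF m (fun i => η i + -(η 0)), p τ)) :=
      (tendsto_finsetSum _ fun τ _ => hp τ).const_mul _
    refine h1.congr' ?_
    filter_upwards [eventually_ge_atTop m] with n hn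
    rw [← begins_add n m η (-(η 0)), begins_word hm hn _ (by simp), Pn_cyl hm hn]

end Pool.Agent.IW
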