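import Pool.Agent.IW.WinZ
import Pool.Agent.IW.AsUp
import Mathlib.MeasureTheory.OuterMeasure.BorelCantelli
import Mathlib.Analysis.PSeries

/-!
IW: almost surely every piece of s steps of the first k steps of the infinite walk has the size s ^ (3 / 4) up to the factor
k ^ o(1) (helper11; tails of the uniform walk: helper57, helper86).
-/

set_option autoImplicit false

open MeasureTheory Filter Topology
open scoped Classical

namespace Pool.Agent.IW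

open Res

open HexObs (SawN cS Saw oo up vx dx tf tip xc)

open HexObs.TOG (Pn)

open NTF (JJ)

/-- the lower tail of the size of the uniform walk -/
def AsLo : Prop := ∃ a : ℕ, ∀ Q : ℕ, ∃ C : ℝ, 0 < C ∧ ∀ (l : ℕ) (lam : ℝ), 1 ≤ l → 1 ≤ lam →
  Pn l {t | ∀ i, i ≤ l → lam * ‖JJ (vx oo up t i)‖ ≤ (l : ℝ) ^ (3 / 4 : ℝ)} ≤ C * (l : ℝ) ^ a / lam ^ Q

/-- far -/
def FarA (l : ℕ) (lam : ℝ) : Set (ℕ → Fin 3) := {w | ∃ q, q ≤ l ∧ lam * (l : ℝ) ^ (3 / 4 : ℝ) ≤ ‖ipos w q‖}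

/-- near -/
def NearA (l : ℕ) (lam : ℝ) : Set (ℕ → Fin 3) := {w | ∀ q, q ≤ l → lam * ‖ipos w q‖ ≤ (l : ℝ) ^ (3 / 4 : ℝ)}

lemma farA_loc (l : ℕ) (lam : ℝ) : Loc l (FarA l lam) := by
  rintro w w' e ⟨q, q1, q2⟩
  exact ⟨q, q1, by rwa [← ipos_loc q1 e]⟩

lemma nearA_loc (l : ℕ) (lam : ℝ) : Loc l (NearA l lam) := by
  intro w w' e h q hq
  rw [← ipos_loc hq e]
  exact h q hq

lemma law_far {l : ℕ} (hl : 0 < l) (lam : ℝ) :
    (law l).real (FarA l lam) = Pn l {t | ∃ i, i ≤ l ∧ lam * (l : ℝ) ^ (3 / 4 : ℝ) ≤ ‖JJ (vx oo up t i)‖} := by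
  rw [law_Pn (farA_loc l lam) le_rfl hl (fun w => by unfold FarA; simp only [Set.mem_setOf_eq, norm_ipos_rot])]
  congr 1
  ext t
  constructor
  · rintro ⟨q, q1, q2⟩
    exact ⟨q, q1, by rwa [ipos_sw q1] at q2⟩
  · rintro ⟨q, q1, q2⟩
    exact ⟨q, q1, by rwa [ipos_sw q1]⟩

lemma law_near {l : ℕ} (hl : 0 < l) (lam : ℝ) :
    (law l).real (NearA l lam) = Pn l {t | ∀ i, i ≤ l → lam * ‖JJ (vx oo up t i)‖ ≤ (l : ℝ) ^ (3 / 4 : ℝ)} := by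
  rw [law_Pn (nearA_loc l lam) le_rfl hl (fun w => by unfold NearA; simp only [Set.mem_setOf_eq, norm_ipos_rot])]
  congr 1
  ext t
  constructor
  · intro h q hq
    have := h q hq
    rwa [ipos_sw hq] at this
  · intro h q hq
    rw [ipos_sw hq]
    exact h q hq

/-- a piece of the first k steps with a wrong size -/
def BadK (δ : ℝ) (k : ℕ) : Set (ℕ → Fin 3) := {w | ∃ i l : ℕ, 1 ≤ l ∧ i + l ≤ k ∧
  sh i w ∈ FarA l ((k : ℝ) ^ δ) ∪ NearA l ((k : ℝ) ^ δ)}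

theorem bad_le (hLo : AsLo) {P : Measure (ℕ → Fin 3)} [IsProbabilityMeasure P]
    (hP : ∀ (η : ℕ → Fin 3) (m : ℕ), Tendsto (fun n => begins n m η) atTop (𝓝 (P.real {w | ∀ i, i < m → w i = η i})))
    {δ : ℝ} (hδ : 0 < δ) : ∃ C : ℝ, 0 < C ∧ ∀ k : ℕ, 1 ≤ k → P.real (BadK δ k) ≤ C * (1 / (k : ℝ) ^ 2) := by
  obtain ⟨a, hLo⟩ := hLo
  obtain ⟨C0, b, hC0, hZ⟩ := Zk_poly
  obtain ⟨Q, hQ⟩ := exists_nat_ge (((2 * b + a + 4 : ℕ) : ℝ) / δ)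
  obtain ⟨C1, hC1, hup⟩ := HexObs.TIP.NQ.asUp Q
  obtain ⟨C2, hC2, hlo⟩ := hLo Q
  refine ⟨4 * (C0 * 2 ^ b) ^ 2 * (C1 + C2), by positivity, fun k hk => ?_⟩
  have hk1 : (1 : ℝ) ≤ k := by exact_mod_cast hk
  have hk0 : (0 : ℝ) < k := by linarith
  have hlam : (1 : ℝ) ≤ (k : ℝ) ^ δ := Real.one_le_rpow hk1 hδ.le
  have hlam0 : (0 : ℝ) < (k : ℝ) ^ δ := by linarith
  -- one window
  have h1 : ∀ i l : ℕ, i ≤ k → 1 ≤ l → l ≤ k →
      P.real {w | sh i w ∈ FarA l ((k : ℝ) ^ δ) ∪ NearA l ((k : ℝ) ^ δ)} ≤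
        (C0 * 2 ^ b) ^ 2 * (C1 + C2) * ((k : ℝ) ^ (2 * b + a) / ((k : ℝ) ^ δ) ^ Q) := by
    intro i l hi hl hlk
    have hlk' : (l : ℝ) ≤ k := by exact_mod_cast hlk
    have hik' : (i : ℝ) ≤ k := by exact_mod_cast hi
    haveI := law_prob (NTSF.saw_nonempty l)
    have g1 := win_le hP i l ((farA_loc l ((k : ℝ) ^ δ)).union (nearA_loc l ((k : ℝ) ^ δ)))
    have g2 : (law l).real (FarA l ((k : ℝ) ^ δ) ∪ NearA l ((k : ℝ) ^ δ)) ≤
        (C1 + C2) * (k : ℝ) ^ a / ((k : ℝ) ^ δ) ^ Q := by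
      refine (measureReal_union_le _ _).trans ?_
      rw [law_far (by omega), law_near (by omega)]
      have u1 := hup l ((k : ℝ) ^ δ) hl hlam
      have u2 := hlo l ((k : ℝ) ^ δ) hl hlam
      have u3 : C1 / ((k : ℝ) ^ δ) ^ Q ≤ C1 * (k : ℝ) ^ a / ((k : ℝ) ^ δ) ^ Q := by
        have : C1 ≤ C1 * (k : ℝ) ^ a := le_mul_of_one_le_right hC1.le (one_le_pow₀ hk1)
        gcongr
      have u4 : C2 * (l : ℝ) ^ a / ((k : ℝ) ^ δ) ^ Q ≤ C2 * (k : ℝ) ^ a / ((k : ℝ) ^ δ) ^ Q := by gcongr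
      calc _ ≤ C1 * (k : ℝ) ^ a / ((k : ℝ) ^ δ) ^ Q + C2 * (k : ℝ) ^ a / ((k : ℝ) ^ δ) ^ Q :=
            add_le_add (u1.trans u3) (u2.trans u4)
        _ = _ := by ring
    have g3 : Zk i ≤ C0 * 2 ^ b * (k : ℝ) ^ b := by
      refine (hZ i).trans ?_
      rw [mul_assoc, ← mul_pow]
      refine mul_le_mul_of_nonneg_left (pow_le_pow_left₀ (by positivity) (by linarith) b) hC0.le
    have g4 : Zk l ≤ C0 * 2 ^ b * (k : ℝ) ^ b := by
      refine (hZ l).trans ?_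
      rw [mul_assoc, ← mul_pow]
      refine mul_le_mul_of_nonneg_left (pow_le_pow_left₀ (by positivity) (by linarith) b) hC0.le
    have g5 : Zk i * (Zk l * (law l).real (FarA l ((k : ℝ) ^ δ) ∪ NearA l ((k : ℝ) ^ δ))) ≤
        (C0 * 2 ^ b * (k : ℝ) ^ b) * ((C0 * 2 ^ b * (k : ℝ) ^ b) * ((C1 + C2) * (k : ℝ) ^ a / ((k : ℝ) ^ δ) ^ Q)) := by
      refine mul_le_mul g3 (mul_le_mul g4 g2 measureReal_nonneg (by positivity)) ?_ (by positivity)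
      exact mul_nonneg (Zk_pos l).le measureReal_nonneg
    refine (g1.trans g5).trans (le_of_eq ?_)
    rw [pow_add, two_mul b, pow_add]
    ring
  -- the union
  have h2 : BadK δ k ⊆ ⋃ p ∈ (Finset.range (k + 1)) ×ˢ (Finset.Icc 1 k),
      {w | sh p.1 w ∈ FarA p.2 ((k : ℝ) ^ δ) ∪ NearA p.2 ((k : ℝ) ^ δ)} := by
    rintro w ⟨i, l, hl, hil, hw⟩
    simp only [Set.mem_iUnion]
    refine ⟨(i, l), ?_, hw⟩
    rw [Finset.mem_product, Finset.mem_range, Finset.mem_Icc]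
    exact ⟨by omega, hl, by omega⟩
  have h3 : P.real (BadK δ k) ≤ ∑ p ∈ (Finset.range (k + 1)) ×ˢ (Finset.Icc 1 k),
      P.real {w | sh p.1 w ∈ FarA p.2 ((k : ℝ) ^ δ) ∪ NearA p.2 ((k : ℝ) ^ δ)} :=
    (measureReal_mono h2 (measure_ne_top P _)).trans (measureReal_biUnion_finset_le _ _)
  have h4 : ∑ p ∈ (Finset.range (k + 1)) ×ˢ (Finset.Icc 1 k),
      P.real {w | sh p.1 w ∈ FarA p.2 ((k : ℝ) ^ δ) ∪ NearA p.2 ((k : ℝ) ^ δ)} ≤
      ∑ p ∈ (Finset.range (k + 1)) ×ˢ (Finset.Icc 1 k),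
        (C0 * 2 ^ b) ^ 2 * (C1 + C2) * ((k : ℝ) ^ (2 * b + a) / ((k : ℝ) ^ δ) ^ Q) := by
    refine Finset.sum_le_sum fun p hp => ?_
    rw [Finset.mem_product, Finset.mem_range, Finset.mem_Icc] at hp
    exact h1 p.1 p.2 (by omega) hp.2.1 hp.2.2
  have h5 : (((Finset.range (k + 1)) ×ˢ (Finset.Icc 1 k)).card : ℝ) ≤ 4 * (k : ℝ) ^ 2 := by
    rw [Finset.card_product, Finset.card_range, Nat.card_Icc, Nat.add_sub_cancel]
    push_cast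
    nlinarith
  have h6 : (k : ℝ) ^ (2 * b + a + 4) ≤ ((k : ℝ) ^ δ) ^ Q := by
    rw [← Real.rpow_natCast ((k : ℝ) ^ δ) Q, ← Real.rpow_mul hk0.le, ← Real.rpow_natCast]
    refine Real.rpow_le_rpow_of_exponent_le hk1 ?_
    rw [div_le_iff₀ hδ] at hQ
    linarith
  refine h3.trans (h4.trans ?_)
  rw [Finset.sum_const, nsmul_eq_mul]
  have h7 : (k : ℝ) ^ (2 * b + a) / ((k : ℝ) ^ δ) ^ Q ≤ 1 / (k : ℝ) ^ 4 := by
    rw [div_le_div_iff₀ (by positivity) (by positivity), one_mul, ← pow_add]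
    exact h6
  calc (((Finset.range (k + 1)) ×ˢ (Finset.Icc 1 k)).card : ℝ) *
        ((C0 * 2 ^ b) ^ 2 * (C1 + C2) * ((k : ℝ) ^ (2 * b + a) / ((k : ℝ) ^ δ) ^ Q))
      ≤ 4 * (k : ℝ) ^ 2 * ((C0 * 2 ^ b) ^ 2 * (C1 + C2) * (1 / (k : ℝ) ^ 4)) := by gcongr
    _ = _ := by field_simp

/-- **almost surely all the pieces have the right size** -/
theorem as_size_of (hLo : AsLo) {P : Measure (ℕ → Fin 3)} [IsProbabilityMeasure P]
    (hP : ∀ (η : ℕ → Fin 3) (m : ℕ), Tendsto (fun n => begins n m η) atTop (𝓝 (P.real {w | ∀ i, i < m → w i = η i}))) :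
    ∀ᵐ w ∂P, ∀ δ : ℝ, 0 < δ → ∀ᶠ k : ℕ in atTop, ∀ i j : ℕ, i < j → j ≤ k →
      ‖ipos w j - ipos w i‖ ≤ (k : ℝ) ^ δ * ((j : ℝ) - i) ^ (3 / 4 : ℝ) ∧
      ∃ l : ℕ, i ≤ l ∧ l ≤ j ∧ (k : ℝ) ^ (-δ) * ((j : ℝ) - i) ^ (3 / 4 : ℝ) ≤ ‖ipos w l - ipos w i‖ := by
  have h1 : ∀ q : ℕ, ∀ᵐ w ∂P, ∀ᶠ k : ℕ in atTop, w ∉ BadK (1 / ((q : ℝ) + 1)) k := by
    intro q
    obtain ⟨C, hC, hb⟩ := bad_le hLo hP (δ := 1 / ((q : ℝ) + 1)) (by positivity)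
    refine ae_eventually_notMem ?_
    have hs : Summable fun k : ℕ => C * (1 / (k : ℝ) ^ 2) := (Real.summable_one_div_nat_pow.2 (by norm_num)).mul_left C
    have h2 : ∀ k : ℕ, P (BadK (1 / ((q : ℝ) + 1)) k) ≤ ENNReal.ofReal (C * (1 / (k : ℝ) ^ 2)) := by
      intro k
      rcases Nat.eq_zero_or_pos k with hk | hk
      · have h3 : BadK (1 / ((q : ℝ) + 1)) k = ∅ := by
          ext w
          simp only [Set.mem_empty_iff_false, iff_false]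
          rintro ⟨i, l, hl, hil, -⟩
          omega
        rw [h3, measure_empty]
        exact bot_le
      · rw [← ofReal_measureReal]
        exact ENNReal.ofReal_le_ofReal (hb k hk)
    exact ne_top_of_le_ne_top hs.tsum_ofReal_ne_top (ENNReal.tsum_le_tsum h2)
  filter_upwards [ae_all_iff.2 h1] with w hw δ hδ
  obtain ⟨q, hq⟩ := exists_nat_one_div_lt hδ
  filter_upwards [hw q, eventually_ge_atTop 1] with k hk hk1 i j hij hjk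
  have hk1' : (1 : ℝ) ≤ k := by exact_mod_cast hk1
  have hk0 : (0 : ℝ) < k := by linarith
  have e1 : i + (j - i) = j := by omega
  have e2 : ((j - i : ℕ) : ℝ) = (j : ℝ) - i := by
    rw [Nat.cast_sub hij.le]
  have hle : (k : ℝ) ^ (1 / ((q : ℝ) + 1)) ≤ (k : ℝ) ^ δ := Real.rpow_le_rpow_of_exponent_le hk1' hq.le
  have h2 : sh i w ∉ FarA (j - i) ((k : ℝ) ^ (1 / ((q : ℝ) + 1))) := fun h =>
    hk ⟨i, j - i, by omega, by omega, Or.inl h⟩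
  have h3 : sh i w ∉ NearA (j - i) ((k : ℝ) ^ (1 / ((q : ℝ) + 1))) := fun h =>
    hk ⟨i, j - i, by omega, by omega, Or.inr h⟩
  have hs0 : (0 : ℝ) ≤ ((j : ℝ) - i) ^ (3 / 4 : ℝ) := by
    rw [← e2]
    positivity
  constructor
  · by_contra hc
    refine h2 ⟨j - i, le_rfl, ?_⟩
    rw [norm_ipos_sh, e1, e2]
    exact (mul_le_mul_of_nonneg_right hle hs0).trans (not_le.1 hc).le
  · by_contra hc
    push Not at hc
    refine h3 fun p hp => ?_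
    rw [norm_ipos_sh, e2]
    have h4 := hc (i + p) (by omega) (by omega)
    have h5 : (k : ℝ) ^ δ * ‖ipos w (i + p) - ipos w i‖ ≤ ((j : ℝ) - i) ^ (3 / 4 : ℝ) := by
      have h6 := mul_le_mul_of_nonneg_left h4.le (Real.rpow_nonneg hk0.le δ)
      rw [← mul_assoc, ← Real.rpow_add hk0, add_neg_cancel, Real.rpow_zero, one_mul] at h6
      exact h6
    exact (mul_le_mul_of_nonneg_right hle (norm_nonneg _)).trans h5

end Pool.Agent.IW
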