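import Pool.Agent.IW.TipO
import Pool.Agent.IW.NQ
import Pool.Agent.IW.Rev
import Pool.Agent.TIP.StrN

/-!
IW: the words with a fast start, or with a return near their start at the time k; the tip lemma for them; the end of a walk
with a good decomposition.
-/

set_option autoImplicit false

namespace HexObs

namespace TIP

open Finset TS SDN SIM NTA NTW Nf

open scoped ENNReal

open NTF (JJ)

namespace NQ

lemma JJ_rot {c : Pt} (hc : c ∈ dirs) (v : Pt) : ‖JJ (mulE c v)‖ = ‖JJ v‖ := by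
  have e1 := NTF.JJ_norm (mulE c v)
  have e2 := NTF.JJ_norm v
  rw [nrm_mulE, mem_dirs.1 hc, one_mul, ← e2] at e1
  exact (sq_eq_sq₀ (norm_nonneg _) (norm_nonneg _)).1 e1

lemma JJ_dir {c : Pt} (hc : c ∈ dirs) : ‖JJ c‖ = 1 := by
  have e1 := NTF.JJ_norm c
  rw [mem_dirs.1 hc] at e1
  have h0 := norm_nonneg (JJ c)
  have : ‖JJ c‖ ^ 2 = 1 ^ 2 := by rw [e1]; norm_num
  exact (sq_eq_sq₀ h0 zero_le_one).1 this

lemma JJ_oo : ‖JJ oo‖ = 0 := by
  have e1 := NTF.JJ_norm oo
  have e2 : nrm oo = 0 := by decide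
  rw [e2, Int.cast_zero] at e1
  exact pow_eq_zero_iff (two_ne_zero) |>.1 e1

/-- the walk is too fast up to the time k, or its first k letters are in the class E -/
def BadE (k : ℕ) (ρ : ℝ) (E : Set (List Bool)) : Set (List Bool) :=
  {t | (∃ i, i ≤ k ∧ i ≤ t.length ∧ ρ < ‖JJ (vx oo up t i)‖) ∨ (k ≤ t.length ∧ t.take k ∈ E)}

/-- the bad words, with or without the first letter -/
def Bd (k : ℕ) (ρ : ℝ) (E : Set (List Bool)) : Set (List Bool) := {t | t ∈ BadE k ρ E ∨ t.drop 1 ∈ BadE k ρ E}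

lemma bad_app {k : ℕ} {ρ : ℝ} {E : Set (List Bool)} {L x : List Bool} (h : L ∈ BadE k ρ E) : L ++ x ∈ BadE k ρ E := by
  rcases h with ⟨i, h1, h2, h3⟩ | ⟨h1, h2⟩
  · refine Or.inl ⟨i, h1, by rw [List.length_append]; omega, ?_⟩
    rwa [vx_append (by omega)]
  · refine Or.inr ⟨by rw [List.length_append]; omega, ?_⟩
    rwa [List.take_append_of_le_length h1]

lemma bd_app {k : ℕ} {ρ : ℝ} {E : Set (List Bool)} {L x : List Bool} (hρ : 0 ≤ ρ) (hk : 0 < k) (h : L ∈ Bd k ρ E) :
    L ++ x ∈ Bd k ρ E := by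
  rcases h with h | h
  · exact Or.inl (bad_app h)
  · refine Or.inr ?_
    rcases Nat.eq_zero_or_pos L.length with h0 | h0
    · exfalso
      rw [List.length_eq_zero_iff] at h0
      rw [h0] at h
      rcases h with ⟨i, h1, h2, h3⟩ | ⟨h1, h2⟩
      · have h2 : i ≤ 0 := h2
        have h4 : i = 0 := by omega
        rw [h4] at h3
        have h5 : vx oo up (([] : List Bool).drop 1) 0 = oo := rfl
        rw [h5, JJ_oo] at h3
        linarith
      · have h1 : k ≤ 0 := h1
        omega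
    · rw [List.drop_append_of_le_length (by omega)]
      exact bad_app h

/-- the vertices without the first letter -/
lemma drop1_norm (L : List Bool) (i : ℕ) :
    ‖JJ (vx oo up L (1 + i))‖ ≤ ‖JJ (vx oo up (L.drop 1) i)‖ + 1 ∧
      ‖JJ (vx oo up (L.drop 1) i)‖ ≤ ‖JJ (vx oo up L (1 + i))‖ + 1 := by
  obtain ⟨c, hc, -, h⟩ := drop_frame' L 1
  have h1 := h i
  have e1 : ‖JJ (vx oo up L 1)‖ = 1 := by
    have h2 : vx oo up L 1 = oo + up := rfl
    have h3 : (oo : Pt) + up = up := by decide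
    rw [h2, h3]
    exact JJ_dir up_dirs
  have e2 : JJ (vx oo up L (1 + i)) = JJ (vx oo up L 1) + JJ (mulE c (vx oo up (L.drop 1) i)) := by
    rw [h1, NTF.JJ_add]
  have e3 := JJ_rot hc (vx oo up (L.drop 1) i)
  constructor
  · rw [e2]
    refine (norm_add_le _ _).trans ?_
    rw [e3, e1, add_comm]
  · rw [← e3]
    have e4 : JJ (mulE c (vx oo up (L.drop 1) i)) = JJ (vx oo up L (1 + i)) - JJ (vx oo up L 1) := by
      rw [e2]
      ring
    rw [e4]
    refine (norm_sub_le _ _).trans ?_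
    rw [e1]

/-- a good tip has a bridge of the scale b -/
lemma on_far {b : ℕ} {L : List Bool} {x : ℝ} (hL : OnB b L) (hx : 2 * x < 2 ^ b) :
    ∃ i, 1 ≤ i ∧ i ≤ L.length ∧ x < ‖JJ (vx oo up L i)‖ := by
  obtain ⟨A', B, rfl, c5, c6⟩ := hL
  have h5 := bridge_disp (t := A' ++ B) (Y := A') (H := B) (X := []) (by rw [List.append_nil]) c5
  have hb' : (2 : ℝ) ^ b ≤ hgt B := by exact_mod_cast c6
  rw [NTF.JJ_sub] at h5
  have h6 := norm_sub_le (JJ (vx oo up (A' ++ B) (A'.length + B.length))) (JJ (vx oo up (A' ++ B) A'.length))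
  by_contra hc
  push Not at hc
  have k0 : ∀ i, i ≤ (A' ++ B).length → ‖JJ (vx oo up (A' ++ B) i)‖ ≤ max x 0 := by
    intro i hi
    rcases Nat.eq_zero_or_pos i with h0 | h0
    · rw [h0]
      have : vx oo up (A' ++ B) 0 = oo := rfl
      rw [this, JJ_oo]
      exact le_max_right _ _
    · exact (hc i h0 hi).trans (le_max_left _ _)
  have k1 := k0 (A'.length + B.length) (by rw [List.length_append])
  have k2 := k0 A'.length (by rw [List.length_append]; omega)
  rcases le_total x 0 with h0 | h0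
  · rw [max_eq_right h0] at k1 k2
    have : (0 : ℝ) < 2 ^ b := by positivity
    linarith
  · rw [max_eq_left h0] at k1 k2
    linarith

/-- a word whose tip sits on a long bridge before the time k is fast -/
lemma bad_on {k b : ℕ} {ρ : ℝ} {E : Set (List Bool)} {A Z1 Z2 : List Bool} (hρ : 2 * (ρ + 1) < 2 ^ b) (hA : OnB b A)
    (h : A ++ (Z1 ++ Z2) ∈ Bd k ρ E) : A ++ Z1 ∈ Bd k ρ E := by
  obtain ⟨i, i1, i2, i3⟩ := on_far hA hρ
  have hlA : A.length ≤ (A ++ Z1).length := by rw [List.length_append]; omega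
  have i4 : ρ + 1 < ‖JJ (vx oo up (A ++ Z1) i)‖ := by rwa [vx_append (by omega)]
  rcases h with h | h
  · left
    rcases h with ⟨j, h1, h2, h3⟩ | ⟨h1, h2⟩
    · rcases Nat.lt_or_ge (A ++ Z1).length j with h4 | h4
      · exact Or.inl ⟨i, by omega, by omega, by linarith⟩
      · refine Or.inl ⟨j, h1, h4, ?_⟩
        rw [← List.append_assoc, vx_append (by omega)] at h3
        exact h3
    · rcases Nat.lt_or_ge (A ++ Z1).length k with h4 | h4
      · exact Or.inl ⟨i, by omega, by omega, by linarith⟩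
      · refine Or.inr ⟨h4, ?_⟩
        rw [← List.append_assoc, List.take_append_of_le_length h4] at h2
        exact h2
  · right
    have g0 : 1 ≤ (A ++ Z1).length := by omega
    have g1 : (A ++ (Z1 ++ Z2)).drop 1 = (A ++ Z1).drop 1 ++ Z2 := by
      rw [← List.append_assoc, List.drop_append_of_le_length g0]
    rw [g1] at h
    have g2 : ρ < ‖JJ (vx oo up ((A ++ Z1).drop 1) (i - 1))‖ := by
      have := (drop1_norm (A ++ Z1) (i - 1)).1
      rw [show 1 + (i - 1) = i by omega] at this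
      linarith
    have g3 : ((A ++ Z1).drop 1).length = (A ++ Z1).length - 1 := by rw [List.length_drop]
    rcases h with ⟨j, h1, h2, h3⟩ | ⟨h1, h2⟩
    · rcases Nat.lt_or_ge ((A ++ Z1).drop 1).length j with h4 | h4
      · exact Or.inl ⟨i - 1, by omega, by omega, g2⟩
      · refine Or.inl ⟨j, h1, h4, ?_⟩
        rw [vx_append (by omega)] at h3
        exact h3
    · rcases Nat.lt_or_ge ((A ++ Z1).drop 1).length k with h4 | h4
      · exact Or.inl ⟨i - 1, by omega, by omega, g2⟩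
      · refine Or.inr ⟨h4, ?_⟩
        rw [List.take_append_of_le_length h4] at h2
        exact h2

/-- **the tip lemma for the bad words** -/
theorem tip_bad (η : ℝ) (hη : 0 < η) : ∃ (C lam : ℝ) (j0 : ℕ), 1 ≤ C ∧ 1 < lam ∧
    ∀ (b j K k : ℕ) (ρ : ℝ) (E : Set (List Bool)), 1 ≤ j → j + j0 ≤ b → b ≤ K → 0 < k → 0 ≤ ρ → 2 * (ρ + 1) < 2 ^ b →
      gf ((WL K ∩ Bd k ρ E) ∩ GT b η) * Xb b ≤ ENNReal.ofReal (C * (lam ^ j)⁻¹ * Ub K) * Xb K ^ 2 +
        ENNReal.ofReal (C ^ j) * gf (WL (K + 3) ∩ Bd k ρ E) := by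
  obtain ⟨C, lam, j0, hC, hlam, h⟩ := tipxoJ η hη
  refine ⟨C, lam, j0, hC, hlam, fun b j K k ρ E h1 h2 h3 hk h0 h4 => ?_⟩
  have key := h b j K (WL K ∩ Bd k ρ E) (WL K ∩ Bd k ρ E) ∅ 0 (gf (WL (K + 3) ∩ Bd k ρ E)) h1 h2 h3
    Set.inter_subset_left (fun A Z1 Z2 a1 a2 a3 a4 _ a6 => ⟨⟨?_, fun i hi dir => ?_⟩, bad_on h4 a6 a1.2⟩) le_rfl ?_ ?_
  · rwa [add_zero] at key
  · have := SA_take a1.1.1 (A ++ Z1).length
    rwa [← List.append_assoc, List.take_left' rfl] at this
  · have := a1.1.2 i (by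
      rw [← List.append_assoc, List.length_append]
      omega) dir
    rwa [← List.append_assoc, vx_append (by omega)] at this
  · have e : {Z : List Bool | Z ∈ BU ∧ hgt Z ≤ 2 ^ b ∧ Z ∈ (∅ : Set (List Bool))} = ∅ := by
      ext Z
      simp
    rw [e]
    simp [gf]
  · refine gf_mono ?_
    rintro t ⟨ht, L, hL, x, hx, rfl⟩
    refine ⟨EnsW.glue_WL (R := 2 ^ b) (Nat.pow_le_pow_right (by norm_num) h3) hL.1 ?_ ht, bd_app h0 hk hL.2⟩
    exact hx

/-! ### Removal of the first letter -/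

lemma row_rot' {c : Pt} (hc : c ∈ dirs) {v : Pt} {R : ℤ} (h : ∀ dir, |row dir (mulE c v)| ≤ R) (dir : Bool) :
    |row dir v| ≤ 2 * R + 2 := by
  have h1 := h false
  have h2 := h true
  clear h
  obtain ⟨x, y⟩ := v
  simp only [dirs, mem_insert, mem_singleton] at hc
  unfold row lvl ip hd up at *
  rw [abs_le] at *
  simp only [Bool.false_eq_true, if_false, if_true] at h1 h2
  rcases hc with rfl | rfl | rfl | rfl | rfl | rfl <;> cases dir <;>
    simp only [mulE, Bool.false_eq_true, if_false, if_true] at * <;> constructor <;> omega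

lemma drop1_WL {K : ℕ} {L : List Bool} (hL : L ∈ WL K) : L.drop 1 ∈ WL (K + 3) := by
  refine ⟨SA_drop hL.1 1, fun i hi dir => ?_⟩
  have hK : (2 : ℤ) ^ (K + 3) = 8 * 2 ^ K := by rw [pow_add]; ring
  have hK1 : (1 : ℤ) ≤ 2 ^ K := one_le_pow₀ (by norm_num)
  rw [hK]
  rw [List.length_drop] at hi
  rcases Nat.eq_zero_or_pos i with h0 | h0
  · rw [h0]
    have e : row dir (vx oo up (L.drop 1) 0) = 0 := by
      show row dir oo = 0
      cases dir <;> decide
    rw [e, abs_zero]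
    positivity
  · obtain ⟨c, hc, -, h⟩ := drop_frame' L 1
    have h1 := h i
    have h2 : ∀ dir, |row dir (mulE c (vx oo up (L.drop 1) i))| ≤ 2 ^ K + 2 := by
      intro dir
      have h3 := hL.2 (1 + i) (by omega) dir
      have h4 : mulE c (vx oo up (L.drop 1) i) = vx oo up L (1 + i) + -(vx oo up L 1) := by
        rw [h1]
        abel
      have h5 : |row dir (-(vx oo up L 1))| ≤ 1 := by
        have : vx oo up L 1 = up := by
          have h6 : vx oo up L 1 = oo + up := rfl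
          rw [h6]
          decide
        rw [this]
        cases dir <;> decide
      rw [h4]
      exact (EnsW.row_add h3 h5).trans (by linarith)
    have h6 := row_rot' hc h2 dir
    linarith

lemma bd_mass (K k : ℕ) (ρ : ℝ) (E : Set (List Bool)) : gf (WL K ∩ Bd k ρ E) ≤ 4 * gf (WL (K + 3) ∩ BadE k ρ E) := by
  obtain ⟨T, hT⟩ : ∃ T : Set (List Bool), T = WL (K + 3) ∩ BadE k ρ E := ⟨_, rfl⟩
  obtain ⟨S, hS⟩ : ∃ S : Set (List Bool), S = {L | L ∈ WL K ∧ L.drop 1 ∈ BadE k ρ E} := ⟨_, rfl⟩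
  have hcov : WL K ∩ Bd k ρ E ⊆ T ∪ S := by
    rintro L ⟨h1, h2 | h2⟩
    · left
      rw [hT]
      exact ⟨⟨h1.1, fun i hi dir => (h1.2 i hi dir).trans (pow_le_pow_right₀ (by norm_num) (by omega))⟩, h2⟩
    · right
      rw [hS]
      exact ⟨h1, h2⟩
  have k2 : gf S ≤ 1 * (gf T * gf {t : List Bool | t.length ≤ 1}) := by
    refine gf_le_pair 1 (fun L => L.drop 1) (fun L => L.take 1) ?_ ?_ ?_ ?_
    · intro L hL
      rw [hS] at hL
      rw [hT]
      exact ⟨drop1_WL hL.1, hL.2⟩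
    · intro L _
      show (L.take 1).length ≤ 1
      rw [List.length_take]
      omega
    · intro s _ t _ h2 h3
      rw [← List.take_append_drop 1 s, ← List.take_append_drop 1 t]
      exact congrArg₂ (· ++ ·) h3 h2
    · intro L _
      rw [one_mul, mul_comm, ← wE_append, List.take_append_drop]
  rw [← hT]
  calc gf (WL K ∩ Bd k ρ E) ≤ gf T + gf S := (gf_mono hcov).trans (gf_union_le _ _)
    _ ≤ gf T + 1 * (gf T * 3) := add_le_add_right (k2.trans (mul_le_mul_right (mul_le_mul_right RevM.gf_short _) _)) _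
    _ = 4 * gf T := by ring

/-! ### The end of the walk -/

/-- the reversed walk of a walk with the end Y starts with the reversed end without its first letter -/
lemma rvw_take {A Y : List Bool} (hY : 0 < Y.length) :
    ∃ R, Pool.Agent.IW.rvw (A ++ Y) = (rev Y).drop 1 ++ R := by
  obtain ⟨Y', x, hs, hl⟩ := Pool.Agent.IW.split_last hY rfl
  refine ⟨rev A ++ [x], ?_⟩
  rw [hs, ← List.append_assoc, Pool.Agent.IW.rvw_app]
  unfold rev
  simp

/-- **the end of a walk with a good decomposition** -/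
theorem dec_good {b D k : ℕ} {η ρ : ℝ} {E : Set (List Bool)} {t : List Bool} (hη : 0 < η) (hρ : 2 * (ρ + 1) < 2 ^ b)
    (ht : t ∈ DecQ b D η {Y | (rev Y).drop 1 ∈ BadE k ρ E}) :
    Pool.Agent.IW.rvw t ∉ BadE k ρ E := by
  obtain ⟨A, Y, rfl, hG, -, hQ⟩ := ht
  have hQ : ¬ (rev Y).drop 1 ∈ BadE k ρ E := hQ
  have h1 : 0 < ((cs b (rev Y)).card : ℝ) := lt_of_lt_of_le (mul_pos hη (Ub_pos b)) hG
  have h2 : 0 < (cs b (rev Y)).card := by exact_mod_cast h1
  obtain ⟨j, hj⟩ := card_pos.1 h2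
  obtain ⟨c1, c2, c3, c4⟩ := mem_cs.1 hj
  obtain ⟨i, i1, i2, i3⟩ := on_far c4 hρ
  rw [List.length_take] at i2
  have i4 : ρ + 1 < ‖JJ (vx oo up (rev Y) i)‖ := by
    have e : (rev Y).take j ++ (rev Y).drop j = rev Y := List.take_append_drop _ _
    rw [← e, vx_append (by rw [List.length_take]; omega)]
    exact i3
  have h3 := (drop1_norm (rev Y) (i - 1)).1
  rw [show 1 + (i - 1) = i by omega] at h3
  have h4 : ((rev Y).drop 1).length = (rev Y).length - 1 := by rw [List.length_drop]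
  have h5 : k < i - 1 := by
    by_contra hc
    exact hQ (Or.inl ⟨i - 1, not_lt.1 hc, by omega, by linarith⟩)
  have h6 := rev_length Y
  obtain ⟨R, hR⟩ := rvw_take (A := A) (Y := Y) (by omega)
  rw [hR]
  rintro (⟨q, q1, q2, q3⟩ | ⟨q1, q2⟩)
  · rw [vx_append (by omega)] at q3
    exact hQ (Or.inl ⟨q, q1, by omega, q3⟩)
  · rw [List.take_append_of_le_length (by omega)] at q2
    exact hQ (Or.inr ⟨by omega, q2⟩)

end NQ

end TIP

end HexObs
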