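import Pool.Agent.IW.Trans
import Pool.Agent.IW.Word
import Pool.Agent.SIM.LawS

/-!
IW: events of the first k steps: the local limit on them, the dictionary with the words, the transfer for the measure of the
infinite walk.
-/

set_option autoImplicit false

open MeasureTheory Filter Topology
open scoped Classical

namespace Pool.Agent.IW

open Res

open HexObs (SawN cS Saw oo up vx dx tf tip xc)

open HexObs.TOG (Pn)

open NTF (JJ)

/-- events of the first k steps -/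
def Loc (k : ℕ) (A : Set (ℕ → Fin 3)) : Prop := ∀ w w' : ℕ → Fin 3, (∀ i, i < k → w i = w' i) → w ∈ A → w' ∈ A

lemma Loc.compl {k : ℕ} {A : Set (ℕ → Fin 3)} (h : Loc k A) : Loc k Aᶜ := fun w w' e hw hw' =>
  hw (h w' w (fun i hi => (e i hi).symm) hw')

lemma Loc.union {k : ℕ} {A B : Set (ℕ → Fin 3)} (hA : Loc k A) (hB : Loc k B) : Loc k (A ∪ B) := fun w w' e hw =>
  hw.imp (hA w w' e) (hB w w' e)

lemma Loc.open' {k : ℕ} {A : Set (ℕ → Fin 3)} (h : Loc k A) : IsOpen A := by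
  have e : A = ⋃ η ∈ A, cyl k η := by
    ext w
    simp only [Set.mem_iUnion]
    constructor
    · intro hw
      exact ⟨w, hw, fun _ _ => rfl⟩
    · rintro ⟨η, hη, hw⟩
      exact h η w (fun i hi => (hw i hi).symm) hη
  rw [e]
  exact isOpen_biUnion fun η _ => (clopen_cyl _ η).isOpen

lemma Loc.clopen {k : ℕ} {A : Set (ℕ → Fin 3)} (h : Loc k A) : IsClopen A :=
  ⟨isOpen_compl_iff.1 h.compl.open', h.open'⟩

lemma Loc.meas {k : ℕ} {A : Set (ℕ → Fin 3)} (h : Loc k A) : MeasurableSet A := h.open'.measurableSet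

lemma Loc.sum {k : ℕ} {A : Set (ℕ → Fin 3)} (h : Loc k A) (μ : Measure (ℕ → Fin 3)) [IsFiniteMeasure μ] :
    μ.real A = ∑ f ∈ (Finset.univ : Finset (Fin k → Fin 3)).filter (fun f => ext f ∈ A), μ.real (cyl k (ext f)) := by
  have e : A = ⋃ f ∈ (Finset.univ : Finset (Fin k → Fin 3)).filter (fun f => ext f ∈ A), cyl k (ext f) := by
    ext w
    simp only [Set.mem_iUnion, Finset.mem_filter, Finset.mem_univ, true_and]
    constructor
    · intro hw
      refine ⟨fun i => w i, h w _ (fun i hi => ?_) hw, fun i hi => ?_⟩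
      · rw [ext_lt _ hi]
      · rw [ext_lt _ hi]
    · rintro ⟨f, hf, hw⟩
      exact h _ w (fun i hi => (hw i hi).symm) hf
  conv_lhs => rw [e]
  refine measureReal_biUnion_finset ?_ fun f _ => (clopen_cyl k (ext f)).isOpen.measurableSet
  intro f _ g _ hfg
  refine Set.disjoint_left.2 fun w h1 h2 => hfg ?_
  funext i
  have a1 := h1 i i.2
  have a2 := h2 i i.2
  rw [ext_lt _ i.2] at a1 a2
  exact a1.symm.trans a2

/-- the local limit, the events of the first k steps -/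
theorem law_lim {P : Measure (ℕ → Fin 3)} [IsProbabilityMeasure P]
    (hP : ∀ (η : ℕ → Fin 3) (m : ℕ), Tendsto (fun n => begins n m η) atTop (𝓝 (P.real {w | ∀ i, i < m → w i = η i})))
    {k : ℕ} {A : Set (ℕ → Fin 3)} (h : Loc k A) : Tendsto (fun n => (law n).real A) atTop (𝓝 (P.real A)) := by
  rw [h.sum P]
  have h1 : Tendsto (fun n => ∑ f ∈ (Finset.univ : Finset (Fin k → Fin 3)).filter (fun f => ext f ∈ A),
      (law n).real (cyl k (ext f))) atTop (𝓝 (∑ f ∈ (Finset.univ : Finset (Fin k → Fin 3)).filter (fun f => ext f ∈ A),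
        P.real (cyl k (ext f)))) := by
    refine tendsto_finsetSum _ fun f _ => (hP (ext f) k).congr' ?_
    filter_upwards [eventually_ge_atTop k] with n hn
    exact (law_cyl hn (ext f)).symm
  refine h1.congr fun n => ?_
  haveI := law_prob (NTSF.saw_nonempty n)
  exact (h.sum (law n)).symm

lemma law_real {n k : ℕ} {A : Set (ℕ → Fin 3)} (h : Loc k A) :
    (law n).real A = (((saw n).filter (fun s => ext s ∈ A)).card : ℝ) / ((saw n).card : ℝ) := by
  unfold Measure.real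
  rw [law_apply n h.meas, ENNReal.toReal_div, ENNReal.toReal_natCast, ENNReal.toReal_natCast]

lemma ext_rot {n k : ℕ} {A : Set (ℕ → Fin 3)} (h : Loc k A) (hk : k ≤ n) (s : Fin n → Fin 3) :
    ext (NTSF.rot s) ∈ A ↔ (fun i => ext s i + 1) ∈ A := by
  have e : ∀ i, i < k → ext (NTSF.rot s) i = ext s i + 1 := by
    intro i hi
    rw [ext_lt _ (by omega), ext_lt _ (by omega)]
    rfl
  exact ⟨h _ _ e, h _ _ fun i hi => (e i hi).symm⟩

/-- the dictionary -/
lemma law_Pn {n k : ℕ} {A : Set (ℕ → Fin 3)} (h : Loc k A) (hk : k ≤ n) (hn : 0 < n)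
    (hr : ∀ w : ℕ → Fin 3, (fun i => w i + 1) ∈ A ↔ w ∈ A) :
    (law n).real A = Pn n {t | ext (NTF.sw n t) ∈ A} := by
  rw [law_real h]
  have h1 := NTSF.card_saw hn (fun s => ext s ∈ A) (fun s => (ext_rot h hk s).trans (hr _))
  have h2 := card_saw_eq hn
  have h3 := cS_pos hn
  unfold Pn
  have e1 : ((saw n).card : ℝ) = 3 / 2 * (cS n : ℝ) := by linarith
  have e2 : (((saw n).filter (fun s => ext s ∈ A)).card : ℝ) =
      3 / 2 * ({t | t ∈ SawN n ∧ t ∈ {t | ext (NTF.sw n t) ∈ A}}.ncard : ℝ) := by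
    have h4 : (2 : ℝ) * (((saw n).filter (fun s => ext s ∈ A)).card : ℝ) =
        3 * ({t | t ∈ SawN n ∧ ext (NTF.sw n t) ∈ A}.ncard : ℝ) := by
      rw [saw_eq]
      exact_mod_cast h1
    have h5 : {t | t ∈ SawN n ∧ t ∈ {t | ext (NTF.sw n t) ∈ A}} = {t | t ∈ SawN n ∧ ext (NTF.sw n t) ∈ A} := rfl
    rw [h5]
    linarith
  rw [e1, e2]
  field_simp

lemma sw_take {n k : ℕ} {A : Set (ℕ → Fin 3)} (h : Loc k A) (hk : k ≤ n) (t : List Bool) :
    ext (NTF.sw n t) ∈ A ↔ ext (NTF.sw k (t.take k)) ∈ A := by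
  have e : ∀ i, i < k → ext (NTF.sw n t) i = ext (NTF.sw k (t.take k)) i := by
    intro i hi
    rw [ext_lt _ (by omega), ext_lt _ hi]
    show NTF.aa (dx up t i) = NTF.aa (dx up (t.take k) i)
    rw [dx_take t k i (by omega)]
  exact ⟨h _ _ e, h _ _ fun i hi => (e i hi).symm⟩

lemma ipos_sw {n i : ℕ} (hi : i ≤ n) (t : List Bool) : ipos (ext (NTF.sw n t)) i = JJ (vx oo up t i) := by
  rw [ipos_ext _ hi]
  exact NTSF.pos_sw n t i hi

lemma ipos_loc {i k : ℕ} (hi : i ≤ k) {w w' : ℕ → Fin 3} (h : ∀ i, i < k → w i = w' i) : ipos w i = ipos w' i := by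
  unfold ipos
  refine Finset.sum_congr rfl fun j hj => ?_
  rw [Finset.mem_range] at hj
  rw [h j (by omega)]

lemma ipos_rot (w : ℕ → Fin 3) (i : ℕ) : ipos (fun i => w i + 1) i = NTSF.om * ipos w i := by
  unfold ipos
  rw [Finset.mul_sum]
  exact Finset.sum_congr rfl fun j _ => NTSF.step_rot j (w j)

lemma norm_ipos_rot (w : ℕ → Fin 3) (i : ℕ) : ‖ipos (fun i => w i + 1) i‖ = ‖ipos w i‖ := by
  rw [ipos_rot, norm_mul, NTSF.om_norm, one_mul]

/-- the event with its rotations -/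
def sym (A : Set (ℕ → Fin 3)) : Set (ℕ → Fin 3) := {w | ∃ a : Fin 3, (fun i => w i + a) ∈ A}

lemma sub_sym (A : Set (ℕ → Fin 3)) : A ⊆ sym A := fun w hw => ⟨0, by simpa using hw⟩

lemma Loc.sym {k : ℕ} {A : Set (ℕ → Fin 3)} (h : Loc k A) : Loc k (sym A) := by
  rintro w w' e ⟨a, ha⟩
  refine ⟨a, h _ _ (fun i hi => ?_) ha⟩
  rw [e i hi]

lemma sym_rot (A : Set (ℕ → Fin 3)) (w : ℕ → Fin 3) : (fun i => w i + 1) ∈ sym A ↔ w ∈ sym A := by
  constructor
  · rintro ⟨a, ha⟩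
    refine ⟨1 + a, ?_⟩
    have e : (fun i => w i + (1 + a)) = fun i => w i + 1 + a := by
      funext i
      rw [add_assoc]
    rw [e]
    exact ha
  · rintro ⟨a, ha⟩
    refine ⟨a - 1, ?_⟩
    have e : (fun i => w i + 1 + (a - 1)) = fun i => w i + a := by
      funext i
      rw [add_assoc, add_sub_cancel]
    show (fun i => w i + 1 + (a - 1)) ∈ A
    rw [e]
    exact ha

lemma law_rot1 {n k : ℕ} {A : Set (ℕ → Fin 3)} (h : Loc k A) (hk : k ≤ n) :
    (law n).real {w | (fun i => w i + 1) ∈ A} = (law n).real A := by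
  have h' : Loc k {w : ℕ → Fin 3 | (fun i => w i + 1) ∈ A} := by
    intro w w' e hw
    exact h (fun i => w i + 1) (fun i => w' i + 1) (fun i hi => by show w i + 1 = w' i + 1; rw [e i hi]) hw
  rw [law_real h, law_real h']
  congr 2
  refine Finset.card_bij (fun s _ => NTSF.rot s) ?_ ?_ ?_
  · intro s hs
    rw [Finset.mem_filter] at hs ⊢
    refine ⟨?_, (ext_rot h hk s).2 hs.2⟩
    have := hs.1
    rw [saw_eq] at this ⊢
    exact NTSF.rot_mem.2 this
  · intro s _ s' _ hss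
    funext i
    have : s i + 1 = s' i + 1 := congrFun hss i
    exact add_right_cancel this
  · intro s hs
    rw [Finset.mem_filter] at hs
    have e : NTSF.rot (fun i => s i - 1) = s := by
      funext i
      show s i - 1 + 1 = s i
      rw [sub_add_cancel]
    refine ⟨fun i => s i - 1, ?_, e⟩
    rw [Finset.mem_filter]
    refine ⟨?_, ?_⟩
    · have := hs.1
      rw [saw_eq] at this ⊢
      rw [← NTSF.rot_mem, e]
      exact this
    · refine (ext_rot h hk _).1 ?_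
      rw [e]
      exact hs.2

lemma law_sym {n k : ℕ} {A : Set (ℕ → Fin 3)} (h : Loc k A) (hk : k ≤ n) : (law n).real (sym A) ≤ 3 * (law n).real A := by
  haveI := law_prob (NTSF.saw_nonempty n)
  obtain ⟨A1, hA1⟩ : ∃ A1 : Set (ℕ → Fin 3), A1 = {w | (fun i => w i + 1) ∈ A} := ⟨_, rfl⟩
  obtain ⟨A2, hA2⟩ : ∃ A2 : Set (ℕ → Fin 3), A2 = {w | (fun i => w i + 1) ∈ A1} := ⟨_, rfl⟩
  have h1 : Loc k A1 := by
    rw [hA1]
    intro w w' e hw
    exact h (fun i => w i + 1) (fun i => w' i + 1) (fun i hi => by show w i + 1 = w' i + 1; rw [e i hi]) hw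
  have e1 : (law n).real A1 = (law n).real A := by
    rw [hA1]
    exact law_rot1 h hk
  have e2 : (law n).real A2 = (law n).real A := by
    rw [hA2, law_rot1 h1 hk, e1]
  have h2 : sym A ⊆ A ∪ (A1 ∪ A2) := by
    rintro w ⟨a, ha⟩
    have h3 : ∀ a : Fin 3, a = 0 ∨ a = 1 ∨ a = 2 := by decide
    rcases h3 a with rfl | rfl | rfl
    · left
      simpa using ha
    · right
      left
      rw [hA1]
      exact ha
    · right
      right
      rw [hA2, hA1]
      show (fun i => w i + 1 + 1) ∈ A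
      have e : (fun i => w i + 1 + 1) = fun i => w i + 2 := by
        funext i
        rw [add_assoc]
        rfl
      rw [e]
      exact ha
  have h3 := measureReal_mono h2 (μ := law n)
  have h4 := measureReal_union_le (μ := law n) A (A1 ∪ A2)
  have h5 := measureReal_union_le (μ := law n) A1 A2
  linarith

/-- the transfer for words -/
def TransW : Prop := ∀ ε : ℝ, 0 < ε → ∃ (M1 M2 ε' C : ℝ) (k0 : ℕ), 1 ≤ M1 ∧ M1 ≤ M2 ∧
    0 < ε' ∧ 0 < C ∧ 1 ≤ k0 ∧ ∀ k : ℕ, k0 ≤ k → ∀ E : Set (List Bool),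
      (∀ n : ℕ, M1 * k ≤ n → (n : ℝ) ≤ M2 * k → Pn n {t | t.take k ∈ E} ≤ ε') →
      ∃ n0 : ℕ, ∀ n : ℕ, n0 ≤ n →
        Pn n {t | (∃ i, i ≤ k ∧ C * (k : ℝ) ^ (3 / 4 : ℝ) < ‖JJ (vx oo up t i)‖) ∨ t.take k ∈ E} ≤ ε

/-- **the transfer to the measure of the infinite walk** -/
theorem transfer_law (hT : TransW) {P : Measure (ℕ → Fin 3)} [IsProbabilityMeasure P]
    (hP : ∀ (η : ℕ → Fin 3) (m : ℕ), Tendsto (fun n => begins n m η) atTop (𝓝 (P.real {w | ∀ i, i < m → w i = η i})))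
    {ε : ℝ} (hε : 0 < ε) : ∃ (M1 M2 ε' C : ℝ) (k0 : ℕ), 1 ≤ M1 ∧ M1 ≤ M2 ∧ 0 < ε' ∧ 0 < C ∧ 1 ≤ k0 ∧
      ∀ k : ℕ, k0 ≤ k → ∀ A : Set (ℕ → Fin 3), Loc k A →
        (∀ n : ℕ, M1 * k ≤ n → (n : ℝ) ≤ M2 * k → (law n).real A ≤ ε') →
        P.real ({w | ∃ i, i ≤ k ∧ C * (k : ℝ) ^ (3 / 4 : ℝ) < ‖ipos w i‖} ∪ A) ≤ ε := by
  obtain ⟨M1, M2, ε', C, k0, hM1, hM2, hε', hC, hk0, h⟩ := hT ε hε
  refine ⟨M1, M2, ε' / 3, C, k0, hM1, hM2, by positivity, hC, hk0, fun k hk A hA hs => ?_⟩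
  have hk1 : 1 ≤ k := hk0.trans hk
  have hkpos : (0 : ℝ) < k := by exact_mod_cast hk1
  obtain ⟨E, hE⟩ : ∃ E : Set (List Bool), E = {τ | ext (NTF.sw k τ) ∈ sym A} := ⟨_, rfl⟩
  obtain ⟨n0, hn0⟩ := h k hk E (fun n n1 n2 => by
    have hkn : k ≤ n := by
      have : (k : ℝ) ≤ n := by nlinarith
      exact_mod_cast this
    have h1 := law_Pn hA.sym hkn (by omega) (sym_rot A)
    have h2 := law_sym hA hkn
    have h3 := hs n n1 n2
    have h4 : Pn n {t | t.take k ∈ E} = Pn n {t | ext (NTF.sw n t) ∈ sym A} := by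
      congr 1
      ext t
      rw [hE]
      exact (sw_take hA.sym hkn t).symm
    rw [h4, ← h1]
    linarith)
  obtain ⟨F, hF⟩ : ∃ F : Set (ℕ → Fin 3), F = {w | ∃ i, i ≤ k ∧ C * (k : ℝ) ^ (3 / 4 : ℝ) < ‖ipos w i‖} := ⟨_, rfl⟩
  have hFl : Loc k F := by
    rw [hF]
    rintro w w' e ⟨i, i1, i2⟩
    exact ⟨i, i1, by rwa [← ipos_loc i1 e]⟩
  have hFr : ∀ w : ℕ → Fin 3, (fun i => w i + 1) ∈ F ↔ w ∈ F := by
    intro w
    rw [hF]
    simp only [Set.mem_setOf_eq, norm_ipos_rot]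
  have hB : Loc k (F ∪ sym A) := hFl.union hA.sym
  have hBr : ∀ w : ℕ → Fin 3, (fun i => w i + 1) ∈ F ∪ sym A ↔ w ∈ F ∪ sym A := fun w => or_congr (hFr w) (sym_rot A w)
  have key : P.real (F ∪ sym A) ≤ ε := by
    refine le_of_tendsto (law_lim hP hB) ?_
    filter_upwards [eventually_ge_atTop (max n0 k)] with n hn
    have hkn : k ≤ n := (le_max_right _ _).trans hn
    rw [law_Pn hB hkn (by omega) hBr]
    refine le_of_eq_of_le ?_ (hn0 n ((le_max_left _ _).trans hn))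
    congr 1
    ext t
    show (ext (NTF.sw n t) ∈ F ∨ ext (NTF.sw n t) ∈ sym A) ↔ _
    have e1 : ext (NTF.sw n t) ∈ F ↔ ∃ i, i ≤ k ∧ C * (k : ℝ) ^ (3 / 4 : ℝ) < ‖JJ (vx oo up t i)‖ := by
      rw [hF]
      constructor
      · rintro ⟨i, i1, i2⟩
        exact ⟨i, i1, by rwa [ipos_sw (by omega)] at i2⟩
      · rintro ⟨i, i1, i2⟩
        exact ⟨i, i1, by rwa [ipos_sw (by omega)]⟩
    rw [e1, sw_take hA.sym hkn t, hE]
    rfl
  rw [← hF]
  exact (measureReal_mono (Set.union_subset_union_right F (sub_sym A))).trans key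

end Pool.Agent.IW
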