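import Pool.Agent.IW.ResC
import Pool.Agent.IW.Loc

/-!
IW: the curve of the first k steps is a piece of the curve `X_n`; it is a continuous function of the walk.
-/

set_option autoImplicit false

open MeasureTheory Filter Topology
open scoped Classical

namespace Pool.Agent.IW

open Res

/-- the time u k / n -/
noncomputable def tm (k n : ℕ) (hk : k ≤ n) (u : unitInterval) : unitInterval :=
  ⟨(u : ℝ) * ((k : ℝ) / n), by
    have h1 : (k : ℝ) / n ≤ 1 := by
      rcases Nat.eq_zero_or_pos n with h0 | h0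
      · rw [h0, Nat.cast_zero, div_zero]
        norm_num
      · rw [div_le_one (by exact_mod_cast h0)]
        exact_mod_cast hk
    have h2 : (0 : ℝ) ≤ (k : ℝ) / n := by positivity
    have h3 := u.2.1
    have h4 := u.2.2
    exact ⟨by positivity, by nlinarith⟩⟩

lemma tm_coe {k n : ℕ} (hk : k ≤ n) (u : unitInterval) : (tm k n hk u : ℝ) = (u : ℝ) * ((k : ℝ) / n) := rfl

lemma tm_mono {k n : ℕ} (hk : k ≤ n) {u v : unitInterval} (h : u ≤ v) : tm k n hk u ≤ tm k n hk v := by
  show (u : ℝ) * ((k : ℝ) / n) ≤ (v : ℝ) * ((k : ℝ) / n)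
  exact mul_le_mul_of_nonneg_right h (by positivity)

/-- **the curve of the first k steps is a piece of X_n** -/
theorem icurve_eq {k n : ℕ} (hk0 : 1 ≤ k) (hk : k ≤ n) (s : Fin n → Fin 3) (u : unitInterval) :
    icurve k (ext s) u = ((NTS.Res.size n / (k : ℝ) ^ (3 / 4 : ℝ) : ℝ) : ℂ) * NTS.Res.curve s (tm k n hk u) := by
  have hn0 : (0 : ℝ) < n := by
    have : 0 < n := by omega
    exact_mod_cast this
  have hs := NTSF.size_pos (n := n) (by omega)
  have hs' : (NTS.Res.size n : ℂ) ≠ 0 := by exact_mod_cast hs.ne'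
  have hk' : (0 : ℝ) < (k : ℝ) ^ (3 / 4 : ℝ) := Real.rpow_pos_of_pos (by exact_mod_cast hk0) _
  have hk'' : (((k : ℝ) ^ (3 / 4 : ℝ) : ℝ) : ℂ) ≠ 0 := by exact_mod_cast hk'.ne'
  have e1 : (tm k n hk u : ℝ) * n = (u : ℝ) * k := by
    rw [tm_coe]
    field_simp
  show ∑ j ∈ Finset.range k, _ = _ * ∑ j ∈ Finset.range n, _
  have h1 : Finset.range k ⊆ Finset.range n := Finset.range_subset_range.2 hk
  rw [Finset.mul_sum, ← Finset.sum_subset h1]
  · refine Finset.sum_congr rfl fun j hj => ?_
    rw [Finset.mem_range] at hj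
    have hjn : j < n := by omega
    rw [e1, NTSF.pos_succ s j hjn, add_sub_cancel_left, ext_lt _ hjn]
    have e2 : Res.step j (s ⟨j, hjn⟩) = NTS.Res.step j (s ⟨j, hjn⟩) := rfl
    rw [e2]
    push_cast
    field_simp
  · intro j hj hj'
    rw [Finset.mem_range] at hj hj'
    have h2 : (u : ℝ) * k - j ≤ 0 := by
      have h3 : (k : ℝ) ≤ j := by exact_mod_cast not_lt.1 hj'
      have h4 := u.2.2
      have h5 : (0 : ℝ) ≤ k := Nat.cast_nonneg _
      nlinarith
    rw [e1, min_eq_right (by linarith), max_eq_left h2]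
    simp

lemma icurve_loc {k : ℕ} {w w' : ℕ → Fin 3} (h : ∀ i, i < k → w i = w' i) : icurve k w = icurve k w' := by
  ext u
  show ∑ j ∈ Finset.range k, _ = ∑ j ∈ Finset.range k, _
  refine Finset.sum_congr rfl fun j hj => ?_
  rw [Finset.mem_range] at hj
  rw [h j hj]

/-- an event of the curve is an event of the first k steps -/
lemma loc_curve (k : ℕ) (B : Set C(unitInterval, ℂ)) : Loc k {w | icurve k w ∈ B} := by
  intro w w' e hw
  show icurve k w' ∈ B
  rw [← icurve_loc e]
  exact hw

lemma cont_icurve (k : ℕ) : Continuous (icurve k) :=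
  continuous_def.2 fun B _ => (loc_curve k B).open'

lemma meas_icurve (k : ℕ) : Measurable (icurve k) := (cont_icurve k).measurable

/-- the position at the end, and the rotation -/
lemma icurve_rot (k : ℕ) (w : ℕ → Fin 3) (u : unitInterval) : icurve k (fun i => w i + 1) u = NTSF.om * icurve k w u := by
  show ∑ j ∈ Finset.range k, _ = NTSF.om * ∑ j ∈ Finset.range k, _
  rw [Finset.mul_sum]
  refine Finset.sum_congr rfl fun j _ => ?_
  have e : Res.step j (w j + 1) = NTSF.om * Res.step j (w j) := NTSF.step_rot j (w j)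
  rw [e]
  ring

end Pool.Agent.IW
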