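import Pool.Agent.IW.NEndQ
import Pool.Agent.IW.Loc

/-!
IW: **the exponent of the infinite walk**: the positions at the times between τ k and k have the size k ^ (3 / 4), for every
k, up to a probability ε.
-/

set_option autoImplicit false

open MeasureTheory Filter Topology
open scoped Classical

namespace Pool.Agent.IW

open Res

open HexObs (SawN cS Saw oo up vx dx tf tip xc)

open HexObs.TOG (Pn)

open NTF (JJ)

/-- the transfer is a theorem -/
theorem transW : TransW := fun _ hε => HexObs.TIP.NQ.transfer hε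

lemma ipos_le (w : ℕ → Fin 3) (i : ℕ) : ‖ipos w i‖ ≤ i := by
  unfold ipos
  refine (norm_sum_le _ _).trans ?_
  have h : ∀ j ∈ Finset.range i, ‖step j (w j)‖ ≤ 1 := fun j _ => (HexObs.SIM.step_norm j (w j)).le
  refine (Finset.sum_le_sum h).trans ?_
  simp

/-- a walk is not near its start -/
lemma far_one {P : Measure (ℕ → Fin 3)} [IsProbabilityMeasure P]
    (hP : ∀ (η : ℕ → Fin 3) (m : ℕ), Tendsto (fun n => begins n m η) atTop (𝓝 (P.real {w | ∀ i, i < m → w i = η i})))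
    (k : ℕ) : P.real {w | ∃ i, 1 ≤ i ∧ i ≤ k ∧ ‖ipos w i‖ < 1} = 0 := by
  obtain ⟨A, hA⟩ : ∃ A : Set (ℕ → Fin 3), A = {w | ∃ i, 1 ≤ i ∧ i ≤ k ∧ ‖ipos w i‖ < 1} := ⟨_, rfl⟩
  have hl : Loc k A := by
    rw [hA]
    rintro w w' e ⟨i, i0, i1, i2⟩
    exact ⟨i, i0, i1, by rwa [← ipos_loc i1 e]⟩
  have hr : ∀ w : ℕ → Fin 3, (fun i => w i + 1) ∈ A ↔ w ∈ A := by
    intro w
    rw [hA]
    simp only [Set.mem_setOf_eq, norm_ipos_rot]
  rw [← hA]
  refine tendsto_nhds_unique (law_lim hP hl) (tendsto_const_nhds.congr' ?_)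
  filter_upwards [eventually_ge_atTop (k + 1)] with n hn
  rw [law_Pn hl (by omega) (by omega) hr]
  unfold Pn
  have e : {t | t ∈ SawN n ∧ t ∈ {t | ext (NTF.sw n t) ∈ A}} = ∅ := by
    rw [Set.eq_empty_iff_forall_notMem]
    rintro t ⟨ht, h⟩
    have h : ext (NTF.sw n t) ∈ A := h
    rw [hA] at h
    obtain ⟨i, i0, i1, i2⟩ := h
    rw [ipos_sw (by omega)] at i2
    have h1 := ht.2.inj 0 i (by omega) (by rw [ht.1]; omega)
    have h2 := NTF.JJ_norm (vx oo up t i)
    have h3 : 1 ≤ HexObs.nrm (vx oo up t i) := by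
      by_contra hc
      have h4 : HexObs.nrm (vx oo up t i) ≤ 0 := by omega
      have h5 : ‖JJ (vx oo up t i)‖ = 0 := by
        have h6 : ‖JJ (vx oo up t i)‖ ^ 2 ≤ 0 := by
          rw [h2]
          exact_mod_cast h4
        exact pow_eq_zero_iff two_ne_zero |>.1 (le_antisymm h6 (by positivity))
      have h7 : JJ (vx oo up t i) = JJ oo := by
        rw [norm_eq_zero.1 h5]
        exact (norm_eq_zero.1 HexObs.TIP.NQ.JJ_oo).symm
      exact h1 (NTF.JJ_inj h7).symm
    have h8 : (1 : ℝ) ≤ ‖JJ (vx oo up t i)‖ ^ 2 := by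
      rw [h2]
      exact_mod_cast h3
    have h9 := norm_nonneg (JJ (vx oo up t i))
    nlinarith
  rw [e, Set.ncard_empty, Nat.cast_zero, zero_div]

/-- **the exponent** -/
theorem exponent {P : Measure (ℕ → Fin 3)} [IsProbabilityMeasure P]
    (hP : ∀ (η : ℕ → Fin 3) (m : ℕ), Tendsto (fun n => begins n m η) atTop (𝓝 (P.real {w | ∀ i, i < m → w i = η i})))
    {ε τ : ℝ} (hε : 0 < ε) (hτ : 0 < τ) : ∃ c C : ℝ, 0 < c ∧ 0 < C ∧ ∀ k : ℕ, 1 ≤ k →
      1 - ε ≤ P.real {w | (∀ i, i ≤ k → ‖ipos w i‖ ≤ C * (k : ℝ) ^ (3 / 4 : ℝ)) ∧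
        ∀ i : ℕ, τ * k ≤ i → i ≤ k → c * (k : ℝ) ^ (3 / 4 : ℝ) ≤ ‖ipos w i‖} := by
  obtain ⟨M1, M2, ε', C, k0, hM1, hM2, hε', hC, hk0, h⟩ := transfer_law transW hP hε
  have hM2' : 0 < M2 := by linarith
  obtain ⟨c, hc, n0, hps⟩ := HexObs.TIP.NQ.ps (θ := τ / M2) (by positivity) hε'
  obtain ⟨K, hK⟩ : ∃ K : ℕ, K = max k0 n0 + 1 := ⟨_, rfl⟩
  have hK0 : (0 : ℝ) < K := by
    have : 0 < K := by omega
    exact_mod_cast this
  obtain ⟨c', hc'⟩ : ∃ c' : ℝ, c' = min c (1 / (2 * K)) := ⟨_, rfl⟩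
  have hc0 : 0 < c' := by
    rw [hc']
    exact lt_min hc (by positivity)
  refine ⟨c', max C K, hc0, lt_max_of_lt_left hC, fun k hk => ?_⟩
  have hkpos : (0 : ℝ) < k := by exact_mod_cast hk
  have hk1 : (1 : ℝ) ≤ k := by exact_mod_cast hk
  have hkp : (0 : ℝ) < (k : ℝ) ^ (3 / 4 : ℝ) := Real.rpow_pos_of_pos hkpos _
  have hkp1 : (1 : ℝ) ≤ (k : ℝ) ^ (3 / 4 : ℝ) := Real.one_le_rpow hk1 (by norm_num)
  have hkp2 : (k : ℝ) ^ (3 / 4 : ℝ) ≤ k := by
    calc (k : ℝ) ^ (3 / 4 : ℝ) ≤ (k : ℝ) ^ (1 : ℝ) := Real.rpow_le_rpow_of_exponent_le hk1 (by norm_num)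
      _ = k := Real.rpow_one _
  obtain ⟨G, hG⟩ : ∃ G : Set (ℕ → Fin 3), G = {w | (∀ i, i ≤ k → ‖ipos w i‖ ≤ max C K * (k : ℝ) ^ (3 / 4 : ℝ)) ∧
        ∀ i : ℕ, τ * k ≤ i → i ≤ k → c' * (k : ℝ) ^ (3 / 4 : ℝ) ≤ ‖ipos w i‖} := ⟨_, rfl⟩
  rw [← hG]
  have hGl : Loc k G := by
    rw [hG]
    rintro w w' e ⟨g1, g2⟩
    refine ⟨fun i hi => ?_, fun i i1 i2 => ?_⟩
    · rw [← ipos_loc hi e]
      exact g1 i hi
    · rw [← ipos_loc i2 e]
      exact g2 i i1 i2
  have hcompl : P.real Gᶜ ≤ ε := by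
    rcases Nat.lt_or_ge k K with hkK | hkK
    · -- small k
      have h1 : Gᶜ ⊆ {w | ∃ i, 1 ≤ i ∧ i ≤ k ∧ ‖ipos w i‖ < 1} := by
        intro w hw
        by_contra hc1
        refine hw ?_
        rw [hG]
        have hkK' : (k : ℝ) ≤ K := by exact_mod_cast hkK.le
        refine ⟨fun i hi => ?_, fun i i1 i2 => ?_⟩
        · have h2 : (i : ℝ) ≤ k := by exact_mod_cast hi
          calc ‖ipos w i‖ ≤ i := ipos_le w i
            _ ≤ K * 1 := by linarith
            _ ≤ max C K * (k : ℝ) ^ (3 / 4 : ℝ) := by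
                refine mul_le_mul (le_max_right _ _) hkp1 (by norm_num) ?_
                exact hK0.le.trans (le_max_right _ _)
        · have h2 : (0 : ℝ) < i := lt_of_lt_of_le (by positivity) i1
          have h3 : 1 ≤ i := by
            have : 0 < i := by exact_mod_cast h2
            omega
          have h4 : 1 ≤ ‖ipos w i‖ := by
            by_contra hc2
            exact hc1 ⟨i, h3, i2, not_le.1 hc2⟩
          refine le_trans ?_ h4
          calc c' * (k : ℝ) ^ (3 / 4 : ℝ) ≤ 1 / (2 * K) * K := by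
                refine mul_le_mul ?_ (hkp2.trans hkK') hkp.le (by positivity)
                rw [hc']
                exact min_le_right _ _
            _ ≤ 1 := by
                rw [div_mul_eq_mul_div, one_mul, div_le_one (by positivity)]
                linarith
      have h2 := measureReal_mono h1 (μ := P)
      rw [far_one hP k] at h2
      linarith
    · -- large k
      have g0 : k0 ≤ k := by omega
      have g1 : n0 ≤ k := by omega
      obtain ⟨A, hA⟩ : ∃ A : Set (ℕ → Fin 3), A = {w | ∃ i : ℕ, τ * k ≤ i ∧ i ≤ k ∧ ‖ipos w i‖ ≤ c * (k : ℝ) ^ (3 / 4 : ℝ)} :=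
        ⟨_, rfl⟩
      have hAl : Loc k A := by
        rw [hA]
        rintro w w' e ⟨i, i0, i1, i2⟩
        exact ⟨i, i0, i1, by rwa [← ipos_loc i1 e]⟩
      have hAr : ∀ w : ℕ → Fin 3, (fun i => w i + 1) ∈ A ↔ w ∈ A := by
        intro w
        rw [hA]
        simp only [Set.mem_setOf_eq, norm_ipos_rot]
      have h1 := h k g0 A hAl (fun n n1 n2 => by
        have hkn : k ≤ n := by
          have : (k : ℝ) ≤ n := by nlinarith
          exact_mod_cast this
        have hn0 : (0 : ℝ) < n := by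
          have : 0 < n := by omega
          exact_mod_cast this
        rw [law_Pn hAl hkn (by omega) hAr]
        refine (HexObs.TIP.Nf.Pn_mono fun t _ ht => ?_).trans (hps n (by omega))
        have ht : ext (NTF.sw n t) ∈ A := ht
        rw [hA] at ht
        obtain ⟨i, i0, i1, i2⟩ := ht
        rw [ipos_sw (by omega)] at i2
        refine ⟨i, ?_, by omega, i2.trans ?_⟩
        · refine le_trans ?_ i0
          rw [div_mul_eq_mul_div, div_le_iff₀ hM2']
          nlinarith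
        · refine mul_le_mul_of_nonneg_left (Real.rpow_le_rpow hkpos.le ?_ (by norm_num)) hc.le
          exact_mod_cast hkn)
      refine (measureReal_mono ?_).trans h1
      intro w hw
      by_contra hc1
      refine hw ?_
      rw [hG]
      refine ⟨fun i hi => ?_, fun i i1 i2 => ?_⟩
      · by_contra hc2
        refine hc1 (Or.inl ⟨i, hi, lt_of_le_of_lt ?_ (not_le.1 hc2)⟩)
        exact mul_le_mul_of_nonneg_right (le_max_left _ _) hkp.le
      · by_contra hc2
        refine hc1 (Or.inr ?_)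
        rw [hA]
        refine ⟨i, i1, i2, (not_le.1 hc2).le.trans ?_⟩
        refine mul_le_mul_of_nonneg_right ?_ hkp.le
        rw [hc']
        exact min_le_left _ _
  have h1 : P.real G + P.real Gᶜ = 1 := by
    rw [measureReal_add_measureReal_compl hGl.meas]
    simp
  linarith

end Pool.Agent.IW
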