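import Pool.Agent.IW.Expo
import Pool.Agent.TIW.IWF

/-!
IW: the infinite self-avoiding walk and its exponent.
-/

set_option autoImplicit false

open MeasureTheory Filter Topology

namespace Pool.Agent.IW

open Res

/-- **the infinite walk, with its exponent** -/
theorem fin1 : ∃ P : Measure (ℕ → Fin 3), IsProbabilityMeasure P ∧ (∀ᵐ w ∂P, Function.Injective (ipos w)) ∧
    (∀ (η : ℕ → Fin 3) (m : ℕ), Tendsto (fun n => begins n m η) atTop (𝓝 (P.real {w | ∀ i, i < m → w i = η i}))) ∧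
    ∀ ε τ : ℝ, 0 < ε → 0 < τ → ∃ c C : ℝ, 0 < c ∧ 0 < C ∧ ∀ k : ℕ, 1 ≤ k →
      1 - ε ≤ P.real {w | (∀ i, i ≤ k → ‖ipos w i‖ ≤ C * (k : ℝ) ^ (3 / 4 : ℝ)) ∧
        ∀ i : ℕ, τ * k ≤ i → i ≤ k → c * (k : ℝ) ^ (3 / 4 : ℝ) ≤ ‖ipos w i‖} := by
  obtain ⟨⟨P, hPp, hinj, hP⟩, -⟩ := HexObs.TIW.iw
  exact ⟨P, hPp, hinj, hP, fun ε τ hε hτ => exponent hP hε hτ⟩

end Pool.Agent.IW
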