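import Pool.Agent.IW.Crv
import Pool.Agent.SIM.FinAllS

/-!
IW: no near double points of the curve of the first k steps of the infinite walk (helper83).
-/

set_option autoImplicit false

open MeasureTheory Filter Topology
open scoped Classical ENNReal

namespace Pool.Agent.IW

open Res

open HexObs.SIM (Pinch)

/-- the share of the walks from a bound for the law of the curve -/
lemma ratio_le {n : ℕ} {E : Set C(unitInterval, ℂ)} {c : ℝ} (hc : 0 ≤ c)
    (h : NTS.Res.law n E ≤ ENNReal.ofReal c) :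
    (((NTS.Res.saw n).filter (fun s => NTS.Res.curve s ∈ E)).card : ℝ) / ((NTS.Res.saw n).card : ℝ) ≤ c := by
  have h0 : (0 : ℝ) < ((NTS.Res.saw n).card : ℝ) := by exact_mod_cast (NTSF.saw_nonempty n).card_pos
  rw [NTSF.law_apply] at h
  have h1 := ENNReal.toReal_mono ENNReal.ofReal_ne_top h
  rw [ENNReal.toReal_mul, ENNReal.toReal_inv, ENNReal.toReal_natCast, ENNReal.toReal_natCast,
    ENNReal.toReal_ofReal hc] at h1
  rw [div_eq_inv_mul]
  exact h1

section

variable {P : Measure (ℕ → Fin 3)} [IsProbabilityMeasure P]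

/-- **no near double points in the curves of the infinite walk** -/
theorem pinch_P (hT : TransW)
    (hP : ∀ (η : ℕ → Fin 3) (m : ℕ), Tendsto (fun n => begins n m η) atTop (𝓝 (P.real {w | ∀ i, i < m → w i = η i}))) :
    ∀ η ε : ℝ, 0 < η → 0 < ε → ∃ δ : ℝ, 0 < δ ∧ ∃ k0 : ℕ, ∀ k : ℕ, k0 ≤ k →
      P {w | icurve k w ∈ Pinch η δ} ≤ ENNReal.ofReal ε := by
  intro η ε hη hε
  obtain ⟨M1, M2, ε', C0, k0, hM1, hM2, hε', hC0, hk0, h⟩ := transfer_law hT hP hε
  obtain ⟨cs, Cs, hcs, hsize⟩ := (NTSF.conclE_false NTSF.finE).1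
  have hcsC : cs ≤ Cs := by
    have h1 := hsize 1 le_rfl
    rw [Nat.cast_one, Real.one_rpow, mul_one, mul_one] at h1
    exact h1.1.trans h1.2
  have hCs : 0 < Cs := by linarith
  have hM2' : 0 < M2 := by linarith
  obtain ⟨K, hK⟩ : ∃ K : ℝ, K = Cs * M2 ^ (3 / 4 : ℝ) := ⟨_, rfl⟩
  have hK0 : 0 < K := by
    rw [hK]
    exact mul_pos hCs (Real.rpow_pos_of_pos hM2' _)
  obtain ⟨δ', hδ', hlaw⟩ := HexObs.SIM.simple_final.1 (η / K) ε' (div_pos hη hK0) hε'
  refine ⟨cs * δ', mul_pos hcs hδ', k0, fun k hk => ?_⟩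
  have hk1 : 1 ≤ k := hk0.trans hk
  have hkpos : (0 : ℝ) < k := by exact_mod_cast hk1
  have hk34 : (0 : ℝ) < (k : ℝ) ^ (3 / 4 : ℝ) := Real.rpow_pos_of_pos hkpos _
  have hmain := h k hk {w | icurve k w ∈ Pinch η (cs * δ')} (loc_curve k _) (fun n n1 n2 => by
    have hkn : k ≤ n := by
      have : (k : ℝ) ≤ n := by nlinarith
      exact_mod_cast this
    have hn1 : 1 ≤ n := hk1.trans hkn
    have hn0 : (0 : ℝ) < n := by exact_mod_cast hn1
    obtain ⟨s1, s2⟩ := hsize n hn1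
    obtain ⟨R, hR⟩ : ∃ R : ℝ, R = NTS.Res.size n / (k : ℝ) ^ (3 / 4 : ℝ) := ⟨_, rfl⟩
    have hR1 : cs ≤ R := by
      rw [hR, le_div_iff₀ hk34]
      refine le_trans ?_ s1
      refine mul_le_mul_of_nonneg_left ?_ hcs.le
      exact Real.rpow_le_rpow hkpos.le (by exact_mod_cast hkn) (by norm_num)
    have hR2 : R ≤ K := by
      rw [hR, div_le_iff₀ hk34, hK, mul_assoc, ← Real.mul_rpow hM2'.le hkpos.le]
      refine s2.trans ?_
      refine mul_le_mul_of_nonneg_left ?_ hCs.le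
      exact Real.rpow_le_rpow hn0.le n2 (by norm_num)
    have hR0 : 0 < R := hcs.trans_le hR1
    rw [law_real (loc_curve k _)]
    refine le_trans ?_ (ratio_le hε'.le (hlaw n hn1))
    rw [saw_eq]
    refine div_le_div_of_nonneg_right ?_ (Nat.cast_nonneg _)
    have hsub : (NTS.Res.saw n).filter (fun s => ext s ∈ {w | icurve k w ∈ Pinch η (cs * δ')}) ⊆
        (NTS.Res.saw n).filter (fun s => NTS.Res.curve s ∈ {γ : C(unitInterval, ℂ) | ∃ p q r : unitInterval, p ≤ q ∧ q ≤ r ∧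
          η / K < dist (γ q) (γ p) ∧ dist (γ r) (γ p) < δ'}) := by
      intro s hs
      rw [Finset.mem_filter] at hs ⊢
      refine ⟨hs.1, ?_⟩
      obtain ⟨u, w, v, huw, hwv, h1, h2⟩ := hs.2
      have e : ∀ a b : unitInterval, dist (icurve k (ext s) a) (icurve k (ext s) b) =
          R * dist (NTS.Res.curve s (tm k n hkn a)) (NTS.Res.curve s (tm k n hkn b)) := by
        intro a b
        rw [icurve_eq hk1 hkn, icurve_eq hk1 hkn, dist_eq_norm, ← mul_sub, norm_mul, ← hR, Complex.norm_of_nonneg hR0.le,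
          dist_eq_norm]
      rw [e] at h1 h2
      refine ⟨tm k n hkn u, tm k n hkn w, tm k n hkn v, tm_mono hkn huw, tm_mono hkn hwv, ?_, ?_⟩
      · rw [div_lt_iff₀ hK0, mul_comm]
        exact h1.trans_le (mul_le_mul_of_nonneg_right hR2 dist_nonneg)
      · have h3 : cs * dist (NTS.Res.curve s (tm k n hkn v)) (NTS.Res.curve s (tm k n hkn u)) < cs * δ' :=
          (mul_le_mul_of_nonneg_right hR1 dist_nonneg).trans_lt h2
        exact lt_of_mul_lt_mul_left h3 hcs.le
    exact_mod_cast Finset.card_le_card hsub)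
  have h5 : P {w | icurve k w ∈ Pinch η (cs * δ')} ≤
      P ({w | ∃ i, i ≤ k ∧ C0 * (k : ℝ) ^ (3 / 4 : ℝ) < ‖ipos w i‖} ∪ {w | icurve k w ∈ Pinch η (cs * δ')}) :=
    measure_mono Set.subset_union_right
  refine h5.trans ?_
  rw [← ENNReal.ofReal_toReal (measure_ne_top P _)]
  exact ENNReal.ofReal_le_ofReal hmain

end

end Pool.Agent.IW
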