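import Pool.Agent.IW.Inj
import Pool.Agent.NTS.LawX

/-!
IW: tightness of the curves of the infinite walk, weak limits along subsequences, the limits are Hoelder (helper83), from the
uniform Hoelder bounds `HolSt`.
-/

set_option autoImplicit false

open MeasureTheory Filter Topology
open scoped Classical ENNReal

namespace Pool.Agent.IW

open Res

/-- uniform Hoelder bounds for the curves of the infinite walk -/
def HolSt (P : Measure (ℕ → Fin 3)) : Prop := ∀ a : NNReal, 0 < a → (a : ℝ) < 3 / 4 → ∀ ε : ℝ, 0 < ε →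
  ∃ M : NNReal, ∀ k : ℕ, 1 ≤ k → P {w | ¬ HolderWith M a (icurve k w)} ≤ ENNReal.ofReal ε

lemma icurve_zero (k : ℕ) (w : ℕ → Fin 3) : icurve k w 0 = 0 := by
  show ∑ j ∈ Finset.range k, _ = (0 : ℂ)
  refine Finset.sum_eq_zero fun j _ => ?_
  have h1 : ((0 : unitInterval) : ℝ) * (k : ℝ) - (j : ℝ) ≤ 0 := by
    have h2 : (0 : ℝ) ≤ j := Nat.cast_nonneg j
    rw [Set.Icc.coe_zero, zero_mul]
    linarith
  rw [min_eq_right (by linarith), max_eq_left h1]
  simp

section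

variable {P : Measure (ℕ → Fin 3)} [IsProbabilityMeasure P]

/-- a Hoelder bound gives a modulus -/
lemma md_of_holder {M : NNReal} {r : ℝ} (hr : 0 < r) : ∃ δ : ℝ, 0 < δ ∧ ∀ γ : C(unitInterval, ℂ),
    HolderWith M (1 / 2) γ → NTF.Md δ r γ := by
  have hM : (0 : ℝ) < (M : ℝ) + 1 := by
    have := M.coe_nonneg
    linarith
  refine ⟨(r / (M + 1)) ^ 2, by positivity, fun γ hγ u v huv => ?_⟩
  refine (hγ.dist_le u v).trans ?_
  have e : (((1 / 2 : NNReal) : NNReal) : ℝ) = 1 / 2 := by norm_num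
  rw [e]
  have h1 : dist u v ^ (1 / 2 : ℝ) ≤ r / (M + 1) := by
    rw [← Real.sqrt_eq_rpow]
    rw [← Real.sqrt_sq (show (0 : ℝ) ≤ r / (M + 1) by positivity)]
    exact Real.sqrt_le_sqrt huv
  calc (M : ℝ) * dist u v ^ (1 / 2 : ℝ) ≤ (M + 1) * (r / (M + 1)) :=
        mul_le_mul (by linarith) h1 (Real.rpow_nonneg dist_nonneg _) hM.le
    _ = r := by field_simp

/-- **the laws of the curves of the infinite walk are tight** -/
theorem tight_P (hH : HolSt P) : IsTightMeasureSet {μ | ∃ k : ℕ, 1 ≤ k ∧ μ = P.map (icurve k)} := by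
  apply NTF.tight_of_modulus
  · rintro _ ⟨k, hk, rfl⟩
    have hc : IsClosed {f : C(unitInterval, ℂ) | f 0 = 0} := isClosed_eq (NTF.cont_eval 0) continuous_const
    have hm : MeasurableSet {f : C(unitInterval, ℂ) | ¬ f 0 = 0} := hc.isOpen_compl.measurableSet
    rw [Measure.map_apply (meas_icurve k) hm]
    have e : (icurve k) ⁻¹' {f : C(unitInterval, ℂ) | ¬ f 0 = 0} = ∅ := by
      ext w
      simp [icurve_zero]
    rw [e, measure_empty]
  · intro ε r hε hr
    obtain ⟨M, hM⟩ := hH (1 / 2) (by norm_num) (by norm_num) ε hε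
    obtain ⟨δ, hδ, h1⟩ := md_of_holder (M := M) hr
    refine ⟨δ, hδ, ?_⟩
    rintro _ ⟨k, hk, rfl⟩
    have hm : MeasurableSet {f : C(unitInterval, ℂ) | ¬ HolderWith M (1 / 2) f} :=
      (NTF.closed_holder M (1 / 2)).isOpen_compl.measurableSet
    have hsub : {f : C(unitInterval, ℂ) | ¬ NTF.Md δ r f} ⊆ {f : C(unitInterval, ℂ) | ¬ HolderWith M (1 / 2) f} :=
      fun f hf hf' => hf (h1 f hf')
    refine (measure_mono hsub).trans ?_
    rw [Measure.map_apply (meas_icurve k) hm]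
    exact hM k hk

/-- **weak limits exist along subsequences** -/
theorem sub_P (hH : HolSt P) : ∀ φ : ℕ → ℕ, StrictMono φ → ∃ ψ : ℕ → ℕ, StrictMono ψ ∧
    ∃ ν : Measure C(unitInterval, ℂ), IsProbabilityMeasure ν ∧ ILawTo P (fun j => φ (ψ j)) ν := by
  intro φ hφ
  have h1 : ∀ k, 1 ≤ φ (k + 1) := fun k => by
    have := hφ.id_le (k + 1)
    simp only [id_eq] at this
    omega
  have ht : IsTightMeasureSet {((ρ : ProbabilityMeasure C(unitInterval, ℂ)) : Measure C(unitInterval, ℂ)) |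
      ρ ∈ Set.range fun k => PK P (φ (k + 1))} := by
    refine (tight_P hH).subset ?_
    rintro _ ⟨ρ, ⟨k, rfl⟩, rfl⟩
    exact ⟨φ (k + 1), h1 k, rfl⟩
  have hc := isCompact_closure_of_isTightMeasureSet ht
  obtain ⟨ν, -, ψ, hψ, hlim⟩ := hc.tendsto_subseq (x := fun k => PK P (φ (k + 1)))
    (fun k => subset_closure ⟨k, rfl⟩)
  refine ⟨fun k => ψ k + 1, fun a b hab => Nat.succ_lt_succ (hψ hab), ν, inferInstance, (ilaw_iff ν).2 hlim⟩

/-- Hoelder continuity of the limits, one exponent -/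
lemma hold_one (hH : HolSt P) {a : NNReal} (ha : 0 < a) (ha1 : (a : ℝ) < 3 / 4) {φ : ℕ → ℕ}
    (hφ : Tendsto φ atTop atTop) {ν : Measure C(unitInterval, ℂ)} (hν : IsProbabilityMeasure ν) (hlim : ILawTo P φ ν) :
    ∀ᵐ γ : C(unitInterval, ℂ) ∂ν, ∃ M : NNReal, HolderWith M a γ := by
  have hlim2 := (ilaw_iff ⟨ν, hν⟩).1 hlim
  rw [ae_iff]
  refine le_antisymm (ENNReal.le_of_forall_pos_le_add ?_) zero_le
  intro ε hε _
  obtain ⟨M, hM⟩ := hH a ha ha1 ε (by exact_mod_cast hε)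
  have h1 : ν {f : C(unitInterval, ℂ) | HolderWith M a f}ᶜ ≤ ENNReal.ofReal ε := by
    refine NTF.open_le hlim2 (NTF.closed_holder M a).isOpen_compl ?_
    filter_upwards [hφ.eventually_ge_atTop 1] with k hk
    rw [PK_apply P _ (NTF.closed_holder M a).isOpen_compl.measurableSet]
    exact hM (φ k) hk
  rw [zero_add]
  rw [ENNReal.ofReal_coe_nnreal] at h1
  refine (measure_mono ?_).trans h1
  intro f hf hfM
  exact hf ⟨M, hfM⟩

/-- **the weak limits start at 0 and are Hoelder continuous of every exponent below 3 / 4** -/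
theorem hold_lim (hH : HolSt P) {φ : ℕ → ℕ} (hφ : Tendsto φ atTop atTop) {ν : Measure C(unitInterval, ℂ)}
    (hν : IsProbabilityMeasure ν) (hlim : ILawTo P φ ν) :
    ∀ᵐ γ : C(unitInterval, ℂ) ∂ν, γ 0 = 0 ∧ ∀ a : NNReal, (a : ℝ) < 3 / 4 → ∃ M : NNReal, HolderWith M a γ := by
  have hlim2 := (ilaw_iff ⟨ν, hν⟩).1 hlim
  have c1 : IsClosed {γ : C(unitInterval, ℂ) | γ 0 = 0} := isClosed_eq (NTF.cont_eval 0) continuous_const
  have h0 : ∀ᵐ γ : C(unitInterval, ℂ) ∂ν, γ 0 = 0 := by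
    have h1 : ν {γ : C(unitInterval, ℂ) | γ 0 = 0}ᶜ ≤ 0 := by
      refine NTF.open_le hlim2 c1.isOpen_compl (Eventually.of_forall fun k => le_of_eq ?_)
      rw [PK_apply P _ c1.isOpen_compl.measurableSet]
      have e : {w : ℕ → Fin 3 | icurve (φ k) w ∈ {γ : C(unitInterval, ℂ) | γ 0 = 0}ᶜ} = ∅ := by
        ext w
        simp [icurve_zero]
      rw [e, measure_empty]
    exact le_antisymm h1 zero_le
  -- a sequence of exponents
  obtain ⟨e, he⟩ : ∃ e : ℕ → NNReal, ∀ m, ((e m : NNReal) : ℝ) = 3 / 4 - 1 / ((m : ℝ) + 2) := by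
    refine ⟨fun m => ⟨3 / 4 - 1 / ((m : ℝ) + 2), ?_⟩, fun m => rfl⟩
    have h1 : (1 : ℝ) / (m + 2) ≤ 1 / 2 := one_div_le_one_div_of_le (by norm_num) (by
      have : (0 : ℝ) ≤ m := Nat.cast_nonneg m
      linarith)
    linarith
  have hseq : ∀ᵐ γ : C(unitInterval, ℂ) ∂ν, ∀ m : ℕ, ∃ M : NNReal, HolderWith M (e m) γ := by
    rw [ae_all_iff]
    intro m
    have h1 : (1 : ℝ) / (m + 2) ≤ 1 / 2 := one_div_le_one_div_of_le (by norm_num) (by
      have : (0 : ℝ) ≤ m := Nat.cast_nonneg m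
      linarith)
    have h2 : (0 : ℝ) < 1 / (m + 2) := by positivity
    have h3 : (0 : ℝ) < e m := by
      rw [he]
      linarith
    have h4 : (e m : ℝ) < 3 / 4 := by
      rw [he]
      linarith
    exact hold_one hH (by exact_mod_cast h3) h4 hφ hν hlim
  filter_upwards [h0, hseq] with γ g0 h
  refine ⟨g0, fun a ha => ?_⟩
  obtain ⟨m, hm⟩ := exists_nat_gt (1 / (3 / 4 - (a : ℝ)))
  have h1 : 0 < 3 / 4 - (a : ℝ) := by linarith
  have h2 : (a : ℝ) ≤ e m := by
    rw [he]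
    have h3 : 1 / ((m : ℝ) + 2) ≤ 3 / 4 - a := by
      rw [div_lt_iff₀ h1] at hm
      rw [div_le_iff₀ (by positivity)]
      nlinarith
    linarith
  obtain ⟨M, hM⟩ := h m
  exact ⟨M, NTSF.holder_mono (by exact_mod_cast h2) hM⟩

end

end Pool.Agent.IW
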