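import Pool.Agent.IW.Crv
import Pool.Agent.IW.PinP
import Pool.Agent.IW.TightP
import Pool.Agent.SIM.FinAllS

/-!
IW: the curves `Y_k` of the infinite walk are Hoelder of every exponent below 3 / 4, uniformly in k, up to a probability ε.
-/

set_option autoImplicit false

open MeasureTheory Filter Topology
open scoped Classical

namespace Pool.Agent.IW

open Res

lemma holder_of {M : NNReal} {a : NNReal} {γ : C(unitInterval, ℂ)}
    (h : ∀ u v : unitInterval, dist (γ u) (γ v) ≤ M * dist u v ^ (a : ℝ)) : HolderWith M a γ := by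
  intro u v
  have e1 : edist (γ u) (γ v) = ENNReal.ofReal (dist (γ u) (γ v)) := edist_dist _ _
  have e2 : edist u v = ENNReal.ofReal (dist u v) := edist_dist _ _
  have e3 : ENNReal.ofReal (dist u v) ^ (a : ℝ) = ENNReal.ofReal (dist u v ^ (a : ℝ)) :=
    ENNReal.ofReal_rpow_of_nonneg dist_nonneg a.2
  rw [e1, e2, e3, ← ENNReal.ofReal_coe_nnreal, ← ENNReal.ofReal_mul (NNReal.coe_nonneg M)]
  exact ENNReal.ofReal_le_ofReal (h u v)

/-- a piece of a Hoelder curve -/
lemma holder_piece {k n : ℕ} (hk0 : 1 ≤ k) (hk : k ≤ n) {M M' a : NNReal} (s : Fin n → Fin 3)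
    (hM : NTS.Res.size n / (k : ℝ) ^ (3 / 4 : ℝ) * M ≤ M') (h : HolderWith M a (NTS.Res.curve s)) :
    HolderWith M' a (icurve k (ext s)) := by
  have hs := NTSF.size_pos (n := n) (by omega)
  have hk' : (0 : ℝ) < (k : ℝ) ^ (3 / 4 : ℝ) := Real.rpow_pos_of_pos (by exact_mod_cast hk0) _
  have hr : (0 : ℝ) ≤ NTS.Res.size n / (k : ℝ) ^ (3 / 4 : ℝ) := by positivity
  refine holder_of fun u v => ?_
  rw [icurve_eq hk0 hk, icurve_eq hk0 hk, dist_eq_norm, ← mul_sub, norm_mul, Complex.norm_real, Real.norm_of_nonneg hr,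
    ← dist_eq_norm]
  have h1 := h.dist_le (tm k n hk u) (tm k n hk v)
  have h2 : dist (tm k n hk u) (tm k n hk v) ≤ dist u v := by
    rw [Subtype.dist_eq, Subtype.dist_eq, tm_coe, tm_coe, Real.dist_eq, Real.dist_eq, ← sub_mul, abs_mul]
    have h3 : |(k : ℝ) / n| ≤ 1 := by
      rw [abs_of_nonneg (by positivity)]
      have : 0 < n := by omega
      rw [div_le_one (by exact_mod_cast this)]
      exact_mod_cast hk
    have h4 := abs_nonneg ((u : ℝ) - v)
    nlinarith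
  have h3 : dist (tm k n hk u) (tm k n hk v) ^ (a : ℝ) ≤ dist u v ^ (a : ℝ) :=
    Real.rpow_le_rpow dist_nonneg h2 a.2
  have h4 : (0 : ℝ) ≤ dist u v ^ (a : ℝ) := Real.rpow_nonneg dist_nonneg _
  calc NTS.Res.size n / (k : ℝ) ^ (3 / 4 : ℝ) * dist (NTS.Res.curve s (tm k n hk u)) (NTS.Res.curve s (tm k n hk v))
      ≤ NTS.Res.size n / (k : ℝ) ^ (3 / 4 : ℝ) * (M * dist u v ^ (a : ℝ)) :=
        mul_le_mul_of_nonneg_left (h1.trans (mul_le_mul_of_nonneg_left h3 M.2)) hr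
    _ = NTS.Res.size n / (k : ℝ) ^ (3 / 4 : ℝ) * M * dist u v ^ (a : ℝ) := by ring
    _ ≤ M' * dist u v ^ (a : ℝ) := mul_le_mul_of_nonneg_right hM h4

/-- the curves with few steps -/
lemma holder_small {k : ℕ} {a : NNReal} (ha : (a : ℝ) ≤ 1) (w : ℕ → Fin 3) : HolderWith (k ^ 2 : ℕ) a (icurve k w) := by
  refine holder_of fun u v => ?_
  rcases Nat.eq_zero_or_pos k with h0 | h0
  · subst h0
    have e : ∀ u, icurve 0 w u = 0 := fun u => rfl
    rw [e, e, dist_self]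
    simp
  have hk1 : (1 : ℝ) ≤ k := by exact_mod_cast h0
  have hkp1 : (1 : ℝ) ≤ (k : ℝ) ^ (3 / 4 : ℝ) := Real.one_le_rpow hk1 (by norm_num)
  have h1 : dist (icurve k w u) (icurve k w v) ≤ ∑ j ∈ Finset.range k, (k : ℝ) * dist u v := by
    have e : icurve k w u - icurve k w v = ∑ j ∈ Finset.range k,
        (((max 0 (min 1 ((u : ℝ) * k - j)) - max 0 (min 1 ((v : ℝ) * k - j)) : ℝ)) : ℂ) *
          (step j (w j) / ((k : ℝ) ^ (3 / 4 : ℝ) : ℝ)) := by
      show ∑ j ∈ Finset.range k, _ - ∑ j ∈ Finset.range k, _ = _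
      rw [← Finset.sum_sub_distrib]
      refine Finset.sum_congr rfl fun j _ => ?_
      push_cast
      ring
    rw [dist_eq_norm, e]
    refine (norm_sum_le _ _).trans (Finset.sum_le_sum fun j _ => ?_)
    rw [norm_mul, norm_div, Complex.norm_real, Complex.norm_real]
    have h2 : ‖step j (w j)‖ = 1 := HexObs.SIM.step_norm j (w j)
    rw [h2, Real.norm_eq_abs, Real.norm_of_nonneg (by linarith : (0 : ℝ) ≤ (k : ℝ) ^ (3 / 4 : ℝ))]
    have h3 : |max 0 (min 1 ((u : ℝ) * k - j)) - max 0 (min 1 ((v : ℝ) * k - j))| ≤ (k : ℝ) * dist u v := by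
      have h4 : |max 0 (min 1 ((u : ℝ) * k - j)) - max 0 (min 1 ((v : ℝ) * k - j))| ≤
          |((u : ℝ) * k - j) - ((v : ℝ) * k - j)| := by
        refine (abs_max_sub_max_le_max _ _ _ _).trans ?_
        rw [sub_self, abs_zero, max_eq_right (abs_nonneg _)]
        refine (abs_min_sub_min_le_max _ _ _ _).trans ?_
        rw [sub_self, abs_zero, max_eq_right (abs_nonneg _)]
      refine h4.trans (le_of_eq ?_)
      rw [Subtype.dist_eq, Real.dist_eq, show ((u : ℝ) * k - j) - ((v : ℝ) * k - j) = (k : ℝ) * (u - v) by ring, abs_mul,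
        abs_of_nonneg (by linarith : (0 : ℝ) ≤ k)]
    have h5 : 1 / (k : ℝ) ^ (3 / 4 : ℝ) ≤ 1 := by
      rw [div_le_one (by linarith)]
      exact hkp1
    have h6 : (0 : ℝ) ≤ (k : ℝ) * dist u v := by positivity
    calc _ ≤ (k : ℝ) * dist u v * 1 := mul_le_mul h3 h5 (by positivity) h6
      _ = _ := mul_one _
  have h2 : dist u v ≤ dist u v ^ (a : ℝ) := by
    rcases eq_or_lt_of_le (dist_nonneg (x := u) (y := v)) with h3 | h3
    · rw [← h3]
      exact Real.rpow_nonneg le_rfl _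
    · have h4 : dist u v ≤ 1 := by
        rw [Subtype.dist_eq, Real.dist_eq, abs_le]
        have := u.2.1
        have := u.2.2
        have := v.2.1
        have := v.2.2
        constructor <;> linarith
      calc dist u v = dist u v ^ (1 : ℝ) := (Real.rpow_one _).symm
        _ ≤ dist u v ^ (a : ℝ) := Real.rpow_le_rpow_of_exponent_ge h3 h4 ha
  refine h1.trans ?_
  rw [Finset.sum_const, Finset.card_range, nsmul_eq_mul]
  have e2 : (((k ^ 2 : ℕ) : NNReal) : ℝ) = (k : ℝ) ^ 2 := by push_cast; ring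
  rw [e2]
  have h3 : (0 : ℝ) ≤ (k : ℝ) ^ 2 := by positivity
  calc (k : ℝ) * ((k : ℝ) * dist u v) = (k : ℝ) ^ 2 * dist u v := by ring
    _ ≤ (k : ℝ) ^ 2 * dist u v ^ (a : ℝ) := mul_le_mul_of_nonneg_left h2 h3

/-- **the uniform Hoelder property** -/
theorem hold_P (hT : TransW) {P : Measure (ℕ → Fin 3)} [IsProbabilityMeasure P]
    (hP : ∀ (η : ℕ → Fin 3) (m : ℕ), Tendsto (fun n => begins n m η) atTop (𝓝 (P.real {w | ∀ i, i < m → w i = η i}))) :
    HolSt P := by
  intro a ha0 ha ε hε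
  obtain ⟨M1, M2, ε', C0, k0, hM1, hM2, hε', hC0, hk0, h⟩ := transfer_law hT hP hε
  obtain ⟨cs, Cs, hcs, hsize⟩ := (NTSF.conclE_false NTSF.finE).1
  have hcsC : cs ≤ Cs := by
    have h1 := hsize 1 le_rfl
    rw [Nat.cast_one, Real.one_rpow, mul_one, mul_one] at h1
    exact h1.1.trans h1.2
  have hCs : 0 < Cs := by linarith
  have hM2' : 0 < M2 := by linarith
  obtain ⟨K, hK⟩ : ∃ K : ℝ, K = Cs * M2 ^ (3 / 4 : ℝ) := ⟨_, rfl⟩
  have hK0 : 0 < K := by
    rw [hK]
    exact mul_pos hCs (Real.rpow_pos_of_pos hM2' _)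
  obtain ⟨M, hM⟩ := (NTSF.conclE_false NTSF.finE).2.2.1 a ha0 ha ε' hε'
  refine ⟨max (⟨K, hK0.le⟩ * M) ((k0 ^ 2 : ℕ) : NNReal), fun k hk1 => ?_⟩
  have hkpos : (0 : ℝ) < k := by exact_mod_cast hk1
  have hk34 : (0 : ℝ) < (k : ℝ) ^ (3 / 4 : ℝ) := Real.rpow_pos_of_pos hkpos _
  rcases Nat.lt_or_ge k k0 with hk | hk
  · -- small k
    have e : {w | ¬ HolderWith (max (⟨K, hK0.le⟩ * M) ((k0 ^ 2 : ℕ) : NNReal)) a (icurve k w)} = ∅ := by
      rw [Set.eq_empty_iff_forall_notMem]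
      intro w hw
      refine hw ?_
      refine (holder_small (k := k) (by linarith) w).mono ?_
      refine le_trans ?_ (le_max_right _ _)
      exact_mod_cast Nat.pow_le_pow_left hk.le 2
    rw [e, measure_empty]
    exact zero_le
  · obtain ⟨B, hB⟩ : ∃ B : Set (ℕ → Fin 3), B = {w | ¬ HolderWith (max (⟨K, hK0.le⟩ * M) ((k0 ^ 2 : ℕ) : NNReal)) a
      (icurve k w)} := ⟨_, rfl⟩
    rw [← hB]
    have hBl : Loc k B := by
      rw [hB]
      exact loc_curve k {γ | ¬ HolderWith (max (⟨K, hK0.le⟩ * M) ((k0 ^ 2 : ℕ) : NNReal)) a γ}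
    have hmain := h k hk B hBl (fun n n1 n2 => by
      have hkn : k ≤ n := by
        have : (k : ℝ) ≤ n := by nlinarith
        exact_mod_cast this
      have hn1 : 1 ≤ n := hk1.trans hkn
      have hn0 : (0 : ℝ) < n := by exact_mod_cast hn1
      obtain ⟨s1, s2⟩ := hsize n hn1
      have hR2 : NTS.Res.size n / (k : ℝ) ^ (3 / 4 : ℝ) ≤ K := by
        rw [div_le_iff₀ hk34, hK, mul_assoc, ← Real.mul_rpow hM2'.le hkpos.le]
        refine s2.trans ?_
        refine mul_le_mul_of_nonneg_left ?_ hCs.le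
        exact Real.rpow_le_rpow hn0.le n2 (by norm_num)
      rw [law_real hBl]
      obtain ⟨E0, hE0⟩ : ∃ E0 : Set C(unitInterval, ℂ), E0 = {γ : C(unitInterval, ℂ) | ¬ HolderWith M a γ} := ⟨_, rfl⟩
      have hM0 : NTS.Res.law n E0 ≤ ENNReal.ofReal ε' := by
        rw [hE0]
        exact hM n hn1
      refine le_trans ?_ (ratio_le hε'.le hM0)
      rw [saw_eq]
      refine div_le_div_of_nonneg_right ?_ (Nat.cast_nonneg _)
      have hsub : (NTS.Res.saw n).filter (fun s => ext s ∈ B) ⊆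
          (NTS.Res.saw n).filter (fun s => NTS.Res.curve s ∈ E0) := by
        intro s hs
        rw [Finset.mem_filter, hB] at hs
        rw [Finset.mem_filter, hE0]
        refine ⟨hs.1, fun hcon => hs.2 ?_⟩
        refine holder_piece hk1 hkn s ?_ hcon
        have h6 : NTS.Res.size n / (k : ℝ) ^ (3 / 4 : ℝ) * M ≤ K * M := mul_le_mul_of_nonneg_right hR2 M.2
        refine h6.trans ?_
        have h7 : (⟨K, hK0.le⟩ * M : NNReal) ≤ max (⟨K, hK0.le⟩ * M) ((k0 ^ 2 : ℕ) : NNReal) := le_max_left _ _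
        exact_mod_cast h7
      exact_mod_cast Finset.card_le_card hsub)
    have h5 : P B ≤ P ({w | ∃ i, i ≤ k ∧ C0 * (k : ℝ) ^ (3 / 4 : ℝ) < ‖ipos w i‖} ∪ B) := measure_mono Set.subset_union_right
    refine h5.trans ?_
    rw [← ENNReal.ofReal_toReal (measure_ne_top P _)]
    exact ENNReal.ofReal_le_ofReal hmain

end Pool.Agent.IW
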