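import Pool.Agent.IW.Crv
import Pool.Agent.SIM.LawS

/-!
IW: the weak limits of the rescaled infinite walk are simple curves, from `PinSt` (no near double points) and `LowSt` (no
piece is nearly constant).
-/

set_option autoImplicit false

open MeasureTheory Filter Topology
open scoped Classical

namespace Pool.Agent.IW

open Res

open HexObs.SIM (Pinch pinch_open)

/-- no near double points -/
def PinSt (P : Measure (ℕ → Fin 3)) : Prop := ∀ η ε : ℝ, 0 < η → 0 < ε → ∃ δ : ℝ, 0 < δ ∧ ∃ k0 : ℕ, ∀ k : ℕ, k0 ≤ k →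
  P {w | icurve k w ∈ Pinch η δ} ≤ ENNReal.ofReal ε

/-- no piece is nearly constant -/
def LowSt (P : Measure (ℕ → Fin 3)) : Prop := ∀ h ε : ℝ, 0 < h → 0 < ε → ∃ η : ℝ, 0 < η ∧ ∃ k0 : ℕ, ∀ k : ℕ, k0 ≤ k →
  P {w | ∃ u v : unitInterval, h ≤ (v : ℝ) - u ∧ ∀ x : unitInterval, u ≤ x → x ≤ v →
    dist (icurve k w x) (icurve k w u) ≤ η} ≤ ENNReal.ofReal ε

/-- the law of the curve `Y_k` -/
noncomputable def PK (P : Measure (ℕ → Fin 3)) [IsProbabilityMeasure P] (k : ℕ) : ProbabilityMeasure C(unitInterval, ℂ) :=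
  ⟨P.map (icurve k), Measure.isProbabilityMeasure_map (meas_icurve k).aemeasurable⟩

lemma PK_apply (P : Measure (ℕ → Fin 3)) [IsProbabilityMeasure P] (k : ℕ) {B : Set C(unitInterval, ℂ)} (hB : MeasurableSet B) :
    (PK P k : Measure C(unitInterval, ℂ)) B = P {w | icurve k w ∈ B} :=
  Measure.map_apply (meas_icurve k) hB

lemma ilaw_iff {P : Measure (ℕ → Fin 3)} [IsProbabilityMeasure P] {φ : ℕ → ℕ} (ν : ProbabilityMeasure C(unitInterval, ℂ)) :
    ILawTo P φ (ν : Measure C(unitInterval, ℂ)) ↔ Tendsto (fun j => PK P (φ j)) atTop (𝓝 ν) := by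
  rw [ProbabilityMeasure.tendsto_iff_forall_integral_tendsto]
  refine forall_congr' fun f => ?_
  have e : ∀ j, ∫ w, f (icurve (φ j) w) ∂P = ∫ γ, f γ ∂(PK P (φ j) : Measure C(unitInterval, ℂ)) := fun j =>
    (integral_map (meas_icurve (φ j)).aemeasurable f.continuous.aestronglyMeasurable).symm
  simp only [e]

/-- the curves with a nearly constant piece, open form -/
def Flat (h η : ℝ) : Set C(unitInterval, ℂ) :=
  {γ | ∃ u v : unitInterval, h ≤ (v : ℝ) - u ∧ u ≤ v ∧ ∀ x : unitInterval, u ≤ x → x ≤ v → dist (γ x) (γ u) < η}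

lemma flat_open (h η : ℝ) : IsOpen (Flat h η) := by
  rw [Metric.isOpen_iff]
  rintro γ ⟨u, v, h1, h2, h3⟩
  have hc : IsCompact (Set.Icc u v) := isCompact_Icc
  have hne : (Set.Icc u v).Nonempty := ⟨u, Set.left_mem_Icc.2 h2⟩
  have hcont : ContinuousOn (fun x : unitInterval => dist (γ x) (γ u)) (Set.Icc u v) :=
    (γ.continuous.dist continuous_const).continuousOn
  obtain ⟨x0, hx0, hmax⟩ := hc.exists_isMaxOn hne hcont
  have h4 := h3 x0 hx0.1 hx0.2
  refine ⟨(η - dist (γ x0) (γ u)) / 2, by linarith, fun γ' hγ' => ⟨u, v, h1, h2, fun x hx1 hx2 => ?_⟩⟩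
  rw [Metric.mem_ball, dist_comm] at hγ'
  have a1 := (ContinuousMap.dist_apply_le_dist (f := γ) (g := γ') x).trans_lt hγ'
  have a2 := (ContinuousMap.dist_apply_le_dist (f := γ) (g := γ') u).trans_lt hγ'
  have a3 : dist (γ x) (γ u) ≤ dist (γ x0) (γ u) := hmax ⟨hx1, hx2⟩
  have a4 : dist (γ' x) (γ' u) ≤ dist (γ' x) (γ x) + dist (γ x) (γ u) + dist (γ u) (γ' u) :=
    (dist_triangle _ (γ u) _).trans (add_le_add (dist_triangle _ _ _) le_rfl)
  rw [dist_comm (γ' x) (γ x)] at a4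
  linarith

/-- no constant piece in a limit -/
theorem no_const {P : Measure (ℕ → Fin 3)} [IsProbabilityMeasure P] (hL : LowSt P) {φ : ℕ → ℕ}
    {ν : Measure C(unitInterval, ℂ)} (hφ : Tendsto φ atTop atTop) (hν : IsProbabilityMeasure ν) (hlim : ILawTo P φ ν) :
    ∀ᵐ γ : C(unitInterval, ℂ) ∂ν, ∀ u v : unitInterval, u < v → ∃ x : unitInterval, u ≤ x ∧ x ≤ v ∧ γ x ≠ γ u := by
  have hlim2 := (ilaw_iff ⟨ν, hν⟩).1 hlim
  have key : ∀ j : ℕ, ∀ᵐ γ : C(unitInterval, ℂ) ∂ν, ¬ ∃ u v : unitInterval, 1 / ((j : ℝ) + 1) ≤ (v : ℝ) - u ∧ u ≤ v ∧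
      ∀ x : unitInterval, u ≤ x → x ≤ v → γ x = γ u := by
    intro j
    rw [ae_iff]
    refine le_antisymm (ENNReal.le_of_forall_pos_le_add ?_) zero_le
    intro ε hε _
    rw [zero_add]
    obtain ⟨η, hη, k0, h1⟩ := hL (1 / ((j : ℝ) + 1)) ε (by positivity) (by exact_mod_cast hε)
    have h4 := NTF.open_le hlim2 (flat_open (1 / ((j : ℝ) + 1)) η) (ε := ENNReal.ofReal ε) (by
      filter_upwards [hφ.eventually_ge_atTop k0] with i hi
      rw [PK_apply P _ (flat_open _ _).measurableSet]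
      refine (measure_mono ?_).trans (h1 _ hi)
      rintro w ⟨u, v, a1, -, a3⟩
      exact ⟨u, v, a1, fun x x1 x2 => (a3 x x1 x2).le⟩)
    rw [ENNReal.ofReal_coe_nnreal] at h4
    refine le_trans (measure_mono ?_) h4
    intro γ hγ
    rw [Set.mem_ofPred_eq, not_not] at hγ
    obtain ⟨u, v, h5, h6, h7⟩ := hγ
    exact ⟨u, v, h5, h6, fun x x1 x2 => by rwa [h7 x x1 x2, dist_self]⟩
  filter_upwards [ae_all_iff.2 key] with γ hγ u v huv
  by_contra hne
  push Not at hne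
  have huv' : (0 : ℝ) < (v : ℝ) - u := sub_pos.2 (by exact_mod_cast huv)
  obtain ⟨j, hj⟩ := exists_nat_one_div_lt huv'
  exact hγ j ⟨u, v, hj.le, huv.le, hne⟩

/-- no return after an excursion in a limit -/
theorem no_pinch {P : Measure (ℕ → Fin 3)} [IsProbabilityMeasure P] (hN : PinSt P) {φ : ℕ → ℕ}
    {ν : Measure C(unitInterval, ℂ)} (hφ : Tendsto φ atTop atTop) (hν : IsProbabilityMeasure ν) (hlim : ILawTo P φ ν) :
    ∀ᵐ γ : C(unitInterval, ℂ) ∂ν, ∀ u w v : unitInterval, u ≤ w → w ≤ v → γ v = γ u → γ w = γ u := by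
  have hlim2 := (ilaw_iff ⟨ν, hν⟩).1 hlim
  have key : ∀ j : ℕ, ∀ᵐ γ : C(unitInterval, ℂ) ∂ν,
      ¬ ∃ u w v : unitInterval, u ≤ w ∧ w ≤ v ∧ 1 / ((j : ℝ) + 1) < dist (γ w) (γ u) ∧ γ v = γ u := by
    intro j
    rw [ae_iff]
    refine le_antisymm (ENNReal.le_of_forall_pos_le_add ?_) zero_le
    intro ε hε _
    rw [zero_add]
    obtain ⟨δ, hδ, k0, h1⟩ := hN (1 / ((j : ℝ) + 1)) ε (by positivity) (by exact_mod_cast hε)
    have h4 := NTF.open_le hlim2 (pinch_open (1 / ((j : ℝ) + 1)) δ) (ε := ENNReal.ofReal ε) (by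
      filter_upwards [hφ.eventually_ge_atTop k0] with i hi
      rw [PK_apply P _ (pinch_open _ _).measurableSet]
      exact h1 _ hi)
    rw [ENNReal.ofReal_coe_nnreal] at h4
    refine le_trans (measure_mono ?_) h4
    intro γ hγ
    rw [Set.mem_ofPred_eq, not_not] at hγ
    obtain ⟨u, w, v, huw, hwv, h5, h6⟩ := hγ
    exact ⟨u, w, v, huw, hwv, h5, by rwa [h6, dist_self]⟩
  filter_upwards [ae_all_iff.2 key] with γ hγ u w v huw hwv heq
  by_contra hne
  have hd : 0 < dist (γ w) (γ u) := dist_pos.2 hne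
  obtain ⟨j, hj⟩ := exists_nat_one_div_lt hd
  exact hγ j ⟨u, w, v, huw, hwv, hj, heq⟩

/-- **the weak limits are simple curves** -/
theorem inj_lim {P : Measure (ℕ → Fin 3)} [IsProbabilityMeasure P] (hN : PinSt P) (hL : LowSt P) {φ : ℕ → ℕ}
    {ν : Measure C(unitInterval, ℂ)} (hφ : Tendsto φ atTop atTop) (hν : IsProbabilityMeasure ν) (hlim : ILawTo P φ ν) :
    ∀ᵐ γ : C(unitInterval, ℂ) ∂ν, Function.Injective γ := by
  filter_upwards [no_pinch hN hφ hν hlim, no_const hL hφ hν hlim] with γ h1 h2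
  have key : ∀ u v : unitInterval, u < v → γ v ≠ γ u := by
    intro u v huv heq
    obtain ⟨w, hw1, hw2, hw3⟩ := h2 u v huv
    exact hw3 (h1 u w v hw1 hw2 heq)
  intro u v heq
  rcases lt_trichotomy u v with h4 | h4 | h4
  · exact absurd heq.symm (key u v h4)
  · exact h4
  · exact absurd heq (key v u h4)

end Pool.Agent.IW
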