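import Pool.Agent.IW.Crv
import Pool.Agent.IW.PS

/-!
IW: the infinite walk does not stay near one point during a positive part of its first k steps. For the uniform walks with n
letters, k <= n <= M k, this is the lower modulus of continuity; the transfer gives the infinite walk.
-/

set_option autoImplicit false

open MeasureTheory Filter Topology
open scoped Classical

namespace HexObs

namespace TIP

open Finset TS SDN NTW NTA HexObs.SIM

open scoped ENNReal unitInterval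

open NTF (JJ)

namespace NQ

lemma pn_monoL {n : ℕ} {A B : Set (List Bool)} (h : A ⊆ B) : TOG.Pn n A ≤ TOG.Pn n B := by
  unfold TOG.Pn
  refine div_le_div_of_nonneg_right ?_ (Nat.cast_nonneg _)
  have hf : {t | t ∈ SawN n ∧ t ∈ B}.Finite := (List.finite_length_eq Bool n).subset fun t ht => ht.1.1
  have h4 : {t | t ∈ SawN n ∧ t ∈ A} ⊆ {t | t ∈ SawN n ∧ t ∈ B} := fun t ht => ⟨ht.1, h ht.2⟩
  exact_mod_cast Set.ncard_le_ncard h4 hf

/-- **no positive part of the first k steps near one point**, n letters, k <= n <= M k -/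
theorem low_Pn {h ε M : ℝ} (hh : 0 < h) (hε : 0 < ε) (hM : 1 ≤ M) : ∃ η : ℝ, 0 < η ∧ ∃ k0 : ℕ, ∀ k : ℕ, k0 ≤ k →
    ∀ n : ℕ, k ≤ n → (n : ℝ) ≤ M * k → TOG.Pn n {t | ∃ i j : ℕ, j ≤ k ∧ h * k ≤ (j : ℝ) - i ∧
      ∀ x : ℕ, i ≤ x → x ≤ j → ‖JJ (vx oo up t x - vx oo up t i)‖ ≤ η * (k : ℝ) ^ (3 / 4 : ℝ)} ≤ ε := by
  obtain ⟨cb, κ, k1, hcb, hκ, hbig⟩ := EN.factsX_M.big
  obtain ⟨a, A, ha, hA, hpow⟩ := scale_pow
  have hL : EN.LowModX (fun k => PW.mZ (2 ^ k)) 1 := EN.lowModX_of mlowZ mupZ EN.extM EN.espw_M (by norm_num)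
  have hM0 : 0 < M := by linarith
  obtain ⟨c1, hc1, hL⟩ := hL (ε * cb) (by positivity)
  obtain ⟨k2, hL⟩ := hL (h / M) (by positivity)
  obtain ⟨n2, hn2⟩ := ex_scale (max k1 k2)
  refine ⟨c1 * h / (2 * A * M), by positivity, max n2 1, fun k hk n hkn hnM => ?_⟩
  have b2 : n2 ≤ n := ((le_max_left _ _).trans hk).trans hkn
  have hk1 : 1 ≤ k := (le_max_right _ _).trans hk
  have hn1 : 1 ≤ n := hk1.trans hkn
  have hn0 : (0 : ℝ) < n := by exact_mod_cast hn1
  have hk0 : (0 : ℝ) < k := by exact_mod_cast hk1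
  have hkn' : (k : ℝ) ≤ n := by exact_mod_cast hkn
  obtain ⟨K, hK, h1, h2⟩ := hn2 n b2
  obtain ⟨p1, p2⟩ := hpow K n h1 h2
  refine pn_le hn1 hε.le ?_
  have h3 := hL K n ((le_max_right _ _).trans hK) h1 h2
  have h4 := hbig K n ((le_max_left _ _).trans hK) h1 h2
  have h5 : ENNReal.ofReal cb * nuX (fun k => PW.mZ (2 ^ k)) K ≤ gf (SawN n) := h4.trans (gf_mono fun t ht => ht.1)
  refine (gf_mono ?_).trans (h3.trans ?_)
  · rintro t ⟨ht, i, j, hjk, hlen, hx⟩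
    have hpos : 0 < (j : ℝ) - i := lt_of_lt_of_le (by positivity) hlen
    have hlt : i < j := by
      have : (i : ℝ) < j := by linarith
      exact_mod_cast this
    have hlen' : h / M * n ≤ (j : ℝ) - i := by
      refine le_trans ?_ hlen
      rw [div_mul_eq_mul_div, div_le_iff₀ hM0]
      nlinarith
    refine ⟨ht, i, j, hlt, hjk.trans hkn, hlen', fun dir x hix hxj => ?_⟩
    rw [Real.rpow_one, ← NTF.lvl_sub]
    refine (NTSF.lvl_le_norm dir _).trans ?_
    have e2 := hx x hix hxj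
    have e3 : h / M ≤ ((j : ℝ) - i) / n := by
      rw [le_div_iff₀ hn0]
      exact hlen'
    have e4 : (k : ℝ) ^ (3 / 4 : ℝ) ≤ A * 2 ^ K := (Real.rpow_le_rpow hk0.le hkn' (by norm_num)).trans p2
    calc 2 * ‖JJ (vx oo up t x - vx oo up t i)‖ ≤ 2 * (c1 * h / (2 * A * M) * (k : ℝ) ^ (3 / 4 : ℝ)) := by linarith
      _ ≤ 2 * (c1 * h / (2 * A * M) * (A * 2 ^ K)) := by gcongr
      _ = c1 * 2 ^ K * (h / M) := by
          field_simp
      _ ≤ c1 * 2 ^ K * (((j : ℝ) - i) / n) := by gcongr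
  · rw [ENNReal.ofReal_mul hε.le, mul_assoc]
    exact mul_le_mul_right h5 _

end NQ

end TIP

end HexObs

namespace Pool.Agent.IW

open Res

open HexObs (SawN cS Saw oo up vx dx tf tip xc)

open HexObs.TOG (Pn)

open NTF (JJ)

/-- the curve at a time of the grid -/
lemma icurve_grid {k n x : ℕ} (hk0 : 1 ≤ k) (hk : k ≤ n) (t : List Bool) (hx : x ≤ k) (u : unitInterval)
    (hu : (u : ℝ) = (x : ℝ) / k) :
    icurve k (ext (NTF.sw n t)) u = JJ (vx oo up t x) / (((k : ℝ) ^ (3 / 4 : ℝ) : ℝ) : ℂ) := by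
  have hn : 1 ≤ n := hk0.trans hk
  have hk' : (0 : ℝ) < k := by exact_mod_cast hk0
  have hs := NTSF.size_pos hn
  have hs' : (NTS.Res.size n : ℂ) ≠ 0 := by exact_mod_cast hs.ne'
  have e1 : (tm k n hk u : ℝ) = (x : ℝ) / n := by
    rw [tm_coe, hu]
    field_simp
  rw [icurve_eq hk0 hk, NTSF.curve_grid hn _ (hx.trans hk) _ e1, NTSF.pos_sw n t x (hx.trans hk)]
  push_cast
  field_simp

/-- **the infinite walk does not stay near one point during a positive part of its first k steps** -/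
theorem low_P {P : Measure (ℕ → Fin 3)} [IsProbabilityMeasure P] (hT : TransW)
    (hP : ∀ η m, Tendsto (fun n => begins n m η) atTop (𝓝 (P.real {w | ∀ i, i < m → w i = η i}))) :
    ∀ h ε : ℝ, 0 < h → 0 < ε → ∃ η : ℝ, 0 < η ∧ ∃ k0 : ℕ, ∀ k : ℕ, k0 ≤ k →
      P {w | ∃ u v : unitInterval, h ≤ (v : ℝ) - u ∧
        ∀ x : unitInterval, u ≤ x → x ≤ v → dist (icurve k w x) (icurve k w u) ≤ η} ≤ ENNReal.ofReal ε := by
  intro h ε hh hε
  obtain ⟨M1, M2, ε', C, k0, hM1, hM2, hε', hC, hk0, htr⟩ := transfer_law hT hP hε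
  obtain ⟨η, hη, k1, hlow⟩ := HexObs.TIP.NQ.low_Pn (half_pos hh) hε' (hM1.trans hM2)
  obtain ⟨k2, hk2⟩ := exists_nat_ge (4 / h)
  refine ⟨η / 2, half_pos hη, max k0 (max k1 k2), fun k hk => ?_⟩
  have hk0' : k0 ≤ k := (le_max_left _ _).trans hk
  have hk1' : k1 ≤ k := ((le_max_left _ _).trans (le_max_right _ _)).trans hk
  have hk2' : k2 ≤ k := ((le_max_right _ _).trans (le_max_right _ _)).trans hk
  have hk1 : 1 ≤ k := hk0.trans hk0'
  have hkp : (0 : ℝ) < k := by exact_mod_cast hk1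
  have hk34 : (0 : ℝ) < (k : ℝ) ^ (3 / 4 : ℝ) := Real.rpow_pos_of_pos hkp _
  have h4 : 4 ≤ h * k := by
    have h5 : 4 / h ≤ k := hk2.trans (by exact_mod_cast hk2')
    rwa [div_le_iff₀ hh, mul_comm] at h5
  obtain ⟨B, hB⟩ : ∃ B : Set C(unitInterval, ℂ), B = {γ | ∃ u v : unitInterval, h ≤ (v : ℝ) - u ∧
      ∀ x : unitInterval, u ≤ x → x ≤ v → dist (γ x) (γ u) ≤ η / 2} := ⟨_, rfl⟩
  have hA : Loc k {w | icurve k w ∈ B} := loc_curve k B
  have hrot : ∀ w : ℕ → Fin 3, (fun i => w i + 1) ∈ {w | icurve k w ∈ B} ↔ w ∈ {w | icurve k w ∈ B} := by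
    intro w
    have e : ∀ x u : unitInterval, dist (icurve k (fun i => w i + 1) x) (icurve k (fun i => w i + 1) u) =
        dist (icurve k w x) (icurve k w u) := by
      intro x u
      rw [icurve_rot, icurve_rot, dist_eq_norm, dist_eq_norm, ← mul_sub, norm_mul, NTSF.om_norm, one_mul]
    rw [hB]
    simp only [Set.mem_ofPred_eq, e]
  have key := htr k hk0' _ hA (fun n n1 n2 => by
    have hkn : k ≤ n := by
      have : (k : ℝ) ≤ n := by nlinarith
      exact_mod_cast this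
    rw [law_Pn hA hkn (by omega) hrot]
    refine le_trans (HexObs.TIP.NQ.pn_monoL fun t ht => ?_) (hlow k hk1' n hkn n2)
    have ht' : icurve k (ext (NTF.sw n t)) ∈ B := ht
    rw [hB] at ht'
    obtain ⟨u, v, huv, hx⟩ := ht'
    obtain ⟨i, hi⟩ : ∃ i : ℕ, i = ⌈(u : ℝ) * k⌉₊ := ⟨_, rfl⟩
    obtain ⟨j, hj⟩ : ∃ j : ℕ, j = ⌊(v : ℝ) * k⌋₊ := ⟨_, rfl⟩
    have u0 : (0 : ℝ) ≤ u := u.2.1
    have v0 : (0 : ℝ) ≤ v := v.2.1
    have v1 : (v : ℝ) ≤ 1 := v.2.2
    have i1 : (u : ℝ) * k ≤ i := by rw [hi]; exact Nat.le_ceil _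
    have i2 : (i : ℝ) < (u : ℝ) * k + 1 := by rw [hi]; exact Nat.ceil_lt_add_one (by positivity)
    have j1 : (j : ℝ) ≤ (v : ℝ) * k := by rw [hj]; exact Nat.floor_le (by positivity)
    have j2 : (v : ℝ) * k < j + 1 := by rw [hj]; exact Nat.lt_floor_add_one _
    have jk : j ≤ k := by
      have : (j : ℝ) ≤ k := by nlinarith
      exact_mod_cast this
    have hlen : h / 2 * k ≤ (j : ℝ) - i := by nlinarith
    have hmem : ∀ x : ℕ, x ≤ k → ((x : ℝ) / k) ∈ Set.Icc (0 : ℝ) 1 := fun x hx =>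
      ⟨by positivity, by rw [div_le_one hkp]; exact_mod_cast hx⟩
    refine ⟨i, j, jk, hlen, fun x hix hxj => ?_⟩
    have hij : i ≤ j := hix.trans hxj
    have ik : i ≤ k := hij.trans jk
    have xk : x ≤ k := hxj.trans jk
    have hg : ∀ (y : ℕ) (hy : y ≤ k), i ≤ y → y ≤ j →
        dist (icurve k (ext (NTF.sw n t)) ⟨(y : ℝ) / k, hmem y hy⟩) (icurve k (ext (NTF.sw n t)) u) ≤ η / 2 := by
      intro y hy y1 y2
      refine hx _ ?_ ?_
      · show (u : ℝ) ≤ (y : ℝ) / k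
        rw [le_div_iff₀ hkp]
        exact i1.trans (by exact_mod_cast y1)
      · show (y : ℝ) / k ≤ (v : ℝ)
        rw [div_le_iff₀ hkp]
        exact le_trans (by exact_mod_cast y2) j1
    have d1 := hg x xk hix hxj
    have d2 := hg i ik le_rfl hij
    have d3 := dist_triangle_right (icurve k (ext (NTF.sw n t)) ⟨(x : ℝ) / k, hmem x xk⟩)
      (icurve k (ext (NTF.sw n t)) ⟨(i : ℝ) / k, hmem i ik⟩) (icurve k (ext (NTF.sw n t)) u)
    rw [icurve_grid hk1 hkn t xk _ rfl, icurve_grid hk1 hkn t ik _ rfl, dist_eq_norm (JJ (vx oo up t x) / _), ← sub_div,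
      ← NTF.JJ_sub, norm_div, Complex.norm_real, Real.norm_of_nonneg hk34.le, div_le_iff₀ hk34] at d3
    rw [icurve_grid hk1 hkn t xk _ rfl] at d1
    rw [icurve_grid hk1 hkn t ik _ rfl] at d2
    refine d3.trans ?_
    gcongr
    linarith)
  have h5 : P.real {w | icurve k w ∈ B} ≤ ε := (measureReal_mono Set.subset_union_right).trans key
  have h6 : {w | ∃ u v : unitInterval, h ≤ (v : ℝ) - u ∧
      ∀ x : unitInterval, u ≤ x → x ≤ v → dist (icurve k w x) (icurve k w u) ≤ η / 2} = {w | icurve k w ∈ B} := by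
    rw [hB]
    rfl
  rw [h6, ← ENNReal.ofReal_toReal (measure_ne_top P {w | icurve k w ∈ B})]
  exact ENNReal.ofReal_le_ofReal h5

end Pool.Agent.IW
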