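import Pool.Agent.IW.Expo
import Pool.Agent.IW.Hold
import Pool.Agent.IW.LowP
import Pool.Agent.IW.Inj
import Pool.Agent.IW.PinP
import Pool.Agent.IW.TightP
import Pool.Agent.TIW.IWF

/-!
IW: the infinite self-avoiding walk, its exponent, and its scaling limits.
-/

set_option autoImplicit false

open MeasureTheory Filter Topology

namespace Pool.Agent.IW

open Res

/-- **the infinite walk: local limit, exponent, simple scaling limits** -/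
theorem fin2 : ∃ P : Measure (ℕ → Fin 3), IsProbabilityMeasure P ∧ (∀ᵐ w ∂P, Function.Injective (ipos w)) ∧
    (∀ (η : ℕ → Fin 3) (m : ℕ), Tendsto (fun n => begins n m η) atTop (𝓝 (P.real {w | ∀ i, i < m → w i = η i}))) ∧
    (∀ ε τ : ℝ, 0 < ε → 0 < τ → ∃ c C : ℝ, 0 < c ∧ 0 < C ∧ ∀ k : ℕ, 1 ≤ k →
      1 - ε ≤ P.real {w | (∀ i, i ≤ k → ‖ipos w i‖ ≤ C * (k : ℝ) ^ (3 / 4 : ℝ)) ∧
        ∀ i : ℕ, τ * k ≤ i → i ≤ k → c * (k : ℝ) ^ (3 / 4 : ℝ) ≤ ‖ipos w i‖}) ∧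
    IsTightMeasureSet {μ | ∃ k : ℕ, 1 ≤ k ∧ μ = P.map (icurve k)} ∧
    (∀ φ : ℕ → ℕ, StrictMono φ → ∃ ψ : ℕ → ℕ, StrictMono ψ ∧ ∃ ν : Measure C(unitInterval, ℂ),
      IsProbabilityMeasure ν ∧ ILawTo P (fun j => φ (ψ j)) ν) ∧
    ∀ (φ : ℕ → ℕ) (ν : Measure C(unitInterval, ℂ)), Tendsto φ atTop atTop → IsProbabilityMeasure ν → ILawTo P φ ν →
      ∀ᵐ γ : C(unitInterval, ℂ) ∂ν, Function.Injective γ ∧ γ 0 = 0 ∧
        ∀ a : NNReal, (a : ℝ) < 3 / 4 → ∃ M : NNReal, HolderWith M a γ := by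
  obtain ⟨⟨P, hPp, hinj, hP⟩, -⟩ := HexObs.TIW.iw
  have hH := hold_P transW hP
  refine ⟨P, hPp, hinj, hP, fun ε τ hε hτ => exponent hP hε hτ, tight_P hH, sub_P hH, fun φ ν hφ hν hlim => ?_⟩
  filter_upwards [inj_lim (pinch_P transW hP) (low_P transW hP) hφ hν hlim, hold_lim hH hφ hν hlim] with γ h1 h2
  exact ⟨h1, h2⟩

end Pool.Agent.IW
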