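import Pool.Agent.IW.Expo
import Pool.Agent.IW.Hold
import Pool.Agent.IW.LowP
import Pool.Agent.IW.Inj
import Pool.Agent.IW.PinP
import Pool.Agent.IW.TightP
import Pool.Agent.IW.AsZ
import Pool.Agent.MC.Pub2
import Pool.Agent.TIW.IWF

/-!
IW: the infinite self-avoiding walk, the coupling with the n-step walk, its exponents, and its scaling limits.
-/

set_option autoImplicit false

open MeasureTheory Filter Topology
open scoped Classical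

namespace Pool.Agent.IW

open Res

/-- **the infinite walk: coupling, exponents, simple scaling limits**, from the joint form on words -/
theorem fin3_of (hJ : MC.JointM) : ∃ P : Measure (ℕ → Fin 3), IsProbabilityMeasure P ∧
    (∀ᵐ w ∂P, Function.Injective (ipos w)) ∧
    (∀ (ε : ℝ) (K : NNReal), 0 < ε → ∃ δ : ℝ, 0 < δ ∧ ∀ n m : ℕ, (m : ℝ) ≤ δ * n →
      ∀ F : C(unitInterval, ℂ) → ℝ, LipschitzWith K F → (∀ γ, |F γ| ≤ 1) →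
        ∑ η : Fin m → Fin 3, |mean n (fun s => if Begins s η then F (curve s) else 0) -
          P.real {w | ∀ i : Fin m, w i = η i} * mean n (fun s => F (curve s))| ≤ ε) ∧
    (∀ ε τ : ℝ, 0 < ε → 0 < τ → ∃ c C : ℝ, 0 < c ∧ 0 < C ∧ ∀ k : ℕ, 1 ≤ k →
      1 - ε ≤ P.real {w | (∀ i, i ≤ k → ‖ipos w i‖ ≤ C * (k : ℝ) ^ (3 / 4 : ℝ)) ∧
        ∀ i : ℕ, τ * k ≤ i → i ≤ k → c * (k : ℝ) ^ (3 / 4 : ℝ) ≤ ‖ipos w i‖}) ∧
    (∀ᵐ w ∂P, ∀ δ : ℝ, 0 < δ → ∀ᶠ k : ℕ in atTop, ∀ i j : ℕ, i < j → j ≤ k →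
      ‖ipos w j - ipos w i‖ ≤ (k : ℝ) ^ δ * ((j : ℝ) - i) ^ (3 / 4 : ℝ) ∧
      ∃ l : ℕ, i ≤ l ∧ l ≤ j ∧ (k : ℝ) ^ (-δ) * ((j : ℝ) - i) ^ (3 / 4 : ℝ) ≤ ‖ipos w l - ipos w i‖) ∧
    IsTightMeasureSet {μ | ∃ k : ℕ, 1 ≤ k ∧ μ = P.map (icurve k)} ∧
    (∀ φ : ℕ → ℕ, StrictMono φ → ∃ ψ : ℕ → ℕ, StrictMono ψ ∧ ∃ ν : Measure C(unitInterval, ℂ),
      IsProbabilityMeasure ν ∧ ILawTo P (fun j => φ (ψ j)) ν) ∧
    ∀ (φ : ℕ → ℕ) (ν : Measure C(unitInterval, ℂ)), Tendsto φ atTop atTop → IsProbabilityMeasure ν → ILawTo P φ ν →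
      ∀ᵐ γ : C(unitInterval, ℂ) ∂ν, Function.Injective γ ∧ γ 0 = 0 ∧
        ∀ a : NNReal, (a : ℝ) < 3 / 4 → ∃ M : NNReal, HolderWith M a γ := by
  obtain ⟨⟨P, hPp, hinj, hP⟩, -⟩ := HexObs.TIW.iw
  have hH := hold_P transW hP
  refine ⟨P, hPp, hinj, fun ε K hε => MC.joint_of hJ hP K hε, fun ε τ hε hτ => exponent hP hε hτ, as_size hP,
    tight_P hH, sub_P hH, fun φ ν hφ hν hlim => ?_⟩
  filter_upwards [inj_lim (pinch_P transW hP) (low_P transW hP) hφ hν hlim, hold_lim hH hφ hν hlim] with γ h1 h2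
  exact ⟨h1, h2⟩

end Pool.Agent.IW
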