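import Pool.Agent.IW.SelfS

/-!
IW (helper11): the logarithmic averages of the laws of the rescaled infinite walk: existence, simple limits, self-similarity.
-/

set_option autoImplicit false

open MeasureTheory Filter Topology
open scoped Classical

namespace Pool.Agent.IW

open Res

open HexObs.SIM (Pinch pinch_open)

/-- the uniform law on (0, L] -/
noncomputable def uL (L : ℝ) : Measure ℝ := (ENNReal.ofReal L)⁻¹ • volume.restrict (Set.Ioc 0 L)

lemma uL_prob {L : ℝ} (hL : 0 < L) : IsProbabilityMeasure (uL L) := by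
  constructor
  unfold uL
  rw [Measure.smul_apply, Measure.restrict_apply_univ, Real.volume_Ioc, sub_zero, smul_eq_mul]
  exact ENNReal.inv_mul_cancel (by simpa using hL) ENNReal.ofReal_ne_top

/-- the law of the curve at a random scale -/
noncomputable def QL (P : Measure (ℕ → Fin 3)) (L : ℝ) : Measure C(unitInterval, ℂ) :=
  ((uL L).prod P).map fun p => (FK ⌈Real.exp L⌉₊).curry p

variable {P : Measure (ℕ → Fin 3)} [IsProbabilityMeasure P]

lemma QL_prob {L : ℝ} (hL : 0 < L) : IsProbabilityMeasure (QL P L) := by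
  have := uL_prob hL
  exact Measure.isProbabilityMeasure_map (FK ⌈Real.exp L⌉₊).curry.continuous.measurable.aemeasurable

lemma ae_uL (L : ℝ) : ∀ᵐ x ∂(uL L), Real.exp x ≤ (⌈Real.exp L⌉₊ : ℝ) := by
  unfold uL
  refine Measure.ae_smul_measure ?_ _
  refine (ae_restrict_iff' measurableSet_Ioc).2 (Eventually.of_forall fun x hx => ?_)
  exact (Real.exp_le_exp.2 hx.2).trans (Nat.le_ceil _)

lemma QL_apply {L : ℝ} (hL : 0 < L) {B : Set C(unitInterval, ℂ)} (hB : MeasurableSet B) :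
    QL P L B = ∫⁻ x, P {w | tcurve (Real.exp x) w ∈ B} ∂(uL L) := by
  have := uL_prob hL
  have hm : Measurable fun p : ℝ × (ℕ → Fin 3) => (FK ⌈Real.exp L⌉₊).curry p := (FK ⌈Real.exp L⌉₊).curry.continuous.measurable
  unfold QL
  rw [Measure.map_apply hm hB, Measure.prod_apply (hm hB)]
  refine lintegral_congr_ae ?_
  filter_upwards [ae_uL L] with x hx
  have e : Prod.mk x ⁻¹' ((fun p => (FK ⌈Real.exp L⌉₊).curry p) ⁻¹' B) = {w | tcurve (Real.exp x) w ∈ B} := by
    ext w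
    show (FK ⌈Real.exp L⌉₊).curry (x, w) ∈ B ↔ tcurve (Real.exp x) w ∈ B
    rw [FK_eq hx]
  rw [e]

lemma QL_int {L : ℝ} (hL : 0 < L) (f : BoundedContinuousFunction C(unitInterval, ℂ) ℝ) :
    ∫ γ, f γ ∂(QL P L) = (∫ x in (0 : ℝ)..L, ∫ w, f (tcurve (Real.exp x) w) ∂P) / L := by
  have := uL_prob hL
  have hm : Measurable fun p : ℝ × (ℕ → Fin 3) => (FK ⌈Real.exp L⌉₊).curry p := (FK ⌈Real.exp L⌉₊).curry.continuous.measurable
  have hcf : Continuous fun p : ℝ × (ℕ → Fin 3) => f ((FK ⌈Real.exp L⌉₊).curry p) :=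
    f.continuous.comp (FK ⌈Real.exp L⌉₊).curry.continuous
  unfold QL
  rw [integral_map hm.aemeasurable f.continuous.aestronglyMeasurable, integral_prod]
  · have e : ∀ᵐ x ∂(uL L), ∫ w, f ((FK ⌈Real.exp L⌉₊).curry (x, w)) ∂P = ∫ w, f (tcurve (Real.exp x) w) ∂P := by
      filter_upwards [ae_uL L] with x hx
      exact integral_congr_ae (Eventually.of_forall fun w => by
        show f ((FK ⌈Real.exp L⌉₊).curry (x, w)) = f (tcurve (Real.exp x) w)
        rw [FK_eq hx])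
    rw [integral_congr_ae e]
    unfold uL
    rw [integral_smul_measure, intervalIntegral.integral_of_le hL.le, ENNReal.toReal_inv, ENNReal.toReal_ofReal hL.le, smul_eq_mul,
      div_eq_inv_mul]
  · refine Integrable.of_bound hcf.aestronglyMeasurable ‖f‖ (Eventually.of_forall fun p => f.norm_coe_le_norm _)

/-- bounds at the large scales are bounds of the averages -/
lemma QL_le {t0 : ℝ} (ht0 : 1 ≤ t0) {B : Set C(unitInterval, ℂ)} (hB : MeasurableSet B) {ε : ℝ} (hε : 0 ≤ ε)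
    (h : ∀ t : ℝ, t0 ≤ t → P {w | tcurve t w ∈ B} ≤ ENNReal.ofReal ε) {L : ℝ} (hL : 0 < L) :
    QL P L B ≤ ENNReal.ofReal (ε + Real.log t0 / L) := by
  have := uL_prob hL
  have hl : 0 ≤ Real.log t0 := Real.log_nonneg ht0
  rw [QL_apply hL hB]
  have h1 : ∀ x, P {w | tcurve (Real.exp x) w ∈ B} ≤ ENNReal.ofReal ε + (Set.Iio (Real.log t0)).indicator (fun _ => 1) x := by
    intro x
    by_cases hx : x ∈ Set.Iio (Real.log t0)
    · rw [Set.indicator_of_mem hx]
      exact prob_le_one.trans le_add_self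
    · rw [Set.indicator_of_notMem hx, add_zero]
      refine h _ ?_
      rw [Set.mem_Iio, not_lt] at hx
      exact (Real.log_le_iff_le_exp (by linarith)).1 hx
  refine (lintegral_mono h1).trans ?_
  rw [lintegral_add_left measurable_const, lintegral_const, measure_univ, mul_one, lintegral_indicator measurableSet_Iio,
    setLIntegral_const, one_mul, ENNReal.ofReal_add hε (by positivity)]
  refine add_le_add le_rfl ?_
  unfold uL
  rw [Measure.smul_apply, Measure.restrict_apply measurableSet_Iio, smul_eq_mul]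
  have h2 : volume (Set.Iio (Real.log t0) ∩ Set.Ioc 0 L) ≤ ENNReal.ofReal (Real.log t0) := by
    refine (measure_mono (?_ : _ ⊆ Set.Ioc 0 (Real.log t0))).trans ?_
    · rintro x ⟨h3, h4⟩
      exact ⟨h4.1, le_of_lt h3⟩
    · rw [Real.volume_Ioc, sub_zero]
  calc (ENNReal.ofReal L)⁻¹ * volume (Set.Iio (Real.log t0) ∩ Set.Ioc 0 L) ≤ (ENNReal.ofReal L)⁻¹ * ENNReal.ofReal (Real.log t0) :=
        mul_le_mul' le_rfl h2
    _ = ENNReal.ofReal (Real.log t0 / L) := by
        rw [ENNReal.ofReal_div_of_pos hL, mul_comm, ← div_eq_mul_inv]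

/-! ### the bounds at real scales -/

omit [IsProbabilityMeasure P] in
lemma t_pin (hN : PinSt P) {η ε : ℝ} (hη : 0 < η) (hε : 0 < ε) : ∃ δ : ℝ, 0 < δ ∧ ∃ t0 : ℝ, 1 ≤ t0 ∧ ∀ t : ℝ, t0 ≤ t →
    P {w | tcurve t w ∈ Pinch η δ} ≤ ENNReal.ofReal ε := by
  obtain ⟨δ, hδ, k0, h⟩ := hN (η / 2) ε (by positivity) hε
  refine ⟨δ, hδ, max 1 k0, le_max_left _ _, fun t ht => ?_⟩
  obtain ⟨c, hc, e⟩ := tcurve_zoom ((le_max_left _ _).trans ht)
  have hk : k0 ≤ ⌈t⌉₊ := by
    have : (k0 : ℝ) ≤ ⌈t⌉₊ := ((le_max_right _ _).trans ht).trans (Nat.le_ceil t)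
    exact_mod_cast this
  refine (measure_mono fun w hw => ?_).trans (h _ hk)
  have hw' : tcurve t w ∈ Pinch η δ := hw
  rw [e] at hw'
  exact zoom_pinch hc hw' hη hδ

omit [IsProbabilityMeasure P] in
lemma t_flat (hN : LowSt P) {h ε : ℝ} (hh : 0 < h) (hε : 0 < ε) : ∃ η : ℝ, 0 < η ∧ ∃ t0 : ℝ, 1 ≤ t0 ∧ ∀ t : ℝ, t0 ≤ t →
    P {w | tcurve t w ∈ Flat h η} ≤ ENNReal.ofReal ε := by
  obtain ⟨η, hη, k0, H⟩ := hN (h / 2) ε (by positivity) hε
  refine ⟨η, hη, max 1 k0, le_max_left _ _, fun t ht => ?_⟩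
  obtain ⟨c, hc, e⟩ := tcurve_zoom ((le_max_left _ _).trans ht)
  have hk : k0 ≤ ⌈t⌉₊ := by
    have : (k0 : ℝ) ≤ ⌈t⌉₊ := ((le_max_right _ _).trans ht).trans (Nat.le_ceil t)
    exact_mod_cast this
  refine (measure_mono fun w hw => ?_).trans (H _ hk)
  have hw' : tcurve t w ∈ Flat h η := hw
  rw [e] at hw'
  obtain ⟨u, v, a1, -, a3⟩ := zoom_flat hc hw' hh hη
  exact ⟨u, v, a1, fun x x1 x2 => (a3 x x1 x2).le⟩

omit [IsProbabilityMeasure P] in
lemma t_hol (hH : HolSt P) {a : NNReal} (ha : 0 < a) (ha1 : (a : ℝ) < 3 / 4) {ε : ℝ} (hε : 0 < ε) : ∃ M : NNReal, ∀ t : ℝ,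
    1 ≤ t → P {w | tcurve t w ∈ {γ : C(unitInterval, ℂ) | HolderWith M a γ}ᶜ} ≤ ENNReal.ofReal ε := by
  obtain ⟨M, hM⟩ := hH a ha ha1 ε hε
  refine ⟨2 * M, fun t ht => ?_⟩
  obtain ⟨c, hc, e⟩ := tcurve_zoom ht
  have hk : 1 ≤ ⌈t⌉₊ := by
    have : (1 : ℝ) ≤ ⌈t⌉₊ := ht.trans (Nat.le_ceil t)
    exact_mod_cast this
  refine (measure_mono fun w hw hw2 => ?_).trans (hM _ hk)
  refine hw ?_
  show HolderWith (2 * M) a (tcurve t w)
  rw [e]
  exact zoom_holder hc hw2

/-- the averaged laws -/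
noncomputable def PQ (P : Measure (ℕ → Fin 3)) [IsProbabilityMeasure P] (n : ℕ) : ProbabilityMeasure C(unitInterval, ℂ) :=
  ⟨QL P (max 1 n), QL_prob (lt_of_lt_of_le one_pos (le_max_left _ _))⟩

lemma PQ_coe {n : ℕ} (hn : 1 ≤ n) : (PQ P n : Measure C(unitInterval, ℂ)) = QL P n := by
  have h : max (1 : ℝ) n = n := max_eq_right (by exact_mod_cast hn)
  show QL P (max 1 n) = QL P n
  rw [h]

lemma PQ_le {t0 : ℝ} (ht0 : 1 ≤ t0) {B : Set C(unitInterval, ℂ)} (hB : MeasurableSet B) {ε : ℝ} (hε : 0 < ε)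
    (h : ∀ t : ℝ, t0 ≤ t → P {w | tcurve t w ∈ B} ≤ ENNReal.ofReal (ε / 2)) {φ : ℕ → ℕ} (hφ : Tendsto φ atTop atTop) :
    ∀ᶠ j in atTop, (PQ P (φ j) : Measure C(unitInterval, ℂ)) B ≤ ENNReal.ofReal ε := by
  have h1 : ∀ᶠ j in atTop, 1 ≤ φ j := hφ.eventually_ge_atTop 1
  have h2 : ∀ᶠ j in atTop, Real.log t0 / (φ j : ℝ) ≤ ε / 2 := by
    have h3 : Tendsto (fun j => Real.log t0 / (φ j : ℝ)) atTop (𝓝 0) :=
      tendsto_const_nhds.div_atTop (tendsto_natCast_atTop_atTop.comp hφ)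
    exact (h3.eventually (gt_mem_nhds (show (0 : ℝ) < ε / 2 by positivity))).mono fun j hj => le_of_lt hj
  filter_upwards [h1, h2] with j hj hj2
  rw [PQ_coe hj]
  refine (QL_le ht0 hB (by positivity) h (by exact_mod_cast hj)).trans (ENNReal.ofReal_le_ofReal ?_)
  linarith

lemma closed_zero : IsClosed {γ : C(unitInterval, ℂ) | γ 0 = 0} := isClosed_eq (NTF.cont_eval 0) continuous_const

/-- **the averages are good** -/
theorem good_PQ (hN : PinSt P) (hL : LowSt P) (hH : HolSt P) {φ : ℕ → ℕ} (hφ : Tendsto φ atTop atTop) :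
    Good fun j => PQ P (φ j) := by
  refine ⟨?_, fun η ε hη hε => ?_, fun h ε hh hε => ?_, fun a ha ha1 ε hε => ?_⟩
  · filter_upwards [hφ.eventually_ge_atTop 1] with j hj
    rw [PQ_coe hj]
    have h1 : QL P (φ j) {γ | γ 0 = 0}ᶜ ≤ ENNReal.ofReal (0 + Real.log 1 / (φ j : ℝ)) := by
      refine QL_le le_rfl closed_zero.isOpen_compl.measurableSet le_rfl (fun t _ => ?_) (by exact_mod_cast hj)
      have e : {w : ℕ → Fin 3 | tcurve t w ∈ {γ : C(unitInterval, ℂ) | γ 0 = 0}ᶜ} = ∅ := by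
        ext w
        simp [tcurve_zero]
      rw [e, measure_empty]
      exact zero_le
    rw [Real.log_one, zero_div, add_zero, ENNReal.ofReal_zero] at h1
    exact le_antisymm h1 zero_le
  · obtain ⟨δ, hδ, t0, ht0, h⟩ := t_pin hN hη (half_pos hε)
    exact ⟨δ, hδ, PQ_le ht0 (pinch_open η δ).measurableSet hε h hφ⟩
  · obtain ⟨η, hη, t0, ht0, h'⟩ := t_flat hL hh (half_pos hε)
    exact ⟨η, hη, PQ_le ht0 (flat_open h η).measurableSet hε h' hφ⟩
  · obtain ⟨M, h⟩ := t_hol hH ha ha1 (half_pos hε)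
    exact ⟨M, PQ_le le_rfl (NTF.closed_holder M a).isOpen_compl.measurableSet hε h hφ⟩

lemma mean_iff {φ : ℕ → ℕ} (hφ : Tendsto φ atTop atTop) (ν : ProbabilityMeasure C(unitInterval, ℂ)) :
    MeanTo P φ (ν : Measure C(unitInterval, ℂ)) ↔ Tendsto (fun j => PQ P (φ j)) atTop (𝓝 ν) := by
  rw [ProbabilityMeasure.tendsto_iff_forall_integral_tendsto]
  refine forall_congr' fun f => tendsto_congr' ?_
  filter_upwards [hφ.eventually_ge_atTop 1] with j hj
  rw [PQ_coe hj, QL_int (by exact_mod_cast hj)]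

/-- tightness -/
theorem tight_Q (hH : HolSt P) : IsTightMeasureSet {μ | ∃ n : ℕ, 1 ≤ n ∧ μ = QL P n} := by
  apply NTF.tight_of_modulus
  · rintro _ ⟨k, hk, rfl⟩
    have h1 : QL P k {γ | γ 0 = 0}ᶜ ≤ ENNReal.ofReal (0 + Real.log 1 / (k : ℝ)) := by
      refine QL_le le_rfl closed_zero.isOpen_compl.measurableSet le_rfl (fun t _ => ?_) (by exact_mod_cast hk)
      have e : {w : ℕ → Fin 3 | tcurve t w ∈ {γ : C(unitInterval, ℂ) | γ 0 = 0}ᶜ} = ∅ := by
        ext w
        simp [tcurve_zero]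
      rw [e, measure_empty]
      exact zero_le
    rw [Real.log_one, zero_div, add_zero, ENNReal.ofReal_zero] at h1
    exact le_antisymm h1 zero_le
  · intro ε r hε hr
    obtain ⟨M, hM⟩ := t_hol hH (a := 1 / 2) (by norm_num) (by norm_num) hε
    obtain ⟨δ, hδ, h1⟩ := md_of_holder (M := M) hr
    refine ⟨δ, hδ, ?_⟩
    rintro _ ⟨k, hk, rfl⟩
    have hm : MeasurableSet {f : C(unitInterval, ℂ) | HolderWith M (1 / 2) f}ᶜ :=
      (NTF.closed_holder M (1 / 2)).isOpen_compl.measurableSet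
    have hsub : {f : C(unitInterval, ℂ) | ¬ NTF.Md δ r f} ⊆ {f : C(unitInterval, ℂ) | HolderWith M (1 / 2) f}ᶜ :=
      fun f hf hf' => hf (h1 f hf')
    refine (measure_mono hsub).trans ?_
    refine (QL_le le_rfl hm hε.le hM (by exact_mod_cast hk)).trans ?_
    rw [Real.log_one, zero_div, add_zero]

/-- **weak limits of the averages exist along subsequences** -/
theorem sub_Q (hH : HolSt P) : ∀ φ : ℕ → ℕ, StrictMono φ → ∃ ψ : ℕ → ℕ, StrictMono ψ ∧
    ∃ ν : Measure C(unitInterval, ℂ), IsProbabilityMeasure ν ∧ MeanTo P (fun j => φ (ψ j)) ν := by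
  intro φ hφ
  have h1 : ∀ k, 1 ≤ φ (k + 1) := fun k => by
    have := hφ.id_le (k + 1)
    simp only [id_eq] at this
    omega
  have ht : IsTightMeasureSet {((ρ : ProbabilityMeasure C(unitInterval, ℂ)) : Measure C(unitInterval, ℂ)) |
      ρ ∈ Set.range fun k => PQ P (φ (k + 1))} := by
    refine (tight_Q (P := P) hH).subset ?_
    rintro _ ⟨ρ, ⟨k, rfl⟩, rfl⟩
    exact ⟨φ (k + 1), h1 k, PQ_coe (h1 k)⟩
  have hc := isCompact_closure_of_isTightMeasureSet ht
  obtain ⟨ν, -, ψ, hψ, hlim⟩ := hc.tendsto_subseq (x := fun k => PQ P (φ (k + 1)))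
    (fun k => subset_closure ⟨k, rfl⟩)
  have hψ2 : StrictMono fun k => ψ k + 1 := fun a b hab => Nat.succ_lt_succ (hψ hab)
  refine ⟨fun k => ψ k + 1, hψ2, ν, inferInstance, (mean_iff (hφ.tendsto_atTop.comp hψ2.tendsto_atTop) ν).2 hlim⟩

/-- **self-similarity** -/
theorem self_sim {φ : ℕ → ℕ} (hφ : Tendsto φ atTop atTop) {ν : Measure C(unitInterval, ℂ)} (hν : IsProbabilityMeasure ν)
    (hlim : MeanTo P φ ν) {c : unitInterval} (hc : 0 < c) : ν.map (zoom c) = ν := by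
  have hc' : (0 : ℝ) < c := by exact_mod_cast hc
  have : IsProbabilityMeasure (ν.map (zoom c)) := Measure.isProbabilityMeasure_map (cont_zoom hc).measurable.aemeasurable
  refine ext_of_forall_integral_eq_of_IsFiniteMeasure fun f => ?_
  rw [integral_map (cont_zoom hc).measurable.aemeasurable f.continuous.aestronglyMeasurable]
  obtain ⟨g, hg⟩ : ∃ g : ℝ → ℝ, g = fun x => ∫ w, f (tcurve (Real.exp x) w) ∂P := ⟨_, rfl⟩
  have hgc : Continuous g := by
    rw [hg]
    refine continuous_of_dominated (bound := fun _ => ‖f‖) (fun x => ?_) (fun x => ?_) (integrable_const _) ?_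
    · exact (f.continuous.comp (cont_w _ (Real.exp_pos x))).aestronglyMeasurable
    · exact Eventually.of_forall fun w => f.norm_coe_le_norm _
    · exact Eventually.of_forall fun w => f.continuous.comp (cont_x w)
  have hgb : ∀ x, |g x| ≤ ‖f‖ := by
    intro x
    rw [hg]
    refine (norm_integral_le_of_norm_le_const (C := ‖f‖) (Eventually.of_forall fun w => f.norm_coe_le_norm _)).trans ?_
    rw [probReal_univ, mul_one]
  have h1 := hlim (f.compContinuous ⟨zoom c, cont_zoom hc⟩)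
  have h2 := hlim f
  have e1 : ∀ j, (∫ x in (0 : ℝ)..(φ j : ℝ), ∫ w, (f.compContinuous ⟨zoom c, cont_zoom hc⟩) (tcurve (Real.exp x) w) ∂P) =
      ∫ x in Real.log c..((φ j : ℝ) + Real.log c), g x := by
    intro j
    have e2 : ∀ x : ℝ, ∫ w, (f.compContinuous ⟨zoom c, cont_zoom hc⟩) (tcurve (Real.exp x) w) ∂P = g (x + Real.log c) := by
      intro x
      rw [hg]
      refine integral_congr_ae (Eventually.of_forall fun w => ?_)
      show f (zoom c (tcurve (Real.exp x) w)) = f (tcurve (Real.exp (x + Real.log c)) w)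
      rw [zoom_tcurve hc (Real.exp_pos x), Real.exp_add, Real.exp_log hc', mul_comm]
    simp only [e2]
    rw [intervalIntegral.integral_comp_add_right (fun x => g x), zero_add]
  have e3 : ∀ j, (∫ x in Real.log c..((φ j : ℝ) + Real.log c), g x) = (∫ x in (0 : ℝ)..(φ j : ℝ), g x) +
      ((∫ x in Real.log c..(0 : ℝ), g x) + ∫ x in (φ j : ℝ)..((φ j : ℝ) + Real.log c), g x) := by
    intro j
    have i : ∀ a b : ℝ, IntervalIntegrable g volume a b := fun a b => hgc.intervalIntegrable a b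
    rw [← intervalIntegral.integral_add_adjacent_intervals (i (Real.log c) 0) (i 0 _),
      ← intervalIntegral.integral_add_adjacent_intervals (i 0 (φ j : ℝ)) (i _ _)]
    ring
  have b1 : ∀ a b : ℝ, |∫ x in a..b, g x| ≤ ‖f‖ * |b - a| := fun a b => by
    have := intervalIntegral.norm_integral_le_of_norm_le_const (a := a) (b := b) (f := g) (C := ‖f‖) fun x _ => hgb x
    exact this
  have h3 : Tendsto (fun j => ((∫ x in Real.log c..(0 : ℝ), g x) + ∫ x in (φ j : ℝ)..((φ j : ℝ) + Real.log c), g x) / (φ j : ℝ))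
      atTop (𝓝 0) := by
    have hφr : Tendsto (fun j => (φ j : ℝ)) atTop atTop := tendsto_natCast_atTop_atTop.comp hφ
    refine squeeze_zero_norm (a := fun j => (2 * (‖f‖ * |Real.log c|)) / (φ j : ℝ)) (fun j => ?_) (tendsto_const_nhds.div_atTop hφr)
    have hd : |(φ j : ℝ)| = φ j := abs_of_nonneg (Nat.cast_nonneg _)
    rw [norm_div, Real.norm_eq_abs, Real.norm_eq_abs, hd]
    refine div_le_div_of_nonneg_right ?_ (Nat.cast_nonneg _)
    refine (abs_add_le _ _).trans ?_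
    have b2 := b1 (Real.log c) 0
    have b3 := b1 (φ j) ((φ j : ℝ) + Real.log c)
    rw [zero_sub, abs_neg] at b2
    rw [add_sub_cancel_left] at b3
    linarith
  have e4 : ∀ j, (∫ x in (0 : ℝ)..(φ j : ℝ), ∫ w, (f.compContinuous ⟨zoom c, cont_zoom hc⟩) (tcurve (Real.exp x) w) ∂P) /
      (φ j : ℝ) = (∫ x in (0 : ℝ)..(φ j : ℝ), g x) / (φ j : ℝ) +
        ((∫ x in Real.log c..(0 : ℝ), g x) + ∫ x in (φ j : ℝ)..((φ j : ℝ) + Real.log c), g x) / (φ j : ℝ) := fun j => by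
    rw [e1, e3, add_div]
  have h4 : Tendsto (fun j => (∫ x in (0 : ℝ)..(φ j : ℝ), ∫ w, (f.compContinuous ⟨zoom c, cont_zoom hc⟩)
      (tcurve (Real.exp x) w) ∂P) / (φ j : ℝ)) atTop (𝓝 (∫ γ, f γ ∂ν)) := by
    simp only [e4]
    have h5 : Tendsto (fun j => (∫ x in (0 : ℝ)..(φ j : ℝ), g x) / (φ j : ℝ)) atTop (𝓝 (∫ γ, f γ ∂ν)) := by
      rw [hg]
      exact h2
    have h6 := h5.add h3
    rwa [add_zero] at h6
  exact tendsto_nhds_unique h1 h4

/-- **the limits of the logarithmic averages: exactly self-similar, simple, Hoelder** -/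
theorem self_lim (hN : PinSt P) (hL : LowSt P) (hH : HolSt P) {φ : ℕ → ℕ} (hφ : Tendsto φ atTop atTop)
    {ν : Measure C(unitInterval, ℂ)} (hν : IsProbabilityMeasure ν) (hlim : MeanTo P φ ν) :
    (∀ c : unitInterval, 0 < c → ν.map (zoom c) = ν) ∧ ∀ᵐ γ : C(unitInterval, ℂ) ∂ν, Function.Injective γ ∧ γ 0 = 0 ∧
      ∀ a : NNReal, (a : ℝ) < 3 / 4 → ∃ M : NNReal, HolderWith M a γ := by
  have h1 : Tendsto (fun j => PQ P (φ j)) atTop (𝓝 (⟨ν, hν⟩ : ProbabilityMeasure C(unitInterval, ℂ))) :=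
    (mean_iff hφ ⟨ν, hν⟩).1 hlim
  have hG := good_PQ hN hL hH hφ
  refine ⟨fun c hc => self_sim hφ hν hlim hc, ?_⟩
  filter_upwards [hG.inj h1, hG.hold h1] with γ g1 g2
  exact ⟨g1, g2⟩

end Pool.Agent.IW
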