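import Pool.Agent.IW.Res

/-!
IW: the measure of the infinite walk from the convergence of the proportions `begins`.
-/

set_option autoImplicit false

open MeasureTheory Filter Topology
open scoped Classical

namespace Pool.Agent.IW

open Res

/-- the infinite word of a finite walk, continued by zeros -/
noncomputable def ext {n : ℕ} (s : Fin n → Fin 3) : ℕ → Fin 3 := fun i => if h : i < n then s ⟨i, h⟩ else 0

lemma ext_lt {n : ℕ} (s : Fin n → Fin 3) {i : ℕ} (h : i < n) : ext s i = s ⟨i, h⟩ := by
  unfold ext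
  rw [dif_pos h]

lemma ipos_ext {n : ℕ} (s : Fin n → Fin 3) {k : ℕ} (hk : k ≤ n) : ipos (ext s) k = pos s k := by
  unfold ipos pos
  symm
  refine Finset.sum_bij (fun (i : Fin n) _ => (i : ℕ)) ?_ ?_ ?_ ?_
  · intro i hi
    rw [Finset.mem_filter] at hi
    exact Finset.mem_range.2 hi.2
  · intro i _ j _ h
    exact Fin.ext h
  · intro j hj
    rw [Finset.mem_range] at hj
    exact ⟨⟨j, by omega⟩, Finset.mem_filter.2 ⟨Finset.mem_univ _, hj⟩, rfl⟩
  · intro i _
    rw [ext_lt s i.2]

/-- the law of the uniform walk with n steps on the infinite words -/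
noncomputable def law (n : ℕ) : Measure (ℕ → Fin 3) :=
  ∑ s ∈ saw n, ((saw n).card : ENNReal)⁻¹ • Measure.dirac (ext s)

lemma law_apply (n : ℕ) {A : Set (ℕ → Fin 3)} (hA : MeasurableSet A) :
    law n A = (((saw n).filter (fun s => ext s ∈ A)).card : ENNReal) / ((saw n).card : ENNReal) := by
  unfold law
  rw [Measure.finsetSum_apply]
  simp only [Measure.smul_apply, Measure.dirac_apply' _ hA, smul_eq_mul]
  rw [← Finset.mul_sum, ENNReal.div_eq_inv_mul]
  congr 1
  rw [Finset.card_filter]
  push_cast
  refine Finset.sum_congr rfl fun s _ => ?_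
  by_cases h : ext s ∈ A
  · simp [h]
  · simp [h]

lemma law_prob {n : ℕ} (h : (saw n).Nonempty) : IsProbabilityMeasure (law n) := by
  constructor
  rw [law_apply n MeasurableSet.univ]
  simp only [Set.mem_univ, Finset.filter_true]
  refine ENNReal.div_self ?_ (ENNReal.natCast_ne_top _)
  exact_mod_cast (Finset.card_pos.2 h).ne'

/-- the cylinder of the first m letters of η -/
def cyl (m : ℕ) (η : ℕ → Fin 3) : Set (ℕ → Fin 3) := {w | ∀ i, i < m → w i = η i}

lemma clopen_cyl (m : ℕ) (η : ℕ → Fin 3) : IsClopen (cyl m η) := by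
  have h : cyl m η = ⋂ i ∈ Finset.range m, (fun w : ℕ → Fin 3 => w i) ⁻¹' {η i} := by
    ext w
    simp only [cyl, Set.mem_setOf_eq, Set.mem_iInter, Finset.mem_range, Set.mem_preimage, Set.mem_singleton_iff]
  rw [h]
  exact isClopen_biInter_finset fun i _ => (isClopen_discrete _).preimage (continuous_apply i)

lemma law_cyl {n m : ℕ} (hm : m ≤ n) (η : ℕ → Fin 3) : (law n).real (cyl m η) = begins n m η := by
  unfold Measure.real begins
  rw [law_apply n (clopen_cyl m η).isOpen.measurableSet, ENNReal.toReal_div, ENNReal.toReal_natCast, ENNReal.toReal_natCast]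
  congr 3
  ext s
  simp only [Finset.mem_filter, and_congr_right_iff]
  intro _
  constructor
  · intro h i hi
    have := h i hi
    rwa [ext_lt s i.2] at this
  · intro h i hi
    rw [ext_lt s (lt_of_lt_of_le hi hm)]
    exact h ⟨i, lt_of_lt_of_le hi hm⟩ hi

/-- the walks with the same position after j and k steps -/
def coin (j k : ℕ) : Set (ℕ → Fin 3) := {w | ipos w j = ipos w k}

lemma clopen_coin (j k : ℕ) : IsClopen (coin j k) := by
  have h : coin j k = ⋃ η ∈ {η : ℕ → Fin 3 | η ∈ coin j k}, cyl (max j k) η := by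
    ext w
    simp only [Set.mem_iUnion, Set.mem_setOf_eq]
    constructor
    · intro hw
      exact ⟨w, hw, fun _ _ => rfl⟩
    · rintro ⟨η, hη, hw⟩
      have e : ∀ l, l ≤ max j k → ipos w l = ipos η l := by
        intro l hl
        unfold ipos
        refine Finset.sum_congr rfl fun i hi => ?_
        rw [Finset.mem_range] at hi
        rw [hw i (by omega)]
      show ipos w j = ipos w k
      rw [e j (le_max_left _ _), e k (le_max_right _ _)]
      exact hη
  refine ⟨?_, ?_⟩
  · have h' : (coin j k)ᶜ = ⋃ η ∈ {η : ℕ → Fin 3 | η ∉ coin j k}, cyl (max j k) η := by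
      ext w
      simp only [Set.mem_iUnion, Set.mem_setOf_eq, Set.mem_compl_iff]
      constructor
      · intro hw
        exact ⟨w, hw, fun _ _ => rfl⟩
      · rintro ⟨η, hη, hw⟩ hc
        refine hη ?_
        rw [h] at hc
        simp only [Set.mem_iUnion, Set.mem_setOf_eq] at hc
        obtain ⟨η', hη', hw'⟩ := hc
        have e : ∀ l, l ≤ max j k → ipos η l = ipos η' l := by
          intro l hl
          unfold ipos
          refine Finset.sum_congr rfl fun i hi => ?_
          rw [Finset.mem_range] at hi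
          rw [← hw i (by omega), ← hw' i (by omega)]
        show ipos η j = ipos η k
        rw [e j (le_max_left _ _), e k (le_max_right _ _)]
        exact hη'
    rw [← isOpen_compl_iff, h']
    exact isOpen_biUnion fun η _ => (clopen_cyl _ η).isOpen
  · rw [h]
    exact isOpen_biUnion fun η _ => (clopen_cyl _ η).isOpen

lemma law_coin {n j k : ℕ} (hj : j ≤ n) (hk : k ≤ n) (hjk : j ≠ k) : law n (coin j k) = 0 := by
  rw [law_apply n (clopen_coin j k).isOpen.measurableSet]
  have h : (saw n).filter (fun s => ext s ∈ coin j k) = ∅ := by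
    rw [Finset.filter_eq_empty_iff]
    intro s hs h
    have hs' : ∀ j k : ℕ, j ≤ n → k ≤ n → pos s j = pos s k → j = k := by
      unfold saw at hs
      exact (Finset.mem_filter.1 hs).2
    have h2 : ipos (ext s) j = ipos (ext s) k := h
    rw [ipos_ext s hj, ipos_ext s hk] at h2
    exact hjk (hs' j k hj hk h2)
  rw [h, Finset.card_empty, Nat.cast_zero, ENNReal.zero_div]

/-- **the measure of the infinite walk** -/
theorem exists_law (hne : ∀ n, (saw n).Nonempty)
    (h : ∀ (η : ℕ → Fin 3) (m : ℕ), ∃ p : ℝ, Tendsto (fun n => begins n m η) atTop (𝓝 p)) :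
    ∃ P : Measure (ℕ → Fin 3), IsProbabilityMeasure P ∧ (∀ᵐ w ∂P, Function.Injective (ipos w)) ∧
      ∀ (η : ℕ → Fin 3) (m : ℕ), Tendsto (fun n => begins n m η) atTop (𝓝 (P.real {w | ∀ i, i < m → w i = η i})) := by
  obtain ⟨L, hL⟩ : ∃ L : ℕ → ProbabilityMeasure (ℕ → Fin 3), ∀ n, (L n : Measure (ℕ → Fin 3)) = law n :=
    ⟨fun n => ⟨law n, law_prob (hne n)⟩, fun _ => rfl⟩
  obtain ⟨P, -, φ, hφ, hP⟩ := isCompact_univ.tendsto_subseq (x := L) (fun _ => Set.mem_univ _)
  have key : ∀ A : Set (ℕ → Fin 3), IsClopen A →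
      Tendsto (fun i => (law (φ i)).real A) atTop (𝓝 ((P : Measure (ℕ → Fin 3)).real A)) := by
    intro A hA
    have h1 := ProbabilityMeasure.tendsto_measure_of_null_frontier_of_tendsto' hP (E := A)
      (by rw [hA.frontier_eq, measure_empty])
    have h2 := (ENNReal.tendsto_toReal (measure_ne_top (P : Measure (ℕ → Fin 3)) A)).comp h1
    refine h2.congr fun i => ?_
    show ((L (φ i) : Measure (ℕ → Fin 3)) A).toReal = _
    rw [hL]
    rfl
  refine ⟨P, inferInstance, ?_, ?_⟩
  · have h0 : ∀ j k : ℕ, j ≠ k → (P : Measure (ℕ → Fin 3)) (coin j k) = 0 := by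
      intro j k hjk
      have h1 := key (coin j k) (clopen_coin j k)
      have h2 : Tendsto (fun i => (law (φ i)).real (coin j k)) atTop (𝓝 0) := by
        refine tendsto_const_nhds.congr' ?_
        filter_upwards [hφ.tendsto_atTop.eventually_ge_atTop (max j k)] with i hi
        have hi' : max j k ≤ φ i := hi
        unfold Measure.real
        rw [law_coin (by omega) (by omega) hjk, ENNReal.toReal_zero]
      have h3 := tendsto_nhds_unique h1 h2
      rwa [measureReal_eq_zero_iff] at h3
    have h1 : ∀ᵐ w ∂(P : Measure (ℕ → Fin 3)), ∀ j k : ℕ, j ≠ k → ipos w j ≠ ipos w k := by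
      rw [ae_all_iff]
      intro j
      rw [ae_all_iff]
      intro k
      by_cases hjk : j = k
      · exact Filter.Eventually.of_forall fun w h => absurd hjk h
      · have : ∀ᵐ w ∂(P : Measure (ℕ → Fin 3)), w ∉ coin j k := by
          rw [ae_iff]
          simp only [not_not]
          exact h0 j k hjk
        filter_upwards [this] with w hw _
        exact hw
    filter_upwards [h1] with w hw j k hjk
    by_contra hne
    exact hw j k hne hjk
  · intro η m
    obtain ⟨p, hp⟩ := h η m
    have h1 : Tendsto (fun i => (law (φ i)).real (cyl m η)) atTop (𝓝 ((P : Measure (ℕ → Fin 3)).real (cyl m η))) :=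
      key _ (clopen_cyl m η)
    have h2 : Tendsto (fun i => (law (φ i)).real (cyl m η)) atTop (𝓝 p) := by
      refine (hp.comp hφ.tendsto_atTop).congr' ?_
      filter_upwards [hφ.tendsto_atTop.eventually_ge_atTop m] with i hi
      exact (law_cyl hi η).symm
    have h3 := tendsto_nhds_unique h1 h2
    show Tendsto (fun n => begins n m η) atTop (𝓝 ((P : Measure (ℕ → Fin 3)).real (cyl m η)))
    rw [h3]
    exact hp

end Pool.Agent.IW
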