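import Pool.Agent.IW.Inj
import Pool.Agent.IW.TightP

/-!
IW (helper11): weak limits of laws on the curves are simple and Hoelder, from uniform bounds (abstract form).
-/

set_option autoImplicit false

open MeasureTheory Filter Topology
open scoped Classical

namespace Pool.Agent.IW

open HexObs.SIM (Pinch pinch_open)

/-- uniform bounds for a sequence of laws -/
structure Good (Q : ℕ → ProbabilityMeasure C(unitInterval, ℂ)) : Prop where
  zero : ∀ᶠ j in atTop, (Q j : Measure C(unitInterval, ℂ)) {γ | γ 0 = 0}ᶜ = 0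
  pin : ∀ η ε : ℝ, 0 < η → 0 < ε → ∃ δ : ℝ, 0 < δ ∧ ∀ᶠ j in atTop, (Q j : Measure C(unitInterval, ℂ)) (Pinch η δ) ≤
    ENNReal.ofReal ε
  low : ∀ h ε : ℝ, 0 < h → 0 < ε → ∃ η : ℝ, 0 < η ∧ ∀ᶠ j in atTop, (Q j : Measure C(unitInterval, ℂ)) (Flat h η) ≤
    ENNReal.ofReal ε
  hol : ∀ a : NNReal, 0 < a → (a : ℝ) < 3 / 4 → ∀ ε : ℝ, 0 < ε → ∃ M : NNReal, ∀ᶠ j in atTop,
    (Q j : Measure C(unitInterval, ℂ)) {γ | HolderWith M a γ}ᶜ ≤ ENNReal.ofReal ε

variable {Q : ℕ → ProbabilityMeasure C(unitInterval, ℂ)} {ν : ProbabilityMeasure C(unitInterval, ℂ)}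

/-- no constant piece in a limit -/
theorem Good.no_const (hQ : Good Q) (hlim : Tendsto Q atTop (𝓝 ν)) :
    ∀ᵐ γ : C(unitInterval, ℂ) ∂(ν : Measure C(unitInterval, ℂ)), ∀ u v : unitInterval, u < v →
      ∃ x : unitInterval, u ≤ x ∧ x ≤ v ∧ γ x ≠ γ u := by
  have key : ∀ j : ℕ, ∀ᵐ γ : C(unitInterval, ℂ) ∂(ν : Measure C(unitInterval, ℂ)),
      ¬ ∃ u v : unitInterval, 1 / ((j : ℝ) + 1) ≤ (v : ℝ) - u ∧ u ≤ v ∧
      ∀ x : unitInterval, u ≤ x → x ≤ v → γ x = γ u := by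
    intro j
    rw [ae_iff]
    refine le_antisymm (ENNReal.le_of_forall_pos_le_add ?_) zero_le
    intro ε hε _
    rw [zero_add]
    obtain ⟨η, hη, h1⟩ := hQ.low (1 / ((j : ℝ) + 1)) ε (by positivity) (by exact_mod_cast hε)
    have h4 := NTF.open_le hlim (flat_open (1 / ((j : ℝ) + 1)) η) (ε := ENNReal.ofReal ε) h1
    rw [ENNReal.ofReal_coe_nnreal] at h4
    refine le_trans (measure_mono ?_) h4
    intro γ hγ
    rw [Set.mem_ofPred_eq, not_not] at hγ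
    obtain ⟨u, v, h5, h6, h7⟩ := hγ
    exact ⟨u, v, h5, h6, fun x x1 x2 => by rwa [h7 x x1 x2, dist_self]⟩
  filter_upwards [ae_all_iff.2 key] with γ hγ u v huv
  by_contra hne
  push Not at hne
  have huv' : (0 : ℝ) < (v : ℝ) - u := sub_pos.2 (by exact_mod_cast huv)
  obtain ⟨j, hj⟩ := exists_nat_one_div_lt huv'
  exact hγ j ⟨u, v, hj.le, huv.le, hne⟩

/-- no return after an excursion in a limit -/
theorem Good.no_pinch (hQ : Good Q) (hlim : Tendsto Q atTop (𝓝 ν)) :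
    ∀ᵐ γ : C(unitInterval, ℂ) ∂(ν : Measure C(unitInterval, ℂ)), ∀ u w v : unitInterval, u ≤ w → w ≤ v → γ v = γ u →
      γ w = γ u := by
  have key : ∀ j : ℕ, ∀ᵐ γ : C(unitInterval, ℂ) ∂(ν : Measure C(unitInterval, ℂ)),
      ¬ ∃ u w v : unitInterval, u ≤ w ∧ w ≤ v ∧ 1 / ((j : ℝ) + 1) < dist (γ w) (γ u) ∧ γ v = γ u := by
    intro j
    rw [ae_iff]
    refine le_antisymm (ENNReal.le_of_forall_pos_le_add ?_) zero_le
    intro ε hε _
    rw [zero_add]
    obtain ⟨δ, hδ, h1⟩ := hQ.pin (1 / ((j : ℝ) + 1)) ε (by positivity) (by exact_mod_cast hε)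
    have h4 := NTF.open_le hlim (pinch_open (1 / ((j : ℝ) + 1)) δ) (ε := ENNReal.ofReal ε) h1
    rw [ENNReal.ofReal_coe_nnreal] at h4
    refine le_trans (measure_mono ?_) h4
    intro γ hγ
    rw [Set.mem_ofPred_eq, not_not] at hγ
    obtain ⟨u, w, v, huw, hwv, h5, h6⟩ := hγ
    exact ⟨u, w, v, huw, hwv, h5, by rwa [h6, dist_self]⟩
  filter_upwards [ae_all_iff.2 key] with γ hγ u w v huw hwv heq
  by_contra hne
  have hd : 0 < dist (γ w) (γ u) := dist_pos.2 hne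
  obtain ⟨j, hj⟩ := exists_nat_one_div_lt hd
  exact hγ j ⟨u, w, v, huw, hwv, hj, heq⟩

/-- the weak limits are simple curves -/
theorem Good.inj (hQ : Good Q) (hlim : Tendsto Q atTop (𝓝 ν)) :
    ∀ᵐ γ : C(unitInterval, ℂ) ∂(ν : Measure C(unitInterval, ℂ)), Function.Injective γ := by
  filter_upwards [hQ.no_pinch hlim, hQ.no_const hlim] with γ h1 h2
  have key : ∀ u v : unitInterval, u < v → γ v ≠ γ u := by
    intro u v huv heq
    obtain ⟨w, hw1, hw2, hw3⟩ := h2 u v huv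
    exact hw3 (h1 u w v hw1 hw2 heq)
  intro u v heq
  rcases lt_trichotomy u v with h4 | h4 | h4
  · exact absurd heq.symm (key u v h4)
  · exact h4
  · exact absurd heq (key v u h4)

/-- Hoelder continuity of the limits, one exponent -/
lemma Good.hold_one (hQ : Good Q) (hlim : Tendsto Q atTop (𝓝 ν)) {a : NNReal} (ha : 0 < a) (ha1 : (a : ℝ) < 3 / 4) :
    ∀ᵐ γ : C(unitInterval, ℂ) ∂(ν : Measure C(unitInterval, ℂ)), ∃ M : NNReal, HolderWith M a γ := by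
  rw [ae_iff]
  refine le_antisymm (ENNReal.le_of_forall_pos_le_add ?_) zero_le
  intro ε hε _
  obtain ⟨M, hM⟩ := hQ.hol a ha ha1 ε (by exact_mod_cast hε)
  have h1 := NTF.open_le hlim (NTF.closed_holder M a).isOpen_compl hM
  rw [zero_add]
  rw [ENNReal.ofReal_coe_nnreal] at h1
  refine (measure_mono ?_).trans h1
  intro f hf hfM
  exact hf ⟨M, hfM⟩

/-- **the weak limits start at 0 and are Hoelder continuous of every exponent below 3 / 4** -/
theorem Good.hold (hQ : Good Q) (hlim : Tendsto Q atTop (𝓝 ν)) :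
    ∀ᵐ γ : C(unitInterval, ℂ) ∂(ν : Measure C(unitInterval, ℂ)), γ 0 = 0 ∧ ∀ a : NNReal, (a : ℝ) < 3 / 4 →
      ∃ M : NNReal, HolderWith M a γ := by
  have c1 : IsClosed {γ : C(unitInterval, ℂ) | γ 0 = 0} := isClosed_eq (NTF.cont_eval 0) continuous_const
  have h0 : ∀ᵐ γ : C(unitInterval, ℂ) ∂(ν : Measure C(unitInterval, ℂ)), γ 0 = 0 := by
    have h1 : (ν : Measure C(unitInterval, ℂ)) {γ : C(unitInterval, ℂ) | γ 0 = 0}ᶜ ≤ 0 :=
      NTF.open_le hlim c1.isOpen_compl (hQ.zero.mono fun k hk => hk.le)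
    exact le_antisymm h1 zero_le
  -- a sequence of exponents
  obtain ⟨e, he⟩ : ∃ e : ℕ → NNReal, ∀ m, ((e m : NNReal) : ℝ) = 3 / 4 - 1 / ((m : ℝ) + 2) := by
    refine ⟨fun m => ⟨3 / 4 - 1 / ((m : ℝ) + 2), ?_⟩, fun m => rfl⟩
    have h1 : (1 : ℝ) / (m + 2) ≤ 1 / 2 := one_div_le_one_div_of_le (by norm_num) (by
      have : (0 : ℝ) ≤ m := Nat.cast_nonneg m
      linarith)
    linarith
  have hseq : ∀ᵐ γ : C(unitInterval, ℂ) ∂(ν : Measure C(unitInterval, ℂ)), ∀ m : ℕ, ∃ M : NNReal, HolderWith M (e m) γ := by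
    rw [ae_all_iff]
    intro m
    have h1 : (1 : ℝ) / (m + 2) ≤ 1 / 2 := one_div_le_one_div_of_le (by norm_num) (by
      have : (0 : ℝ) ≤ m := Nat.cast_nonneg m
      linarith)
    have h2 : (0 : ℝ) < 1 / (m + 2) := by positivity
    have h3 : (0 : ℝ) < e m := by
      rw [he]
      linarith
    have h4 : (e m : ℝ) < 3 / 4 := by
      rw [he]
      linarith
    exact hQ.hold_one hlim (by exact_mod_cast h3) h4
  filter_upwards [h0, hseq] with γ g0 h
  refine ⟨g0, fun a ha => ?_⟩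
  obtain ⟨m, hm⟩ := exists_nat_gt (1 / (3 / 4 - (a : ℝ)))
  have h1 : 0 < 3 / 4 - (a : ℝ) := by linarith
  have h2 : (a : ℝ) ≤ e m := by
    rw [he]
    have h3 : 1 / ((m : ℝ) + 2) ≤ 3 / 4 - a := by
      rw [div_lt_iff₀ h1] at hm
      rw [div_le_iff₀ (by positivity)]
      nlinarith
    linarith
  obtain ⟨M, hM⟩ := h m
  exact ⟨M, NTSF.holder_mono (by exact_mod_cast h2) hM⟩

end Pool.Agent.IW
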