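import Pool.Agent.IW.SelfG
import Pool.Agent.IW.Hold
import Pool.Agent.IW.ResT

/-!
IW (helper11): the logarithmic averages of the laws of the rescaled infinite walk have self-similar limits.
-/

set_option autoImplicit false

open MeasureTheory Filter Topology
open scoped Classical

namespace Pool.Agent.IW

open Res

open HexObs.SIM (Pinch pinch_open)

/-! ### the curves at real scales -/

lemma icurve_tcurve (k : ℕ) (w : ℕ → Fin 3) : icurve k w = tcurve (k : ℝ) w := by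
  ext u
  show ∑ j ∈ Finset.range k, _ = ∑ j ∈ Finset.range ⌈(k : ℝ)⌉₊, _
  rw [Nat.ceil_natCast]

lemma tlaw_iff {P : Measure (ℕ → Fin 3)} {φ : ℕ → ℕ} {ν : Measure C(unitInterval, ℂ)} : TLawTo P φ ν ↔ ILawTo P φ ν := by
  unfold TLawTo ILawTo
  simp only [icurve_tcurve]

/-- the terms beyond the last step vanish -/
lemma tcurve_sum {t : ℝ} (ht : 0 < t) {K : ℕ} (hK : t ≤ K) (w : ℕ → Fin 3) (u : unitInterval) :
    tcurve t w u = ∑ j ∈ Finset.range K,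
      ((max 0 (min 1 ((u : ℝ) * t - j)) : ℝ) : ℂ) * (Res.step j (w j) / (t ^ (3 / 4 : ℝ) : ℝ)) := by
  show ∑ j ∈ Finset.range ⌈t⌉₊, _ = _
  refine Finset.sum_subset (Finset.range_subset_range.2 (Nat.ceil_le.2 hK)) fun j _ hj => ?_
  rw [Finset.mem_range, not_lt] at hj
  have h1 : t ≤ j := (Nat.le_ceil t).trans (by exact_mod_cast hj)
  have h2 : (u : ℝ) * t ≤ t := mul_le_of_le_one_left ht.le u.2.2
  have h3 : max 0 (min 1 ((u : ℝ) * t - j)) = 0 := max_eq_left ((min_le_right _ _).trans (by linarith))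
  rw [h3, Complex.ofReal_zero, zero_mul]

/-- **the change of the scale** -/
theorem zoom_tcurve {c : unitInterval} (hc : 0 < c) {t : ℝ} (ht : 0 < t) (w : ℕ → Fin 3) :
    zoom c (tcurve t w) = tcurve ((c : ℝ) * t) w := by
  have hc' : (0 : ℝ) < c := by exact_mod_cast hc
  ext u
  show tcurve t w (c * u) / (((c : ℝ) ^ (3 / 4 : ℝ) : ℝ) : ℂ) = _
  have hK : (c : ℝ) * t ≤ ⌈t⌉₊ := (mul_le_of_le_one_left ht.le c.2.2).trans (Nat.le_ceil t)
  rw [tcurve_sum ht (Nat.le_ceil t), tcurve_sum (mul_pos hc' ht) hK, Finset.sum_div]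
  refine Finset.sum_congr rfl fun j _ => ?_
  have e1 : (((c * u : unitInterval)) : ℝ) * t = (u : ℝ) * ((c : ℝ) * t) := by
    rw [Set.Icc.coe_mul]
    ring
  have e2 : ((c : ℝ) * t) ^ (3 / 4 : ℝ) = (c : ℝ) ^ (3 / 4 : ℝ) * t ^ (3 / 4 : ℝ) := Real.mul_rpow hc'.le ht.le
  have h1 : (((c : ℝ) ^ (3 / 4 : ℝ) : ℝ) : ℂ) ≠ 0 := by
    exact_mod_cast (Real.rpow_pos_of_pos hc' _).ne'
  have h2 : ((t ^ (3 / 4 : ℝ) : ℝ) : ℂ) ≠ 0 := by
    exact_mod_cast (Real.rpow_pos_of_pos ht _).ne'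
  rw [e1, e2, Complex.ofReal_mul]
  field_simp

lemma tcurve_zero (t : ℝ) (w : ℕ → Fin 3) : tcurve t w 0 = 0 := by
  show ∑ j ∈ Finset.range ⌈t⌉₊, _ = (0 : ℂ)
  refine Finset.sum_eq_zero fun j _ => ?_
  have h1 : ((0 : unitInterval) : ℝ) * t - (j : ℝ) ≤ 0 := by
    have h2 : (0 : ℝ) ≤ j := Nat.cast_nonneg j
    rw [Set.Icc.coe_zero, zero_mul]
    linarith
  rw [max_eq_left ((min_le_right _ _).trans h1), Complex.ofReal_zero, zero_mul]

/-- the joint function of the scale and the walk -/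
noncomputable def FK (K : ℕ) : C((ℝ × (ℕ → Fin 3)) × unitInterval, ℂ) where
  toFun p := ∑ j ∈ Finset.range K, ((max 0 (min 1 ((p.2 : ℝ) * Real.exp p.1.1 - j)) : ℝ) : ℂ) *
    (Res.step j (p.1.2 j) / (Real.exp (p.1.1 * (3 / 4)) : ℝ))
  continuous_toFun := by
    refine continuous_finsetSum _ fun j _ => Continuous.mul (by fun_prop) (Continuous.div ?_ (by fun_prop) fun p => ?_)
    · have h1 : Continuous fun w : ℕ → Fin 3 => Res.step j (w j) :=
        (continuous_of_discreteTopology (f := Res.step j)).comp (continuous_apply j)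
      exact h1.comp (continuous_snd.comp continuous_fst)
    · exact_mod_cast (Real.exp_pos _).ne'

lemma FK_eq {K : ℕ} {x : ℝ} (hK : Real.exp x ≤ K) (w : ℕ → Fin 3) : (FK K).curry (x, w) = tcurve (Real.exp x) w := by
  ext u
  rw [tcurve_sum (Real.exp_pos x) hK, ← Real.exp_mul x (3 / 4)]
  rfl

lemma cont_x (w : ℕ → Fin 3) : Continuous fun x : ℝ => tcurve (Real.exp x) w := by
  rw [continuous_iff_continuousAt]
  intro x0
  have h1 : ContinuousAt (fun x : ℝ => (FK ⌈Real.exp (x0 + 1)⌉₊).curry (x, w)) x0 :=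
    ((FK ⌈Real.exp (x0 + 1)⌉₊).curry.continuous.comp (Continuous.prodMk continuous_id continuous_const)).continuousAt
  refine h1.congr ?_
  filter_upwards [Iio_mem_nhds (show x0 < x0 + 1 by linarith)] with x hx
  exact FK_eq ((Real.exp_le_exp.2 (le_of_lt hx)).trans (Nat.le_ceil _)) w

lemma cont_w (t : ℝ) (ht : 0 < t) : Continuous fun w : ℕ → Fin 3 => tcurve t w := by
  have h1 : Continuous fun w : ℕ → Fin 3 => (FK ⌈t⌉₊).curry (Real.log t, w) :=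
    (FK ⌈t⌉₊).curry.continuous.comp (Continuous.prodMk continuous_const continuous_id)
  refine h1.congr fun w => ?_
  have h2 := FK_eq (K := ⌈t⌉₊) (x := Real.log t) (by rw [Real.exp_log ht]; exact Nat.le_ceil t) w
  rwa [Real.exp_log ht] at h2

/-! ### the zoom -/

lemma zoom_apply (c : unitInterval) (g : C(unitInterval, ℂ)) (u : unitInterval) :
    zoom c g u = g (c * u) / (((c : ℝ) ^ (3 / 4 : ℝ) : ℝ) : ℂ) := rfl

lemma zoom_dist {c : unitInterval} (hc : 0 < c) (g : C(unitInterval, ℂ)) (u v : unitInterval) :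
    dist (zoom c g u) (zoom c g v) = dist (g (c * u)) (g (c * v)) / (c : ℝ) ^ (3 / 4 : ℝ) := by
  have hc' : (0 : ℝ) < (c : ℝ) ^ (3 / 4 : ℝ) := Real.rpow_pos_of_pos (by exact_mod_cast hc) _
  rw [zoom_apply, zoom_apply, dist_eq_norm, ← sub_div, norm_div, Complex.norm_real, Real.norm_of_nonneg hc'.le, dist_eq_norm]

lemma cont_zoom {c : unitInterval} (hc : 0 < c) : Continuous (zoom c) := by
  have hc' : (0 : ℝ) < (c : ℝ) ^ (3 / 4 : ℝ) := Real.rpow_pos_of_pos (by exact_mod_cast hc) _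
  refine (LipschitzWith.of_dist_le_mul (K := ⟨((c : ℝ) ^ (3 / 4 : ℝ))⁻¹, inv_nonneg.2 hc'.le⟩) fun g g' => ?_).continuous
  have hK : (0 : ℝ) ≤ ((c : ℝ) ^ (3 / 4 : ℝ))⁻¹ * dist g g' := mul_nonneg (inv_nonneg.2 hc'.le) dist_nonneg
  refine (ContinuousMap.dist_le hK).2 fun u => ?_
  rw [zoom_apply, zoom_apply, dist_eq_norm, ← sub_div, norm_div, Complex.norm_real, Real.norm_of_nonneg hc'.le, ← dist_eq_norm,
    div_eq_inv_mul]
  exact mul_le_mul_of_nonneg_left (ContinuousMap.dist_apply_le_dist _) (by positivity)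

lemma pow_half {c : unitInterval} (hc : (1 / 2 : ℝ) ≤ c) : (1 / 2 : ℝ) ≤ (c : ℝ) ^ (3 / 4 : ℝ) ∧ (c : ℝ) ^ (3 / 4 : ℝ) ≤ 1 := by
  have h0 : (0 : ℝ) ≤ c := c.2.1
  refine ⟨?_, Real.rpow_le_one h0 c.2.2 (by norm_num)⟩
  calc (1 / 2 : ℝ) ≤ c := hc
    _ = (c : ℝ) ^ (1 : ℝ) := (Real.rpow_one _).symm
    _ ≤ (c : ℝ) ^ (3 / 4 : ℝ) := Real.rpow_le_rpow_of_exponent_ge (by linarith) c.2.2 (by norm_num)

lemma zoom_pinch {c : unitInterval} (hc : (1 / 2 : ℝ) ≤ c) {η δ : ℝ} {g : C(unitInterval, ℂ)} (h : zoom c g ∈ Pinch η δ)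
    (hη : 0 < η) (hδ : 0 < δ) : g ∈ Pinch (η / 2) δ := by
  obtain ⟨h1, h2⟩ := pow_half hc
  have hc0 : 0 < c := by
    have : (0 : ℝ) < c := by linarith
    exact_mod_cast this
  have hp : (0 : ℝ) < (c : ℝ) ^ (3 / 4 : ℝ) := by linarith
  obtain ⟨u, w, v, a1, a2, a3, a4⟩ := h
  rw [zoom_dist hc0] at a3 a4
  rw [lt_div_iff₀ hp] at a3
  rw [div_lt_iff₀ hp] at a4
  refine ⟨c * u, c * w, c * v, ?_, ?_, by nlinarith, by nlinarith⟩
  · exact Subtype.coe_le_coe.1 (by rw [Set.Icc.coe_mul, Set.Icc.coe_mul]; exact mul_le_mul_of_nonneg_left a1 c.2.1)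
  · exact Subtype.coe_le_coe.1 (by rw [Set.Icc.coe_mul, Set.Icc.coe_mul]; exact mul_le_mul_of_nonneg_left a2 c.2.1)

lemma zoom_flat {c : unitInterval} (hc : (1 / 2 : ℝ) ≤ c) {h η : ℝ} {g : C(unitInterval, ℂ)} (hg : zoom c g ∈ Flat h η)
    (hh : 0 < h) (hη : 0 < η) : g ∈ Flat (h / 2) η := by
  obtain ⟨h1, h2⟩ := pow_half hc
  have hc0' : (0 : ℝ) < c := by linarith
  have hc0 : 0 < c := by exact_mod_cast hc0'
  have hp : (0 : ℝ) < (c : ℝ) ^ (3 / 4 : ℝ) := by linarith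
  obtain ⟨u, v, a1, a2, a3⟩ := hg
  refine ⟨c * u, c * v, ?_, ?_, fun x hx1 hx2 => ?_⟩
  · rw [Set.Icc.coe_mul, Set.Icc.coe_mul, ← mul_sub]
    nlinarith
  · exact Subtype.coe_le_coe.1 (by rw [Set.Icc.coe_mul, Set.Icc.coe_mul]; exact mul_le_mul_of_nonneg_left a2 c.2.1)
  · have hx1' : (c : ℝ) * u ≤ x := by
      have := Subtype.coe_le_coe.2 hx1
      rwa [Set.Icc.coe_mul] at this
    have hx2' : (x : ℝ) ≤ c * v := by
      have := Subtype.coe_le_coe.2 hx2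
      rwa [Set.Icc.coe_mul] at this
    have hy1 : (u : ℝ) ≤ (x : ℝ) / c := by
      rw [le_div_iff₀ hc0']
      linarith
    have hy2 : (x : ℝ) / c ≤ v := by
      rw [div_le_iff₀ hc0']
      linarith
    obtain ⟨y, hy⟩ : ∃ y : unitInterval, (y : ℝ) = (x : ℝ) / c :=
      ⟨⟨(x : ℝ) / c, u.2.1.trans hy1, hy2.trans v.2.2⟩, rfl⟩
    have e : c * y = x := by
      refine Subtype.ext ?_
      rw [Set.Icc.coe_mul, hy]
      field_simp
    have h3 := a3 y (Subtype.coe_le_coe.1 (by rw [hy]; exact hy1)) (Subtype.coe_le_coe.1 (by rw [hy]; exact hy2))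
    rw [zoom_dist hc0, e, div_lt_iff₀ hp] at h3
    nlinarith

lemma zoom_holder {c : unitInterval} (hc : (1 / 2 : ℝ) ≤ c) {M a : NNReal} {g : C(unitInterval, ℂ)} (h : HolderWith M a g) :
    HolderWith (2 * M) a (zoom c g) := by
  obtain ⟨h1, h2⟩ := pow_half hc
  have hc0' : (0 : ℝ) < c := by linarith
  have hc0 : 0 < c := by exact_mod_cast hc0'
  have hp : (0 : ℝ) < (c : ℝ) ^ (3 / 4 : ℝ) := by linarith
  refine holder_of fun u v => ?_
  rw [zoom_dist hc0, div_le_iff₀ hp]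
  have h3 := h.dist_le (c * u) (c * v)
  have h4 : dist (c * u) (c * v) ≤ dist u v := by
    rw [Subtype.dist_eq, Subtype.dist_eq, Set.Icc.coe_mul, Set.Icc.coe_mul, Real.dist_eq, Real.dist_eq, ← mul_sub, abs_mul,
      abs_of_pos hc0']
    exact mul_le_of_le_one_left (abs_nonneg _) c.2.2
  have h5 : dist (c * u) (c * v) ^ (a : ℝ) ≤ dist u v ^ (a : ℝ) := Real.rpow_le_rpow dist_nonneg h4 a.2
  have h6 : (0 : ℝ) ≤ M * dist u v ^ (a : ℝ) := by positivity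
  calc dist (g (c * u)) (g (c * v)) ≤ M * dist (c * u) (c * v) ^ (a : ℝ) := h3
    _ ≤ M * dist u v ^ (a : ℝ) := mul_le_mul_of_nonneg_left h5 M.2
    _ ≤ ((2 * M : NNReal) : ℝ) * dist u v ^ (a : ℝ) * (c : ℝ) ^ (3 / 4 : ℝ) := by
        rw [NNReal.coe_mul, NNReal.coe_ofNat]
        nlinarith

/-- the scale t >= 1 from the next integer -/
lemma tcurve_zoom {t : ℝ} (ht : 1 ≤ t) : ∃ c : unitInterval, (1 / 2 : ℝ) ≤ c ∧ ∀ w, tcurve t w = zoom c (icurve ⌈t⌉₊ w) := by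
  have h1 : (t : ℝ) ≤ ⌈t⌉₊ := Nat.le_ceil t
  have h2 : (⌈t⌉₊ : ℝ) < t + 1 := Nat.ceil_lt_add_one (by linarith)
  have h3 : (0 : ℝ) < ⌈t⌉₊ := by linarith
  have h4 : (1 / 2 : ℝ) ≤ t / ⌈t⌉₊ := by
    rw [le_div_iff₀ h3]
    linarith
  have h5 : t / ⌈t⌉₊ ≤ 1 := by
    rw [div_le_one h3]
    exact h1
  refine ⟨⟨t / ⌈t⌉₊, by linarith, h5⟩, h4, fun w => ?_⟩
  have hc : (0 : unitInterval) < ⟨t / ⌈t⌉₊, by linarith, h5⟩ := by
    have : (0 : ℝ) < t / ⌈t⌉₊ := by linarith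
    exact_mod_cast this
  rw [icurve_tcurve, zoom_tcurve hc h3]
  congr 1
  show t = t / ⌈t⌉₊ * ⌈t⌉₊
  field_simp

end Pool.Agent.IW
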