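import Pool.Agent.TIP.TipXJ

/-!
IW: the tip lemma with one step (step3g, tipxg, tipxJ of TIP, helper45), the condition on the class P' only for words A whose
tip sits on a bridge of the scale b (helper11).
-/

set_option autoImplicit false

namespace HexObs

namespace TIP

open Finset TS SDN NTW NTA SIM

open scoped ENNReal

open Classical in
/-- **one step of the recursion for the words of P**; P0: all words of the box; P': the words that are left if the end Z2 of a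
bridge Z1 ++ Z2 that is not in Wd is cut off -/
theorem step3o (Fr : List Bool → List Bool → Prop) {P P' P0 Wd : Set (List Bool)} {b : ℕ} {η κ : ℝ} {E w : ℝ≥0∞}
    (hsa : P ⊆ SA) (h0 : ∀ A Z, A ++ Z ∈ P → Z ∈ BU → hgt Z ≤ 2 ^ (b + 1) → A ∈ P0)
    (h1 : ∀ A Z1 Z2, A ++ (Z1 ++ Z2) ∈ P → Z1 ∈ BU → Z2 ∈ BU → hgt (Z1 ++ Z2) ≤ 2 ^ (b + 1) → Z1 ++ Z2 ∉ Wd →
      OnB (b + 1) A → A ++ Z1 ∈ P') (hη : 0 < η) (hκ : 0 < κ)
    (hUA : ∀ A, gf {Z | Z ∈ BU ∧ hgt Z ≤ 2 ^ (b + 1) ∧ A ++ Z ∈ SA ∧ (frN Fr A Z : ℝ) < κ} ≤ E)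
    (hw : gf {Z | Z ∈ BU ∧ hgt Z ≤ 2 ^ (b + 1) ∧ Z ∈ Wd} ≤ w) :
    gf (P ∩ GT (b + 1) η) ≤ ENNReal.ofReal (4 / (η * Ub (b + 1))) * (gf (P0 ∩ GT b (η / 8)) * (E + w)) +
      ENNReal.ofReal (Ub (b + 1) / κ) * gf (FT Fr P' (b + 1)) := by
  have hU : (0 : ℝ) < Ub (b + 1) := Ub_pos (b + 1)
  -- exceptional rich cuts
  obtain ⟨Ex, hEx⟩ : ∃ Ex : List Bool → ℕ → Prop, Ex = fun L j => L.take j ∈ GT b (η / 8) ∧
    ((frN Fr (L.take j) (L.drop j) : ℝ) < κ ∨ L.drop j ∈ Wd) := ⟨_, rfl⟩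
  obtain ⟨G1, hG1⟩ : ∃ G1 : Set (List Bool), G1 = {L | L ∈ P ∧ L ∈ GT (b + 1) η ∧
    η / 4 * Ub (b + 1) ≤ (((cs (b + 1) L).filter (Ex L)).card : ℝ)} := ⟨_, rfl⟩
  obtain ⟨G2, hG2⟩ : ∃ G2 : Set (List Bool), G2 = {L | L ∈ P ∧ L ∈ GT (b + 1) η ∧
    ¬ η / 4 * Ub (b + 1) ≤ (((cs (b + 1) L).filter (Ex L)).card : ℝ)} := ⟨_, rfl⟩
  have hcov : P ∩ GT (b + 1) η ⊆ G1 ∪ G2 := by
    rintro L ⟨hL1, hL2⟩
    by_cases h : η / 4 * Ub (b + 1) ≤ (((cs (b + 1) L).filter (Ex L)).card : ℝ)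
    · exact Or.inl (by rw [hG1]; exact ⟨hL1, hL2, h⟩)
    · exact Or.inr (by rw [hG2]; exact ⟨hL1, hL2, h⟩)
  have hdrop : ∀ (L : List Bool) (q : ℕ), L ∈ P → L.drop q ∈ BU → hgt (L.drop q) ≤ 2 ^ (b + 1) → L.take q ∈ P0 := by
    intro L q hL h1 h2
    exact h0 (L.take q) (L.drop q) (by rwa [List.take_append_drop]) h1 h2
  -- the first part
  have h2 : ENNReal.ofReal (η / 4 * Ub (b + 1)) * gf G1 ≤ gf (P0 ∩ GT b (η / 8)) * (E + w) := by
    refine dc (Y := fun A => {Z | Z ∈ BU ∧ hgt Z ≤ 2 ^ (b + 1) ∧ A ++ Z ∈ SA ∧ (frN Fr A Z : ℝ) < κ} ∪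
      {Z | Z ∈ BU ∧ hgt Z ≤ 2 ^ (b + 1) ∧ Z ∈ Wd})
      (fun A _ => (gf_union_le _ _).trans (add_le_add (hUA A) hw)) fun L hL => ?_
    rw [hG1] at hL
    obtain ⟨hL1, -, hL3⟩ := hL
    refine ⟨(cs (b + 1) L).filter (Ex L), ?_, fun q hq => ?_⟩
    · rw [← ENNReal.ofReal_natCast]
      exact ENNReal.ofReal_le_ofReal hL3
    · rw [mem_filter] at hq
      obtain ⟨hq1, hq2⟩ := hq
      rw [hEx] at hq2
      obtain ⟨hq3, hq4⟩ := hq2
      obtain ⟨c1, c2, c3, -⟩ := mem_cs.1 hq1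
      refine ⟨c1, ⟨hdrop L q hL1 c2 c3, hq3⟩, ?_⟩
      rcases hq4 with hq4 | hq4
      · refine Or.inl ⟨c2, c3, ?_, hq4⟩
        rw [List.take_append_drop]
        exact hsa hL1
      · exact Or.inr ⟨c2, c3, hq4⟩
  -- the second part
  have h3 : ENNReal.ofReal κ * gf G2 ≤ gf (FT Fr P' (b + 1)) * ENNReal.ofReal (Ub (b + 1)) := by
    refine dc (Y := fun _ => {Z | ∃ n, n ≤ 2 ^ (b + 1) ∧ Z ∈ Brd n}) (fun A _ => gf_BU_le _) fun L hL => ?_
    rw [hG2] at hL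
    obtain ⟨hL1, hL2, hL3⟩ := hL
    -- a rich cut with many free cuts
    obtain ⟨j, hj, hjw, hjk⟩ : ∃ j ∈ cs (b + 1) L, L.drop j ∉ Wd ∧ κ ≤ (frN Fr (L.take j) (L.drop j) : ℝ) := by
      by_contra hcon
      have hsub : cs (b + 1) L ⊆ ((cs (b + 1) L).filter fun j => L.take j ∉ GT b (η / 8)) ∪
          (cs (b + 1) L).filter (Ex L) := by
        intro j hj
        rw [mem_union, mem_filter, mem_filter]
        by_cases hr : L.take j ∈ GT b (η / 8)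
        · refine Or.inr ⟨hj, ?_⟩
          rw [hEx]
          refine ⟨hr, ?_⟩
          by_contra h3
          obtain ⟨h4, h5⟩ := not_or.1 h3
          exact hcon ⟨j, hj, h5, not_lt.1 h4⟩
        · exact Or.inl ⟨hj, hr⟩
      have h3 := (card_le_card hsub).trans (card_union_le _ _)
      have h4 : ((cs (b + 1) L).card : ℝ) ≤ (((cs (b + 1) L).filter fun j => L.take j ∉ GT b (η / 8)).card : ℝ) +
          (((cs (b + 1) L).filter (Ex L)).card : ℝ) := by exact_mod_cast h3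
      have h5 : η * Ub (b + 1) ≤ ((cs (b + 1) L).card : ℝ) := hL2
      have h6 := rich' b η L hη
      have h7 : 0 < η * Ub (b + 1) := by positivity
      have h8 := not_le.1 hL3
      linarith
    obtain ⟨c1, c2, c3, c4⟩ := mem_cs.1 hj
    -- the free cuts as cuts of L
    refine ⟨(((range ((L.drop j).length + 1)).filter fun i => (L.drop j).take i ∈ BU ∧ (L.drop j).drop i ∈ BU ∧
      Fr (L.take j) ((L.drop j).take i)).image fun i => j + i), ?_, fun q hq => ?_⟩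
    · rw [card_image_of_injective _ (fun x y h => Nat.add_left_cancel h), ← ENNReal.ofReal_natCast]
      exact ENNReal.ofReal_le_ofReal hjk
    · obtain ⟨i, hi, rfl⟩ := mem_image.1 hq
      rw [mem_filter, mem_range, List.length_drop] at hi
      obtain ⟨i1, i2, i3, i4⟩ := hi
      have e1 : L.take (j + i) = L.take j ++ (L.drop j).take i := by rw [List.take_add]
      have e2 : L.drop (j + i) = (L.drop j).drop i := by rw [List.drop_drop]
      have e3 : hgt (L.drop j) = hgt ((L.drop j).take i) + hgt ((L.drop j).drop i) := by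
        have := hgt_eq (Brd_append (BU_hgt i2) (BU_hgt i3))
        rwa [List.take_append_drop] at this
      have e4 : L.take (j + i) ∈ P' := by
        rw [e1]
        refine h1 (L.take j) ((L.drop j).take i) ((L.drop j).drop i) ?_ i2 i3 ?_ ?_ c4
        · rw [List.take_append_drop, List.take_append_drop]
          exact hL1
        · rw [List.take_append_drop]
          exact c3
        · rw [List.take_append_drop]
          exact hjw
      refine ⟨by omega, ⟨e4, L.take j, (L.drop j).take i, e1, c4, i2, by omega, i4⟩, ?_⟩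
      rw [e2]
      exact ⟨_, by omega, BU_hgt i3⟩
  -- the sum
  have k1 : gf G1 ≤ ENNReal.ofReal (4 / (η * Ub (b + 1))) * (gf (P0 ∩ GT b (η / 8)) * (E + w)) := by
    have e : ENNReal.ofReal (4 / (η * Ub (b + 1))) * ENNReal.ofReal (η / 4 * Ub (b + 1)) = 1 := by
      rw [← ENNReal.ofReal_mul (by positivity), ← ENNReal.ofReal_one]
      congr 1
      field_simp
    calc gf G1 = ENNReal.ofReal (4 / (η * Ub (b + 1))) * (ENNReal.ofReal (η / 4 * Ub (b + 1)) * gf G1) := by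
          rw [← mul_assoc, e, one_mul]
      _ ≤ _ := mul_le_mul_right h2 _
  have k2 : gf G2 ≤ ENNReal.ofReal (Ub (b + 1) / κ) * gf (FT Fr P' (b + 1)) := by
    have e : ENNReal.ofReal κ⁻¹ * ENNReal.ofReal κ = 1 := by
      rw [← ENNReal.ofReal_mul (by positivity), ← ENNReal.ofReal_one]
      congr 1
      field_simp
    calc gf G2 = ENNReal.ofReal κ⁻¹ * (ENNReal.ofReal κ * gf G2) := by rw [← mul_assoc, e, one_mul]
      _ ≤ ENNReal.ofReal κ⁻¹ * (gf (FT Fr P' (b + 1)) * ENNReal.ofReal (Ub (b + 1))) := mul_le_mul_right h3 _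
      _ = _ := by
          rw [mul_comm (gf (FT Fr P' (b + 1))), ← mul_assoc, ← ENNReal.ofReal_mul (by positivity)]
          congr 2
          rw [div_eq_mul_inv, mul_comm]
  exact (gf_mono hcov).trans ((gf_union_le _ _).trans (add_le_add k1 k2))

/-- **tipx**, the condition on P' in the general form -/
theorem tipxo (η : ℝ) (hη : 0 < η) : ∃ (C : ℝ) (e0 : ℕ), 1 ≤ C ∧ ∀ (P P' Wd : Set (List Bool)) (K b e : ℕ) (w M' : ℝ≥0∞),
    P ⊆ WL K → P' ⊆ SA → b ≤ K → e0 ≤ e → e + 2 ≤ b →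
    (∀ A Z1 Z2, A ++ (Z1 ++ Z2) ∈ P → Z1 ∈ BU → Z2 ∈ BU → hgt (Z1 ++ Z2) ≤ 2 ^ b → Z1 ++ Z2 ∉ Wd →
      OnB b A → A ++ Z1 ∈ P') →
    gf {Z | Z ∈ BU ∧ hgt Z ≤ 2 ^ b ∧ Z ∈ Wd} ≤ w →
    gf {t | t ∈ SA ∧ ∃ L ∈ P', ∃ x, BX ((2 ^ e : ℕ) : ℤ) x ∧ t = L ++ x} ≤ M' →
    gf (P ∩ GT b η) * Xb b ≤ ENNReal.ofReal (C / Ub b) * (ENNReal.ofReal (Ub e) + w) * (ENNReal.ofReal (Ub K) * Xb K ^ 2) +
      ENNReal.ofReal (C ^ (b - e)) * M' := by
  obtain ⟨CU, κ0, r0, hCU, hκ0, hUA⟩ := uah6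
  obtain ⟨C0, s, hC0, hM3⟩ := m3c
  obtain ⟨CX, hCX, hX⟩ := Xb_pow
  obtain ⟨Ct, hCt, hT⟩ := tip_WL (η / 8) (by positivity)
  obtain ⟨Y1, hY1⟩ : ∃ Y1 : ℝ, Y1 = 4 / η * Ct * CX * (CU + 1) := ⟨_, rfl⟩
  obtain ⟨Y2, hY2⟩ : ∃ Y2 : ℝ, Y2 = 1 / κ0 * CX ^ (s + 1) * C0 := ⟨_, rfl⟩
  have hY1p : 0 ≤ Y1 := by rw [hY1]; positivity
  have hY2p : 0 ≤ Y2 := by rw [hY2]; positivity
  have hq : 0 ≤ (Y2 + 1) * (2 * CX) := by positivity
  refine ⟨Y1 + (Y2 + 1) * (2 * CX) + 1, r0 + s + 1, by linarith,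
    fun P P' Wd K b e w M' hP hP' hbK he0 heb hpre hw hM' => ?_⟩
  obtain ⟨C, hC⟩ : ∃ C : ℝ, C = Y1 + (Y2 + 1) * (2 * CX) + 1 := ⟨_, rfl⟩
  rw [← hC]
  obtain ⟨b', rfl⟩ : ∃ b', b = b' + 1 := ⟨b - 1, by omega⟩
  obtain ⟨k, hk⟩ : ∃ k, e = k + (s + 1) := ⟨e - (s + 1), by omega⟩
  have hUe : (0 : ℝ) < Ub e := Ub_pos e
  have hUe' : (0 : ℝ) < UU (2 ^ e) := hUe
  have hUb : (0 : ℝ) < Ub (b' + 1) := Ub_pos (b' + 1)
  have hr0 : r0 ≤ 2 ^ e := by
    have h1 : r0 < 2 ^ r0 := Nat.lt_two_pow_self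
    have h2 : (2 : ℕ) ^ r0 ≤ 2 ^ e := Nat.pow_le_pow_right (by norm_num) (by omega)
    omega
  have hst := step3o (Far6 (2 ^ e)) (P := P) (P' := P') (P0 := WL K) (Wd := Wd) (b := b') (η := η) (κ := κ0 * UU (2 ^ e))
    (E := ENNReal.ofReal (CU * UU (2 ^ e))) (w := w) (fun t ht => (hP ht).1)
    (fun A Z h1 _ _ => by
      refine ⟨?_, fun i hi dir => ?_⟩
      · have := SA_take (hP h1).1 A.length
        rwa [List.take_left'] at this
        rfl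
      · have := (hP h1).2 i (by rw [List.length_append]; omega) dir
        rwa [vx_append (by omega)] at this)
    hpre hη (by positivity) (fun A => hUA (2 ^ e) hr0 (2 ^ (b' + 1)) A) hw
  have hgl := hM3 P' M' hP' (b' + 1) k (2 ^ e) (by
      rw [hk, show k + (s + 1) = k + s + 1 by ring, pow_succ]
      have : 1 ≤ 2 ^ (k + s) := Nat.one_le_two_pow
      omega) (by
      have h1 : (4 : ℕ) * 2 ^ e = 2 ^ (e + 2) := by ring
      rw [h1]
      exact Nat.pow_le_pow_right (by norm_num) (by omega)) (by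
      refine (gf_mono ?_).trans hM'
      rintro t ⟨h1, L, hL, x, hx, rfl⟩
      refine ⟨h1, L, hL, x, fun i hi dir => (hx i hi dir).trans ?_, rfl⟩
      have h2 : (2 : ℕ) ^ (k + s) ≤ 2 ^ e := Nat.pow_le_pow_right (by norm_num) (by omega)
      exact_mod_cast h2)
  have hXb1 : Xb (b' + 1) ≤ ENNReal.ofReal CX * Xb b' := by
    have := hX b' 1
    rwa [pow_one] at this
  have hXb2 : Xb (b' + 1) ≤ ENNReal.ofReal (CX ^ (b' + 1 - e + (s + 1))) * Xb k := by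
    have := hX k (b' + 1 - e + (s + 1))
    rwa [show k + (b' + 1 - e + (s + 1)) = b' + 1 by omega] at this
  have hTb := hT K b' (by omega)
  -- the numbers
  have n1 : 4 / (η * Ub (b' + 1)) * (Ct * CX * (CU + 1)) ≤ C / Ub (b' + 1) := by
    have e1 : 4 / (η * Ub (b' + 1)) * (Ct * CX * (CU + 1)) = Y1 / Ub (b' + 1) := by
      rw [hY1]
      field_simp
    rw [e1]
    gcongr
    rw [hC]
    linarith
  have n2 : Ub (b' + 1) / (κ0 * UU (2 ^ e)) * (CX ^ (b' + 1 - e + (s + 1)) * C0) ≤ C ^ (b' + 1 - e) := by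
    obtain ⟨n, hn⟩ : ∃ n, b' + 1 = e + n := ⟨b' + 1 - e, by omega⟩
    have hn1 : 1 ≤ n := by omega
    have hsub : b' + 1 - e = n := by omega
    rw [hsub]
    have h1 : Ub (b' + 1) ≤ 2 ^ n * Ub e := by
      rw [hn]
      exact Ub_steps e n
    have h2 : Ub (b' + 1) / (κ0 * UU (2 ^ e)) ≤ 2 ^ n / κ0 := by
      show Ub (b' + 1) / (κ0 * Ub e) ≤ _
      rw [div_le_div_iff₀ (by positivity) hκ0]
      nlinarith
    have h3 : 2 ^ n / κ0 * (CX ^ (n + (s + 1)) * C0) = Y2 * (2 * CX) ^ n := by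
      rw [hY2, mul_pow, pow_add (a := CX)]
      ring
    have h4 : Y2 * (2 * CX) ^ n ≤ ((Y2 + 1) * (2 * CX)) ^ n := by
      rw [mul_pow (Y2 + 1)]
      have h5 : Y2 ≤ (Y2 + 1) ^ n := by
        calc Y2 ≤ (Y2 + 1) ^ 1 := by linarith
          _ ≤ (Y2 + 1) ^ n := pow_le_pow_right₀ (by linarith) hn1
      exact mul_le_mul_of_nonneg_right h5 (by positivity)
    have h5 : ((Y2 + 1) * (2 * CX)) ^ n ≤ C ^ n := pow_le_pow_left₀ hq (by rw [hC]; linarith) _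
    calc Ub (b' + 1) / (κ0 * UU (2 ^ e)) * (CX ^ (n + (s + 1)) * C0) ≤ 2 ^ n / κ0 * (CX ^ (n + (s + 1)) * C0) :=
          mul_le_mul_of_nonneg_right h2 (by positivity)
      _ ≤ _ := by
          rw [h3]
          linarith
  -- the exceptional part
  have hE : ENNReal.ofReal (CU * UU (2 ^ e)) + w ≤ ENNReal.ofReal (CU + 1) * (ENNReal.ofReal (Ub e) + w) := by
    rw [mul_add]
    refine add_le_add ?_ ?_
    · rw [← ENNReal.ofReal_mul (by linarith)]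
      refine ENNReal.ofReal_le_ofReal ?_
      show CU * Ub e ≤ (CU + 1) * Ub e
      nlinarith
    · calc w = 1 * w := (one_mul w).symm
        _ ≤ ENNReal.ofReal (CU + 1) * w := by
            refine mul_le_mul' ?_ le_rfl
            rw [← ENNReal.ofReal_one]
            exact ENNReal.ofReal_le_ofReal (by linarith)
  calc gf (P ∩ GT (b' + 1) η) * Xb (b' + 1)
      ≤ (ENNReal.ofReal (4 / (η * Ub (b' + 1))) * (gf (WL K ∩ GT b' (η / 8)) * (ENNReal.ofReal (CU * UU (2 ^ e)) + w)) +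
        ENNReal.ofReal (Ub (b' + 1) / (κ0 * UU (2 ^ e))) * gf (FT (Far6 (2 ^ e)) P' (b' + 1))) * Xb (b' + 1) :=
        mul_le_mul_left hst _
    _ = ENNReal.ofReal (4 / (η * Ub (b' + 1))) * (gf (WL K ∩ GT b' (η / 8)) * (ENNReal.ofReal (CU * UU (2 ^ e)) + w)) *
          Xb (b' + 1) +
        ENNReal.ofReal (Ub (b' + 1) / (κ0 * UU (2 ^ e))) * gf (FT (Far6 (2 ^ e)) P' (b' + 1)) * Xb (b' + 1) := add_mul _ _ _
    _ ≤ ENNReal.ofReal (C / Ub (b' + 1)) * (ENNReal.ofReal (Ub e) + w) * (ENNReal.ofReal (Ub K) * Xb K ^ 2) +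
        ENNReal.ofReal (C ^ (b' + 1 - e)) * M' := by
        refine add_le_add ?_ ?_
        · calc ENNReal.ofReal (4 / (η * Ub (b' + 1))) *
                (gf (WL K ∩ GT b' (η / 8)) * (ENNReal.ofReal (CU * UU (2 ^ e)) + w)) * Xb (b' + 1)
              ≤ ENNReal.ofReal (4 / (η * Ub (b' + 1))) *
                (gf (WL K ∩ GT b' (η / 8)) * (ENNReal.ofReal (CU + 1) * (ENNReal.ofReal (Ub e) + w))) *
                (ENNReal.ofReal CX * Xb b') := by gcongr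
            _ = ENNReal.ofReal (4 / (η * Ub (b' + 1))) * ENNReal.ofReal CX * ENNReal.ofReal (CU + 1) *
                (ENNReal.ofReal (Ub e) + w) * (gf (WL K ∩ GT b' (η / 8)) * Xb b') := by ring
            _ ≤ ENNReal.ofReal (4 / (η * Ub (b' + 1))) * ENNReal.ofReal CX * ENNReal.ofReal (CU + 1) *
                (ENNReal.ofReal (Ub e) + w) * (ENNReal.ofReal (Ct * Ub K) * Xb K ^ 2) := mul_le_mul_right hTb _
            _ = ENNReal.ofReal (4 / (η * Ub (b' + 1)) * (Ct * CX * (CU + 1))) * (ENNReal.ofReal (Ub e) + w) *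
                (ENNReal.ofReal (Ub K) * Xb K ^ 2) := by
                rw [ENNReal.ofReal_mul hCt.le,
                  show 4 / (η * Ub (b' + 1)) * (Ct * CX * (CU + 1)) = 4 / (η * Ub (b' + 1)) * CX * (CU + 1) * Ct by ring,
                  ENNReal.ofReal_mul (show 0 ≤ 4 / (η * Ub (b' + 1)) * CX * (CU + 1) by positivity),
                  ENNReal.ofReal_mul (show 0 ≤ 4 / (η * Ub (b' + 1)) * CX by positivity),
                  ENNReal.ofReal_mul (show 0 ≤ 4 / (η * Ub (b' + 1)) by positivity)]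
                ring
            _ ≤ _ := mul_le_mul_left (mul_le_mul_left (ENNReal.ofReal_le_ofReal n1) _) _
        · calc ENNReal.ofReal (Ub (b' + 1) / (κ0 * UU (2 ^ e))) * gf (FT (Far6 (2 ^ e)) P' (b' + 1)) * Xb (b' + 1)
              ≤ ENNReal.ofReal (Ub (b' + 1) / (κ0 * UU (2 ^ e))) * gf (FT (Far6 (2 ^ e)) P' (b' + 1)) *
                (ENNReal.ofReal (CX ^ (b' + 1 - e + (s + 1))) * Xb k) := mul_le_mul_right hXb2 _
            _ = ENNReal.ofReal (Ub (b' + 1) / (κ0 * UU (2 ^ e))) * ENNReal.ofReal (CX ^ (b' + 1 - e + (s + 1))) *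
                (gf (FT (Far6 (2 ^ e)) P' (b' + 1)) * Xb k) := by ring
            _ ≤ ENNReal.ofReal (Ub (b' + 1) / (κ0 * UU (2 ^ e))) * ENNReal.ofReal (CX ^ (b' + 1 - e + (s + 1))) *
                (ENNReal.ofReal C0 * M') := mul_le_mul_right hgl _
            _ = ENNReal.ofReal (Ub (b' + 1) / (κ0 * UU (2 ^ e)) * (CX ^ (b' + 1 - e + (s + 1)) * C0)) * M' := by
                rw [ENNReal.ofReal_mul (by positivity), ENNReal.ofReal_mul (show 0 ≤ CX ^ (b' + 1 - e + (s + 1)) by positivity)]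
                ring
            _ ≤ _ := mul_le_mul_left (ENNReal.ofReal_le_ofReal n2) _

/-- **tipx with a gap of j scales** -/
theorem tipxoJ (η : ℝ) (hη : 0 < η) : ∃ (C lam : ℝ) (j0 : ℕ), 1 ≤ C ∧ 1 < lam ∧
    ∀ (b j K : ℕ) (P P' Wd : Set (List Bool)) (w : ℝ) (M' : ℝ≥0∞), 1 ≤ j → j + j0 ≤ b → b ≤ K → P ⊆ WL K →
    (∀ A Z1 Z2, A ++ (Z1 ++ Z2) ∈ P → Z1 ∈ BU → Z2 ∈ BU → hgt (Z1 ++ Z2) ≤ 2 ^ b → Z1 ++ Z2 ∉ Wd →
      OnB b A → A ++ Z1 ∈ P') →
    0 ≤ w → gf {Z | Z ∈ BU ∧ hgt Z ≤ 2 ^ b ∧ Z ∈ Wd} ≤ ENNReal.ofReal (w * Ub b) →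
    gf {t | t ∈ SA ∧ ∃ L ∈ P', ∃ x, BX ((2 ^ b : ℕ) : ℤ) x ∧ t = L ++ x} ≤ M' →
    gf (P ∩ GT b η) * Xb b ≤ ENNReal.ofReal (C * ((lam ^ j)⁻¹ + w) * Ub K) * Xb K ^ 2 + ENNReal.ofReal (C ^ j) * M' := by
  obtain ⟨C, e0, hC, h⟩ := tipxo η hη
  obtain ⟨lam, hlam⟩ : ∃ lam : ℝ, lam = (2 : ℝ) ^ kap0 := ⟨_, rfl⟩
  have hlam1 : 1 < lam := by
    rw [hlam]
    exact Real.one_lt_rpow (by norm_num) kap0_pos
  have hC3 : C ≤ C ^ 3 := le_self_pow₀ hC (by norm_num)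
  refine ⟨2 * C ^ 3, lam, e0 + 2, by linarith, hlam1, fun b j K P P' Wd w M' hj hjb hbK hP h1 hw hW hM' => ?_⟩
  obtain ⟨e, he⟩ : ∃ e, b = e + (j + 2) := ⟨b - (j + 2), by omega⟩
  have hUb : (0 : ℝ) < Ub b := Ub_pos b
  have hUe : (0 : ℝ) < Ub e := Ub_pos e
  have hUK : (0 : ℝ) < Ub K := Ub_pos K
  have hl0 : (0 : ℝ) < lam ^ j := by positivity
  have key := h P (P' ∩ SA) Wd K b e (ENNReal.ofReal (w * Ub b)) M' hP Set.inter_subset_right hbK (by omega) (by omega)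
    (fun A Z1 Z2 a1 a2 a3 a4 a5 a6 => ⟨h1 A Z1 Z2 a1 a2 a3 a4 a5 a6, by
      have := SA_take (hP a1).1 (A ++ Z1).length
      rwa [← List.append_assoc, List.take_left' rfl] at this⟩) hW
    ((gf_mono (by
      rintro t ⟨a1, L, hL, x, hx, rfl⟩
      refine ⟨a1, L, hL.1, x, fun i hi dir => (hx i hi dir).trans ?_, rfl⟩
      have h2 : (2 : ℕ) ^ e ≤ 2 ^ b := Nat.pow_le_pow_right (by norm_num) (by omega)
      exact_mod_cast h2)).trans hM')
  refine key.trans (add_le_add ?_ ?_)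
  · rw [← ENNReal.ofReal_add hUe.le (by positivity), ← mul_assoc, ← ENNReal.ofReal_mul (by positivity),
      ← ENNReal.ofReal_mul (by positivity)]
    refine mul_le_mul_left (ENNReal.ofReal_le_ofReal ?_) _
    have hrat := GB.Ub_ratio_down (show e ≤ b by omega)
    have h2 : (2 : ℝ) ^ (-(kap0 * ((b : ℝ) - e))) ≤ (lam ^ j)⁻¹ := by
      rw [hlam, ← Real.rpow_natCast, ← Real.rpow_mul (by norm_num), ← Real.rpow_neg (by norm_num)]
      refine Real.rpow_le_rpow_of_exponent_le (by norm_num) ?_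
      have : (b : ℝ) = e + (j + 2) := by rw [he]; push_cast; ring
      have := kap0_pos
      nlinarith
    have h3 : Ub e / Ub b ≤ 2 * (lam ^ j)⁻¹ := by linarith
    have e1 : C / Ub b * (Ub e + w * Ub b) = C * (Ub e / Ub b + w) := by
      field_simp
    rw [e1]
    refine mul_le_mul_of_nonneg_right ?_ hUK.le
    have h4 : 0 < (lam ^ j)⁻¹ := by positivity
    calc C * (Ub e / Ub b + w) ≤ C * (2 * (lam ^ j)⁻¹ + w) := by gcongr
      _ ≤ C ^ 3 * (2 * (lam ^ j)⁻¹ + 2 * w) := by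
          refine mul_le_mul hC3 (by linarith) (by positivity) (by positivity)
      _ = _ := by ring
  · refine mul_le_mul_left (ENNReal.ofReal_le_ofReal ?_) _
    rw [show b - e = j + 2 by omega]
    have h5 : C ^ (j + 2) ≤ (C ^ 3) ^ j := by
      rw [← pow_mul]
      exact pow_le_pow_right₀ hC (by omega)
    exact h5.trans (pow_le_pow_left₀ (by positivity) (by linarith) _)

end TIP

end HexObs
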