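import Pool.Agent.IW.NEndQ
import Pool.Agent.IW.Loc
import Pool.Agent.TIW.IWF

/-!
IW: windows of the infinite walk: an event of the steps i, ..., i + l - 1 costs at most Z i * Z l times its probability for the
uniform walk with l steps, Z k = (number of the walks) * mu ^ (- k), which is at most a power of k (helper11).
-/

set_option autoImplicit false

open MeasureTheory Filter Topology
open scoped Classical

namespace Pool.Agent.IW

open Res

open HexObs (SawN cS Saw oo up vx dx tf tip xc)

open HexObs.TOG (Pn)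

open NTF (JJ)

/-- the walk after i steps -/
def sh (i : ℕ) (w : ℕ → Fin 3) : ℕ → Fin 3 := fun q => w (i + q)

lemma step_add (i q : ℕ) (a : Fin 3) : step (i + q) a = (-1) ^ i * step q a := by
  unfold step
  rw [pow_add, mul_assoc]

lemma ipos_sh (i : ℕ) (w : ℕ → Fin 3) (j : ℕ) : ipos (sh i w) j = (-1) ^ i * (ipos w (i + j) - ipos w i) := by
  induction j with
  | zero =>
    rw [add_zero, sub_self, mul_zero]
    exact Finset.sum_range_zero _
  | succ j ih =>
    have h1 : ipos (sh i w) (j + 1) = ipos (sh i w) j + step j (w (i + j)) := Finset.sum_range_succ _ _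
    have h2 : ipos w (i + (j + 1)) = ipos w (i + j) + step (i + j) (w (i + j)) := Finset.sum_range_succ _ _
    rw [h1, ih, h2, step_add]
    have h3 : ((-1 : ℂ) ^ i) * (-1) ^ i = 1 := by
      rw [← mul_pow]
      norm_num
    calc (-1 : ℂ) ^ i * (ipos w (i + j) - ipos w i) + step j (w (i + j))
        = (-1) ^ i * (ipos w (i + j) - ipos w i) + ((-1) ^ i * (-1) ^ i) * step j (w (i + j)) := by rw [h3, one_mul]
      _ = (-1) ^ i * (ipos w (i + j) + (-1) ^ i * step j (w (i + j)) - ipos w i) := by ring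

lemma norm_ipos_sh (i : ℕ) (w : ℕ → Fin 3) (j : ℕ) : ‖ipos (sh i w) j‖ = ‖ipos w (i + j) - ipos w i‖ := by
  rw [ipos_sh, norm_mul, norm_pow, norm_neg, norm_one, one_pow, one_mul]

lemma mem_saw {n : ℕ} {s : Fin n → Fin 3} : s ∈ saw n ↔ ∀ j k : ℕ, j ≤ n → k ≤ n → ipos (ext s) j = ipos (ext s) k → j = k := by
  unfold saw
  rw [Finset.mem_filter]
  simp only [Finset.mem_univ, true_and]
  constructor
  · intro h j k hj hk e
    rw [ipos_ext s hj, ipos_ext s hk] at e
    exact h j k hj hk e
  · intro h j k hj hk e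
    rw [← ipos_ext s hj, ← ipos_ext s hk] at e
    exact h j k hj hk e

/-- the steps i, ..., i + l - 1 -/
def win (i l : ℕ) (w : ℕ → Fin 3) : Fin l → Fin 3 := fun q => w (i + q)

lemma ext_win (i l : ℕ) (w : ℕ → Fin 3) {q : ℕ} (hq : q < l) : ext (win i l w) q = sh i w q := ext_lt _ hq

lemma win_mem {n i l : ℕ} (h : i + l ≤ n) {s : Fin n → Fin 3} (hs : s ∈ saw n) : win i l (ext s) ∈ saw l := by
  rw [mem_saw] at hs ⊢
  intro j k hj hk e
  have e1 : ∀ j, j ≤ l → ipos (ext (win i l (ext s))) j = ipos (sh i (ext s)) j := fun j hj =>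
    ipos_loc hj fun q hq => ext_win i l (ext s) hq
  rw [e1 j hj, e1 k hk, ipos_sh, ipos_sh] at e
  have h1 : ((-1 : ℂ) ^ i) ≠ 0 := pow_ne_zero _ (by norm_num)
  have h2 := mul_left_cancel₀ h1 e
  have h3 := sub_left_inj.1 h2
  have h4 := hs (i + j) (i + k) (by omega) (by omega) h3
  omega

/-- **the count of the windows** -/
lemma count_win {n i l : ℕ} (h : i + l ≤ n) {A : Set (ℕ → Fin 3)} (hA : Loc l A) :
    ((saw n).filter (fun s => sh i (ext s) ∈ A)).card ≤
      (saw i).card * (((saw l).filter (fun s => ext s ∈ A)).card * (saw (n - (i + l))).card) := by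
  rw [← Finset.card_product, ← Finset.card_product]
  refine Finset.card_le_card_of_injOn (fun s => (win 0 i (ext s), win i l (ext s), win (i + l) (n - (i + l)) (ext s))) ?_ ?_
  · intro s hs
    have hs := Finset.mem_coe.1 hs
    rw [Finset.mem_filter] at hs
    refine Finset.mem_coe.2 (Finset.mem_product.2 ⟨win_mem (by omega) hs.1, Finset.mem_product.2 ⟨?_, win_mem (by omega) hs.1⟩⟩)
    refine Finset.mem_filter.2 ⟨win_mem h hs.1, ?_⟩
    exact hA _ _ (fun q hq => (ext_win i l (ext s) hq).symm) hs.2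
  · intro s _ s' _ he
    simp only [Prod.mk.injEq] at he
    obtain ⟨e1, e2, e3⟩ := he
    funext q
    have key : ext s q = ext s' q := by
      rcases lt_or_ge (q : ℕ) i with h1 | h1
      · have := congrFun e1 ⟨q, h1⟩
        unfold win at this
        simpa using this
      · rcases lt_or_ge (q : ℕ) (i + l) with h2 | h2
        · have := congrFun e2 ⟨q - i, by omega⟩
          unfold win at this
          simp only [Nat.add_sub_cancel' h1] at this
          exact this
        · have := congrFun e3 ⟨q - (i + l), by have := q.2; omega⟩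
          unfold win at this
          simp only [Nat.add_sub_cancel' h2] at this
          exact this
    rwa [ext_lt s q.2, ext_lt s' q.2] at key

/-- the number of the walks against mu ^ k -/
noncomputable def Zk (k : ℕ) : ℝ := ((saw k).card : ℝ) * (Real.sqrt (2 + Real.sqrt 2))⁻¹ ^ k

lemma Zk_pos (k : ℕ) : 0 < Zk k := by
  have h1 : (0 : ℝ) < ((saw k).card : ℝ) := NTSF.saw_card_pos k
  unfold Zk
  positivity

lemma ratio_back (m : ℕ) : Tendsto (fun n => ((saw n).card : ℝ) / ((saw (n + m)).card : ℝ)) atTop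
    (𝓝 ((Real.sqrt (2 + Real.sqrt 2))⁻¹ ^ m)) := by
  have hc : ∀ n, (0 : ℝ) < ((saw n).card : ℝ) := fun n => NTSF.saw_card_pos n
  induction m with
  | zero =>
    rw [pow_zero]
    refine tendsto_const_nhds.congr fun n => ?_
    rw [add_zero, div_self (hc n).ne']
  | succ m ih =>
    have h1 : Tendsto (fun n => ((saw n).card : ℝ) / ((saw (n + 1)).card : ℝ)) atTop
        (𝓝 ((Real.sqrt (2 + Real.sqrt 2))⁻¹)) := by
      refine ((HexObs.TIW.iw.2).inv₀ (by positivity)).congr fun n => ?_
      rw [inv_div]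
    have h2 := h1.comp (tendsto_add_atTop_nat m)
    rw [pow_succ]
    refine (ih.mul h2).congr fun n => ?_
    show ((saw n).card : ℝ) / ((saw (n + m)).card : ℝ) * (((saw (n + m)).card : ℝ) / ((saw (n + m + 1)).card : ℝ)) = _
    rw [div_mul_div_cancel₀ (hc _).ne', add_assoc]

/-- **windows of the infinite walk** -/
theorem win_le {P : Measure (ℕ → Fin 3)} [IsProbabilityMeasure P]
    (hP : ∀ (η : ℕ → Fin 3) (m : ℕ), Tendsto (fun n => begins n m η) atTop (𝓝 (P.real {w | ∀ i, i < m → w i = η i})))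
    (i l : ℕ) {A : Set (ℕ → Fin 3)} (hA : Loc l A) :
    P.real {w | sh i w ∈ A} ≤ Zk i * (Zk l * (law l).real A) := by
  have hc : ∀ n, (0 : ℝ) < ((saw n).card : ℝ) := fun n => NTSF.saw_card_pos n
  have hB : Loc (i + l) {w | sh i w ∈ A} := by
    intro w w' e hw
    exact hA _ _ (fun q hq => e (i + q) (by omega)) hw
  have h1 := (law_lim hP hB).comp (tendsto_add_atTop_nat (i + l))
  have h2 := (ratio_back (i + l)).const_mul (((saw i).card : ℝ) * (((saw l).card : ℝ) * (law l).real A))
  have e : Zk i * (Zk l * (law l).real A) =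
      ((saw i).card : ℝ) * (((saw l).card : ℝ) * (law l).real A) * (Real.sqrt (2 + Real.sqrt 2))⁻¹ ^ (i + l) := by
    unfold Zk
    rw [pow_add]
    ring
  rw [e]
  refine le_of_tendsto_of_tendsto' h1 h2 fun n => ?_
  show (law (n + (i + l))).real {w | sh i w ∈ A} ≤ _
  rw [law_real hB, law_real hA]
  have h3 := count_win (n := n + (i + l)) (i := i) (by omega) hA
  rw [Nat.add_sub_cancel] at h3
  have h4 : (((saw (n + (i + l))).filter (fun s => sh i (ext s) ∈ A)).card : ℝ) ≤
      ((saw i).card : ℝ) * ((((saw l).filter (fun s => ext s ∈ A)).card : ℝ) * ((saw n).card : ℝ)) := by exact_mod_cast h3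
  have h5 : ((saw l).card : ℝ) * ((((saw l).filter (fun s => ext s ∈ A)).card : ℝ) / ((saw l).card : ℝ)) =
      (((saw l).filter (fun s => ext s ∈ A)).card : ℝ) := mul_div_cancel₀ _ (hc l).ne'
  rw [h5, ← mul_div_assoc]
  refine (div_le_div_of_nonneg_right h4 (hc _).le).trans (le_of_eq ?_)
  rw [mul_assoc]

end Pool.Agent.IW
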